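import Pool.Agent.Helper449.ZM.Core

open MvPolynomial
open scoped KaehlerDifferential

namespace Pool.Agent.Helper449.ZM

variable {K : Type} [Field K] [Algebra ℂ K] [Algebra (MvPolynomial (Fin 2) ℂ) K]
  [IsScalarTower ℂ (MvPolynomial (Fin 2) ℂ) K] [IsFractionRing (MvPolynomial (Fin 2) ℂ) K]

theorem exists_basis : ∃ b : Module.Basis (Fin 2) K (Ω[K⁄ℂ]), ∀ i, b i = dd (am K (X i)) := by
  let b0 := KaehlerDifferential.mvPolynomialBasis ℂ (Fin 2)
  let b : Module.Basis (Fin 2) K (Ω[K⁄ℂ]) := b0.ofIsLocalizedModule K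
    (nonZeroDivisors (MvPolynomial (Fin 2) ℂ))
    (KaehlerDifferential.map ℂ ℂ (MvPolynomial (Fin 2) ℂ) K)
  refine ⟨b, fun i => ?_⟩
  simp only [b, b0, Module.Basis.ofIsLocalizedModule_apply,
    KaehlerDifferential.mvPolynomialBasis_apply, KaehlerDifferential.map_D]

theorem W_xy_ne_zero : W (dd (am K (X 0))) (dd (am K (X 1))) ≠ 0 := by
  obtain ⟨b, hb⟩ := exists_basis (K := K)
  intro h
  let D : Fin 2 → Derivation ℂ K K := fun i => (b.coord i).compDer (KaehlerDifferential.D ℂ K)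
  have h1 : ∀ i j, (D i).liftKaehlerDifferential (dd (am K (X j))) = b.coord i (b j) := by
    intro i j
    rw [dd, Derivation.liftKaehlerDifferential_comp_D, hb]
    rfl
  have h2 := congrFun h D
  rw [Form.zero_apply, W_apply, h1, h1, h1, h1] at h2
  simp at h2

theorem eq_one_of_smul {F M : Type*} [Field F] [AddCommGroup M] [Module F M] {c : F} {w : M}
    (hw : w ≠ 0) (h : w = c • w) : c = 1 := by
  have h2 : (1 - c) • w = 0 := by rw [sub_smul, one_smul, ← h, sub_self]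
  rcases smul_eq_zero.1 h2 with h3 | h3
  · exact (sub_eq_zero.1 h3).symm
  · exact absurd h3 hw

/-- the differential of a fraction -/
theorem dd_frac (a s : MvPolynomial (Fin 2) ℂ) (hs : s ≠ 0) :
    dd (am K a / am K s) =
      (am K (s * pderiv 0 a - a * pderiv 0 s) / am K (s * s)) • dd (am K (X 0)) +
      (am K (s * pderiv 1 a - a * pderiv 1 s) / am K (s * s)) • dd (am K (X 1)) := by
  have hs0 : am K s ≠ 0 := am_ne hs
  have ha := J6.D_polynomial K a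
  have hs' := J6.D_polynomial K s
  change dd (am K a) = am K _ • dd (am K (X 0)) + am K _ • dd (am K (X 1)) at ha
  change dd (am K s) = am K _ • dd (am K (X 0)) + am K _ • dd (am K (X 1)) at hs'
  rw [dd_div hs0, ha, hs', am_sub, am_sub, am_mul, am_mul, am_mul, am_mul, am_mul]
  match_scalars <;> field_simp

/-- a nonconstant power map -/
theorem dd_pow (f : K) (n : ℕ) : dd (f ^ n) = ((n : K) * f ^ (n - 1)) • dd f := by
  have := (KaehlerDifferential.D ℂ K).leibniz_pow f n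
  rw [dd, this, ← Nat.cast_smul_eq_nsmul K, smul_smul]

/-- from combinations for `x y`, `x^n`, `y^n` to combinations for `x`, `y`, where `y` is
invertible -/
theorem comb_xy {x y : K} {ω₁ ω₂ : Ω[K⁄ℂ]} {n : ℕ} (hn : n ≠ 0) {R : Subalgebra ℂ K} (hx : x ∈ R)
    (hy0 : y ≠ 0) (hy : y⁻¹ ∈ R)
    (h1 : ∃ α ∈ R, ∃ β ∈ R, dd (x * y) = α • ω₁ + β • ω₂)
    (h2 : ∃ α ∈ R, ∃ β ∈ R, dd (y ^ n) = α • ω₁ + β • ω₂) :
    (∃ α ∈ R, ∃ β ∈ R, dd x = α • ω₁ + β • ω₂) ∧ (∃ α ∈ R, ∃ β ∈ R, dd y = α • ω₁ + β • ω₂) := by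
  haveI : CharZero K := charZero_of_injective_algebraMap (algebraMap ℂ K).injective
  have hn' : ((n : K)⁻¹) ∈ R := by
    have : ((n : K)⁻¹) = algebraMap ℂ K ((n : ℂ)⁻¹) := by simp
    rw [this]; exact R.algebraMap_mem _
  have hn0 : (n : K) ≠ 0 := Nat.cast_ne_zero.2 hn
  have hY : ∃ α ∈ R, ∃ β ∈ R, dd y = α • ω₁ + β • ω₂ := by
    obtain ⟨α, hα, β, hβ, e⟩ := h2
    rw [dd_pow] at e
    obtain ⟨c, hc, hc1⟩ : ∃ c ∈ R, c * ((n : K) * y ^ (n - 1)) = 1 := by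
      refine ⟨(n : K)⁻¹ * (y⁻¹) ^ (n - 1), R.mul_mem hn' (R.pow_mem hy _), ?_⟩
      rw [inv_pow]; field_simp
    refine ⟨c * α, R.mul_mem hc hα, c * β, R.mul_mem hc hβ, ?_⟩
    rw [mul_smul, mul_smul, ← smul_add, ← e, smul_smul, hc1, one_smul]
  refine ⟨?_, hY⟩
  obtain ⟨α, hα, β, hβ, e⟩ := h1
  obtain ⟨γ, hγ, δ, hδ, e'⟩ := hY
  rw [dd_mul, e'] at e
  refine ⟨y⁻¹ * (α - x * γ), R.mul_mem hy (R.sub_mem hα (R.mul_mem hx hγ)),
    y⁻¹ * (β - x * δ), R.mul_mem hy (R.sub_mem hβ (R.mul_mem hx hδ)), ?_⟩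
  have e2 : y • dd x = α • ω₁ + β • ω₂ - x • (γ • ω₁ + δ • ω₂) := by
    rw [← e]; abel
  have e3 : dd x = y⁻¹ • (y • dd x) := by rw [smul_smul, inv_mul_cancel₀ hy0, one_smul]
  rw [e3, e2]
  module

/-- The non-existence theorem: a morphism to a smooth surface whose comorphism has image in the
functions with zero linear part at the origin, cannot exist if the image contains
`xy`, `x^n`, `y^n` and no divisor is contracted. -/
theorem core {L : Type} [Field L] [Algebra ℂ L] (Z : ProjVar K)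
    (hZ : ∀ (p : Ideal (MvPolynomial (Fin 2) ℂ)) (hp : p.IsPrime), Z.IsLocal (atPrime K p hp))
    (Y : ProjVar L) (hY : Y.Smooth) (hrank : Module.finrank L (Ω[L⁄ℂ]) ≤ 2)
    (θ : L →ₐ[ℂ] K) (n : ℕ) (hn : n ≠ 0)
    (e1 : ∃ f, θ f = am K (X 0) * am K (X 1)) (e2 : ∃ f, θ f = am K (X 0) ^ n)
    (e3 : ∃ f, θ f = am K (X 1) ^ n)
    (hlin : ∀ (f : L) (a s : MvPolynomial (Fin 2) ℂ), MvPolynomial.eval (0 : Fin 2 → ℂ) s ≠ 0 →
      θ f = am K a / am K s →
      MvPolynomial.eval (0 : Fin 2 → ℂ) (s * pderiv 0 a - a * pderiv 0 s) = 0 ∧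
      MvPolynomial.eval (0 : Fin 2 → ℂ) (s * pderiv 1 a - a * pderiv 1 s) = 0)
    (hno : ∀ (q : MvPolynomial (Fin 2) ℂ), Prime q → ∀ (hp : (Ideal.span {q}).IsPrime) (T : Set L),
      IntermediateField.adjoin ℂ T = ⊤ →
      (∀ g ∈ T, ∀ V : ValuationSubring K, (∀ c : ℂ, algebraMap ℂ K c ∈ V) →
        (∀ f ∈ V, f ∈ atPrime K (Ideal.span {q}) hp) →
        ∀ R, Z.IsLocal R → ValDominates (AlgHom.id ℂ K) V R → θ g ∈ R) → False)
    (hM : IsMorphism Z Y θ) : False := by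
  have hx0 : am K (X 0) ≠ 0 := am_ne (X_ne_zero 0)
  have hy0 : am K (X 1) ≠ 0 := am_ne (X_ne_zero 1)
  -- the origin
  have hm0 : (RingHom.ker (MvPolynomial.eval (0 : Fin 2 → ℂ))).IsPrime := RingHom.ker_isPrime _
  obtain ⟨S0, hS0, hd0⟩ := hM _ (hZ _ hm0)
  obtain ⟨hloc0, i, hi, hch0⟩ := exists_of_isLocal Y hS0
  haveI := hY S0 hS0
  haveI := isLocalRing_of_localSub hloc0
  haveI := essFiniteType_of_isLocOf hch0 (chart_finiteType Y i)
  haveI := isFractionRing_of_isLocal Y hS0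
  have hr0 : Module.finrank S0 (Ω[S0⁄ℂ]) ≤ 2 := by
    rw [J2.finrank_kaehler_eq S0 L]; exact hrank
  obtain ⟨s, t, hst⟩ := J2.exists_two_generators S0 hr0
  have hcomb0 := comb_of_span s t hst
  obtain ⟨a, b, hb, ea⟩ := hd0.1 s s.2
  obtain ⟨a', b', hb', ea'⟩ := hd0.1 t t.2
  obtain ⟨l1, l2⟩ := hlin s a b hb ea
  obtain ⟨l3, l4⟩ := hlin t a' b' hb' ea'
  have hbne : b ≠ 0 := ne_of_notMem hb
  have hbne' : b' ≠ 0 := ne_of_notMem hb'
  obtain ⟨A, hA⟩ : ∃ A, A = b * pderiv 0 a - a * pderiv 0 b := ⟨_, rfl⟩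
  obtain ⟨B, hB⟩ : ∃ B, B = b * pderiv 1 a - a * pderiv 1 b := ⟨_, rfl⟩
  obtain ⟨A', hA'⟩ : ∃ A, A = b' * pderiv 0 a' - a' * pderiv 0 b' := ⟨_, rfl⟩
  obtain ⟨B', hB'⟩ : ∃ B, B = b' * pderiv 1 a' - a' * pderiv 1 b' := ⟨_, rfl⟩
  rw [← hA] at l1
  rw [← hB] at l2
  rw [← hA'] at l3
  rw [← hB'] at l4
  obtain ⟨j, hj⟩ : ∃ j, j = A * B' - B * A' := ⟨_, rfl⟩
  have hj0 : MvPolynomial.eval (0 : Fin 2 → ℂ) j = 0 := by
    rw [hj, map_sub, map_mul, map_mul, l1, l2]; simp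
  have hWst : W (dd (θ s)) (dd (θ t)) =
      (am K j / am K (b * b * (b' * b'))) • W (dd (am K (X 0))) (dd (am K (X 1))) := by
    rw [ea, ea', dd_frac _ _ hbne, dd_frac _ _ hbne', W_comb, ← hA, ← hB, ← hA', ← hB']
    congr 1
    rw [hj, am_sub]
    simp only [am_mul]
    have h1 : am K b ≠ 0 := am_ne hbne
    have h2 : am K b' ≠ 0 := am_ne hbne'
    field_simp
  -- combinations over `K`
  have hcombK : ∀ f : L, ∃ α ∈ (⊤ : Subalgebra ℂ K), ∃ β ∈ (⊤ : Subalgebra ℂ K),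
      dd (θ f) = α • dd (θ s) + β • dd (θ t) := by
    intro f
    obtain ⟨α, -, β, -, e⟩ := dd_comb_of_isLocOf (R := (⊤ : Subalgebra ℂ L)) (isLocOf_top Y hS0)
      (fun r hr => by
        obtain ⟨α, hα, β, hβ, e⟩ := hcomb0 r hr
        exact ⟨α, trivial, β, trivial, e⟩) f trivial
    exact ⟨θ α, trivial, θ β, trivial, dd_map_comb θ e⟩
  obtain ⟨f1, hf1⟩ := e1
  obtain ⟨f2, hf2⟩ := e2
  obtain ⟨f3, hf3⟩ := e3
  have hjne : j ≠ 0 := by
    intro h0
    have h1 : W (dd (θ s)) (dd (θ t)) = 0 := by rw [hWst, h0]; simp [am]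
    obtain ⟨⟨α, -, β, -, ex⟩, ⟨γ, -, δ, -, ey⟩⟩ := comb_xy (x := am K (X 0)) (y := am K (X 1))
      (R := (⊤ : Subalgebra ℂ K)) hn trivial hy0 trivial
      (by rw [← hf1]; exact hcombK f1) (by rw [← hf3]; exact hcombK f3)
    apply W_xy_ne_zero (K := K)
    rw [ex, ey, W_comb, h1, smul_zero]
  obtain ⟨q, hq, hqj, hq0⟩ := J8.exists_prime_factor j hjne hj0
  have hp : (Ideal.span {q}).IsPrime := (Ideal.span_singleton_prime hq.ne_zero).2 hq
  have hqb : ∀ c : MvPolynomial (Fin 2) ℂ, c ∉ RingHom.ker (MvPolynomial.eval (0 : Fin 2 → ℂ)) →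
      c ∉ Ideal.span {q} := by
    intro c hc h
    apply hc
    obtain ⟨d, rfl⟩ := Ideal.mem_span_singleton.1 h
    rw [RingHom.mem_ker, map_mul, hq0, zero_mul]
  have hR0C : ∀ f ∈ atPrime K _ hm0, f ∈ atPrime K _ hp := by
    rintro _ ⟨a, s, hs, rfl⟩
    exact ⟨a, s, hqb s hs, rfl⟩
  obtain ⟨RC, hRC⟩ : ∃ RC, RC = atPrime K _ hp := ⟨_, rfl⟩
  obtain ⟨SC, hSCdef⟩ : ∃ SC, SC = locAt S0 (RC.comap θ) := ⟨_, rfl⟩
  have hS0C : S0 ≤ RC.comap θ := by rw [hRC]; exact fun f hf => hR0C _ (hd0.1 f hf)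
  have hlocC : IsLocOf S0 SC := by rw [hSCdef]; exact isLocOf_locAt _ _
  have hchC : IsLocOf (Y.chart i) SC := hlocC.of_le (hch0.1.trans hlocC.1) (fun f hf => by
    obtain ⟨a, ha, s, hs, hs0, hsi, rfl⟩ := hch0.2 f hf
    exact ⟨a, ha, s, hs, hs0, hlocC.1 hsi, rfl⟩)
  have hlsRC : LocalSub RC := by rw [hRC]; exact localSub_atPrime _ hp
  have hlsC : LocalSub SC := by
    rw [hSCdef]; exact localSub_locAt hS0C (localSub_comap θ hlsRC)
  have hSC : Y.IsLocal SC := isLocal_of Y hi hchC hlsC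
  have hdC : Dominates θ RC SC := by rw [hSCdef]; exact dominates_locAt θ hS0C
  haveI := hY SC hSC
  haveI := isLocalRing_of_localSub hlsC
  haveI := essFiniteType_of_isLocOf hchC (chart_finiteType Y i)
  haveI := isFractionRing_of_isLocal Y hSC
  have hrC : Module.finrank SC (Ω[SC⁄ℂ]) ≤ 2 := by
    rw [J2.finrank_kaehler_eq SC L]; exact hrank
  rcases J1.smooth_local_dichotomy SC hrC with hres | hval
  · -- the residue field is `ℂ`
    obtain ⟨T, hT, hT2⟩ := residual Z Y θ hM RC SC hSC hdC (by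
      intro f hf
      obtain ⟨c, hc⟩ := hres ⟨f, hf⟩
      refine ⟨c, ?_⟩
      by_cases h : f = algebraMap ℂ L c
      · exact Or.inl h
      · right
        intro hinv
        have hu : IsUnit ((⟨f, hf⟩ : SC) - algebraMap ℂ SC c) :=
          (isUnit_iff _).2 ⟨sub_ne_zero.2 h, hinv⟩
        exact (IsLocalRing.mem_maximalIdeal _).1 hc hu)
    refine hno q hq hp T hT ?_
    rw [hRC] at hT2
    exact hT2
  · -- a valuation ring
    have hcombC : ∀ r ∈ SC, ∃ α ∈ SC, ∃ β ∈ SC, dd r = α • dd (s : L) + β • dd (t : L) :=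
      dd_comb_of_isLocOf hlocC (fun r hr => by
        obtain ⟨α, hα, β, hβ, e⟩ := hcomb0 r hr
        exact ⟨α, hlocC.1 hα, β, hlocC.1 hβ, e⟩)
    have key : ∀ f : L, θ f ∈ RC → ∃ α ∈ RC, ∃ β ∈ RC,
        dd (θ f) = α • dd (θ s) + β • dd (θ t) := by
      intro f hf
      have hfC : f ∈ SC := by
        rcases mem_or_inv_mem_of_dvr Y hSC hval f with h | h
        · exact h
        · have := hdC.2 _ h (by rw [map_inv₀, inv_inv]; exact hf)
          rwa [inv_inv] at this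
      obtain ⟨α, hα, β, hβ, e⟩ := hcombC f hfC
      exact ⟨θ α, hdC.1 _ hα, θ β, hdC.1 _ hβ, dd_map_comb θ e⟩
    have hxC : am K (X 0) ∈ RC := by rw [hRC]; exact am_mem_atPrime _ _ _
    have hyC : am K (X 1) ∈ RC := by rw [hRC]; exact am_mem_atPrime _ _ _
    have k1 := key f1 (by rw [hf1]; exact RC.mul_mem hxC hyC)
    have k2 := key f2 (by rw [hf2]; exact RC.pow_mem hxC _)
    have k3 := key f3 (by rw [hf3]; exact RC.pow_mem hyC _)
    rw [hf1] at k1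
    rw [hf2] at k2
    rw [hf3] at k3
    obtain ⟨⟨α, hα, β, hβ, ex⟩, ⟨γ, hγ, δ, hδ, ey⟩⟩ :
        (∃ α ∈ RC, ∃ β ∈ RC, dd (am K (X 0)) = α • dd (θ s) + β • dd (θ t)) ∧
        (∃ α ∈ RC, ∃ β ∈ RC, dd (am K (X 1)) = α • dd (θ s) + β • dd (θ t)) := by
      by_cases hqy : (X 1 : MvPolynomial (Fin 2) ℂ) ∈ Ideal.span {q}
      · have hqx : (X 0 : MvPolynomial (Fin 2) ℂ) ∉ Ideal.span {q} := fun h =>
          J8.not_dvd_both q hq 0 0 (by simpa using Ideal.mem_span_singleton.1 h)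
            (by simpa using Ideal.mem_span_singleton.1 hqy)
        have hxi : (am K (X 0))⁻¹ ∈ RC := by rw [hRC]; exact inv_mem_atPrime hqx
        rw [mul_comm] at k1
        exact (comb_xy hn hyC hx0 hxi k1 k2).symm
      · have hyi : (am K (X 1))⁻¹ ∈ RC := by rw [hRC]; exact inv_mem_atPrime hqy
        exact comb_xy hn hxC hy0 hyi k1 k3
    have hW : W (dd (am K (X 0))) (dd (am K (X 1))) =
        ((α * δ - β * γ) * (am K j / am K (b * b * (b' * b')))) •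
          W (dd (am K (X 0))) (dd (am K (X 1))) := by
      rw [mul_smul, ← hWst]
      conv_lhs => rw [ex, ey, W_comb]
    have h1 : (α * δ - β * γ) * (am K j / am K (b * b * (b' * b'))) = 1 :=
      eq_one_of_smul (W_xy_ne_zero (K := K)) hW
    have hbb : b * b * (b' * b') ∉ Ideal.span {q} := by
      intro h
      rcases hp.mem_or_mem h with h | h
      · exact (hp.mem_or_mem h).elim (hqb b hb) (hqb b hb)
      · exact (hp.mem_or_mem h).elim (hqb b' hb') (hqb b' hb')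
    have hinv : (am K j)⁻¹ ∈ atPrime K _ hp := by
      have h2 : (am K (b * b * (b' * b')))⁻¹ ∈ RC := by rw [hRC]; exact inv_mem_atPrime hbb
      have h3 : (am K j)⁻¹ = (α * δ - β * γ) * (am K (b * b * (b' * b')))⁻¹ := by
        have h4 : am K j ≠ 0 := am_ne hjne
        refine inv_eq_of_mul_eq_one_left ?_
        rw [← h1]; ring
      rw [h3, ← hRC]
      exact RC.mul_mem (RC.sub_mem (RC.mul_mem hα hδ) (RC.mul_mem hβ hγ)) h2
    exact notMem_of_inv_mem hjne hinv (Ideal.mem_span_singleton.2 hqj)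

end Pool.Agent.Helper449.ZM
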