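import Mathlib

open MvPolynomial
open scoped KaehlerDifferential

namespace Pool.Agent.Helper449.ZM.J5

variable {K : Type} [Field K] [Algebra ℂ K]

def IsLocOf (B R : Subalgebra ℂ K) : Prop :=
  B ≤ R ∧ ∀ f ∈ R, ∃ a ∈ B, ∃ s ∈ B, s ≠ 0 ∧ s⁻¹ ∈ R ∧ f = a / s

theorem algebraicIndependent_of_adjoin_eq_top
    [Algebra (MvPolynomial (Fin 2) ℂ) K] [IsScalarTower ℂ (MvPolynomial (Fin 2) ℂ) K]
    [IsFractionRing (MvPolynomial (Fin 2) ℂ) K] (a b : K)
    (h : IntermediateField.adjoin ℂ {a, b} = ⊤) :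
    AlgebraicIndependent ℂ ![a, b] := by
  have halgK : Algebra.IsAlgebraic (MvPolynomial (Fin 2) ℂ) K :=
    IsLocalization.isAlgebraic _ (nonZeroDivisors (MvPolynomial (Fin 2) ℂ))
  have hfaith : FaithfulSMul (MvPolynomial (Fin 2) ℂ) K :=
    (faithfulSMul_iff_algebraMap_injective _ _).mpr (IsFractionRing.injective _ _)
  have hB : IsTranscendenceBasis ℂ (algebraMap (MvPolynomial (Fin 2) ℂ) K ∘ X) :=
    (IsTranscendenceBasis.mvPolynomial (Fin 2) ℂ).algebraMap_comp
  have htr : Algebra.trdeg ℂ K = 2 := by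
    rw [← hB.cardinalMk_eq_trdeg]
    simp
  have hrange : Set.range ![a, b] = {a, b} := by
    rw [Matrix.range_cons, Matrix.range_cons, Matrix.range_empty, Set.union_empty]
    rfl
  have halg : Algebra.IsAlgebraic (Algebra.adjoin ℂ (Set.range ![a, b])) K := by
    rw [hrange]
    have hfr : IsFractionRing (Algebra.adjoin ℂ ({a, b} : Set K)) K := by
      refine .of_field _ _ fun x => ?_
      have hx : x ∈ IntermediateField.adjoin ℂ ({a, b} : Set K) := by rw [h]; trivial
      obtain ⟨x', hx', y, hy, eq⟩ := IntermediateField.mem_adjoin_iff_div.mp hx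
      exact ⟨⟨x', hx'⟩, ⟨y, hy⟩, eq⟩
    exact IsLocalization.isAlgebraic _ (nonZeroDivisors (Algebra.adjoin ℂ ({a, b} : Set K)))
  have hfin : IsTranscendenceBasis ℂ ![a, b] := by
    apply Algebra.IsAlgebraic.isTranscendenceBasis_of_le_trdeg_of_finite
    rw [htr]
    simp
  exact hfin.1

theorem formallySmooth_of_isLocOf (a b : K) (h : AlgebraicIndependent ℂ ![a, b])
    (R : Subalgebra ℂ K) (hR : IsLocOf (Algebra.adjoin ℂ {a, b}) R) :
    Algebra.FormallySmooth ℂ R := by
  have hrange : Set.range ![a, b] = {a, b} := by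
    rw [Matrix.range_cons, Matrix.range_cons, Matrix.range_empty, Set.union_empty]
    rfl
  have hsm : Algebra.FormallySmooth ℂ (Algebra.adjoin ℂ ({a, b} : Set K)) := by
    rw [← hrange]
    exact .of_equiv h.aevalEquiv
  obtain ⟨hle, hloc⟩ := hR
  generalize Algebra.adjoin ℂ ({a, b} : Set K) = B at hsm hle hloc
  let : Algebra B R := (Subalgebra.inclusion hle).toRingHom.toAlgebra
  have hmap : ∀ x : B, ((algebraMap B R x : R) : K) = (x : K) := fun x => rfl
  have : IsScalarTower ℂ B R := IsScalarTower.of_algebraMap_eq fun x => rfl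
  let M : Submonoid B :=
    { carrier := {s | (s : K) ≠ 0 ∧ (s : K)⁻¹ ∈ R}
      one_mem' := by
        refine ⟨?_, ?_⟩
        · simp
        · simp
      mul_mem' := by
        rintro s t ⟨hs0, hs⟩ ⟨ht0, ht⟩
        refine ⟨?_, ?_⟩
        · change (s : K) * (t : K) ≠ 0
          exact mul_ne_zero hs0 ht0
        · have := R.mul_mem hs ht
          simpa [mul_inv, mul_comm] using this }
  have : IsLocalization M R := by
    refine ⟨?_, ?_, ?_⟩
    · rintro ⟨s, hs0, hs⟩
      refine IsUnit.of_mul_eq_one ⟨(s : K)⁻¹, hs⟩ ?_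
      apply Subtype.ext
      change (s : K) * (s : K)⁻¹ = 1
      exact mul_inv_cancel₀ hs0
    · rintro ⟨f, hf⟩
      obtain ⟨x, hx, s, hs, hs0, hsR, hfx⟩ := hloc f hf
      refine ⟨⟨⟨x, hx⟩, ⟨⟨s, hs⟩, hs0, hsR⟩⟩, ?_⟩
      apply Subtype.ext
      change f * s = x
      rw [hfx]
      field_simp
    · intro x y hxy
      refine ⟨1, ?_⟩
      have : x = y := by
        apply Subtype.ext
        have h2 : ((algebraMap B R x : R) : K) = ((algebraMap B R y : R) : K) := by rw [hxy]
        exact h2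
      rw [this]
  have : Algebra.FormallySmooth B R := Algebra.FormallySmooth.of_isLocalization M
  exact .comp _ B _

end Pool.Agent.Helper449.ZM.J5
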