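import Mathlib

open MvPolynomial

namespace Pool.Agent.Helper449.ZM.J3

variable {K : Type} [Field K] [Algebra ℂ K]

/-- `R` is the localisation of its subalgebra `B` at the elements of `B` invertible in `R`. -/
def IsLocOf (B R : Subalgebra ℂ K) : Prop :=
  B ≤ R ∧ ∀ f ∈ R, ∃ a ∈ B, ∃ s ∈ B, s ≠ 0 ∧ s⁻¹ ∈ R ∧ f = a / s

private theorem j26018_C [Algebra (MvPolynomial (Fin 2) ℂ) K]
    [IsScalarTower ℂ (MvPolynomial (Fin 2) ℂ) K] (a : ℂ) :
    algebraMap (MvPolynomial (Fin 2) ℂ) K (C a) = algebraMap ℂ K a := by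
  rw [IsScalarTower.algebraMap_apply ℂ (MvPolynomial (Fin 2) ℂ) K, MvPolynomial.algebraMap_eq]

private theorem j26018_mem1 [Algebra (MvPolynomial (Fin 2) ℂ) K]
    [IsScalarTower ℂ (MvPolynomial (Fin 2) ℂ) K] (p : MvPolynomial (Fin 2) ℂ) :
    algebraMap _ K p ∈ Algebra.adjoin ℂ {algebraMap _ K (X 0 : MvPolynomial (Fin 2) ℂ),
      algebraMap _ K (X 1 : MvPolynomial (Fin 2) ℂ)} := by
  induction p using MvPolynomial.induction_on with
  | C a => rw [j26018_C]; exact Subalgebra.algebraMap_mem _ _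
  | add p q hp hq => rw [map_add]; exact add_mem hp hq
  | mul_X p i hp =>
    rw [map_mul]
    refine mul_mem hp (Algebra.subset_adjoin ?_)
    fin_cases i
    · exact Set.mem_insert _ _
    · exact Set.mem_insert_of_mem _ rfl

private theorem j26018_ex1 [Algebra (MvPolynomial (Fin 2) ℂ) K]
    [IsScalarTower ℂ (MvPolynomial (Fin 2) ℂ) K] (f : K)
    (hf : f ∈ Algebra.adjoin ℂ {algebraMap _ K (X 0 : MvPolynomial (Fin 2) ℂ),
      algebraMap _ K (X 1 : MvPolynomial (Fin 2) ℂ)}) :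
    ∃ p : MvPolynomial (Fin 2) ℂ, algebraMap _ K p = f := by
  induction hf using Algebra.adjoin_induction with
  | mem z hz =>
    rcases hz with rfl | rfl
    · exact ⟨X 0, rfl⟩
    · exact ⟨X 1, rfl⟩
  | algebraMap r => exact ⟨C r, j26018_C r⟩
  | add a b _ _ ha hb =>
    obtain ⟨p, rfl⟩ := ha
    obtain ⟨q, rfl⟩ := hb
    exact ⟨p + q, map_add _ _ _⟩
  | mul a b _ _ ha hb =>
    obtain ⟨p, rfl⟩ := ha
    obtain ⟨q, rfl⟩ := hb
    exact ⟨p * q, map_mul _ _ _⟩

private theorem j26018_two {i j : Fin 2} (hij : i ≠ j) :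
    (i = 0 ∧ j = 1) ∨ (i = 1 ∧ j = 0) := by
  fin_cases i <;> fin_cases j <;> simp_all

private theorem j26018_mon (i j : Fin 2) (hij : i ≠ j) (d : Fin 2 →₀ ℕ) (c : ℂ) :
    (monomial d c : MvPolynomial (Fin 2) ℂ) = C c * X i ^ d i * X j ^ d j := by
  rw [MvPolynomial.monomial_eq, Finsupp.prod_fintype _ _ (fun k => pow_zero _),
    Fin.prod_univ_two]
  rcases j26018_two hij with ⟨rfl, rfl⟩ | ⟨rfl, rfl⟩ <;> ring

private theorem j26018_deg (i j : Fin 2) (hij : i ≠ j) (r : MvPolynomial (Fin 2) ℂ)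
    (d : Fin 2 →₀ ℕ) (hd : d ∈ r.support) : d i + d j ≤ r.totalDegree := by
  have h := MvPolynomial.le_totalDegree hd
  rw [Finsupp.sum_fintype _ _ (fun k => rfl), Fin.sum_univ_two] at h
  rcases j26018_two hij with ⟨rfl, rfl⟩ | ⟨rfl, rfl⟩
  · exact h
  · rw [add_comm]; exact h

private theorem j26018_mem2 [Algebra (MvPolynomial (Fin 2) ℂ) K]
    [IsScalarTower ℂ (MvPolynomial (Fin 2) ℂ) K] (i j : Fin 2) (hij : i ≠ j)
    (hx : algebraMap _ K (X i : MvPolynomial (Fin 2) ℂ) ≠ 0)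
    (r : MvPolynomial (Fin 2) ℂ) (m : ℕ) (hm : r.totalDegree ≤ m) :
    algebraMap _ K r / algebraMap _ K (X i : MvPolynomial (Fin 2) ℂ) ^ m ∈
      Algebra.adjoin ℂ {(algebraMap _ K (X i : MvPolynomial (Fin 2) ℂ))⁻¹,
        algebraMap _ K (X j : MvPolynomial (Fin 2) ℂ) /
          algebraMap _ K (X i : MvPolynomial (Fin 2) ℂ)} := by
  set x := algebraMap _ K (X i : MvPolynomial (Fin 2) ℂ) with hxd
  set y := algebraMap _ K (X j : MvPolynomial (Fin 2) ℂ) with hyd
  have hsum : algebraMap _ K r / x ^ m =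
      ∑ d ∈ r.support, algebraMap _ K (monomial d (coeff d r) : MvPolynomial (Fin 2) ℂ) / x ^ m := by
    conv_lhs => rw [r.as_sum]
    rw [map_sum, Finset.sum_div]
  rw [hsum]
  refine sum_mem fun d hd => ?_
  have hdeg : d i + d j ≤ m := (j26018_deg i j hij r d hd).trans hm
  have hterm : algebraMap _ K (monomial d (coeff d r) : MvPolynomial (Fin 2) ℂ) / x ^ m =
      algebraMap ℂ K (coeff d r) * (x⁻¹) ^ (m - (d i + d j)) * (y / x) ^ d j := by
    rw [j26018_mon i j hij, map_mul, map_mul, map_pow, map_pow, j26018_C, ← hxd, ← hyd]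
    obtain ⟨e, rfl⟩ := Nat.exists_eq_add_of_le hdeg
    rw [Nat.add_sub_cancel_left, div_pow, inv_pow, pow_add, pow_add]
    field_simp
  rw [hterm]
  refine mul_mem (mul_mem (Subalgebra.algebraMap_mem _ _) (pow_mem ?_ _)) (pow_mem ?_ _)
  · exact Algebra.subset_adjoin (Set.mem_insert _ _)
  · exact Algebra.subset_adjoin (Set.mem_insert_of_mem _ rfl)

private theorem j26018_ex2 [Algebra (MvPolynomial (Fin 2) ℂ) K]
    [IsScalarTower ℂ (MvPolynomial (Fin 2) ℂ) K] (i j : Fin 2)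
    (hx : algebraMap _ K (X i : MvPolynomial (Fin 2) ℂ) ≠ 0) (f : K)
    (hf : f ∈ Algebra.adjoin ℂ {(algebraMap _ K (X i : MvPolynomial (Fin 2) ℂ))⁻¹,
        algebraMap _ K (X j : MvPolynomial (Fin 2) ℂ) /
          algebraMap _ K (X i : MvPolynomial (Fin 2) ℂ)}) :
    ∃ (m : ℕ) (r : MvPolynomial (Fin 2) ℂ), r.totalDegree ≤ m ∧
      f * algebraMap _ K (X i : MvPolynomial (Fin 2) ℂ) ^ m = algebraMap _ K r := by
  induction hf using Algebra.adjoin_induction with
  | mem z hz =>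
    rcases hz with rfl | rfl
    · exact ⟨1, 1, by rw [totalDegree_one]; exact Nat.zero_le _, by
        rw [pow_one, map_one, inv_mul_cancel₀ hx]⟩
    · exact ⟨1, X j, by rw [totalDegree_X], by rw [pow_one, div_mul_cancel₀ _ hx]⟩
  | algebraMap r =>
    exact ⟨0, C r, by rw [totalDegree_C], by rw [pow_zero, mul_one, j26018_C]⟩
  | add a b _ _ ha hb =>
    obtain ⟨m1, r1, h1, e1⟩ := ha
    obtain ⟨m2, r2, h2, e2⟩ := hb
    refine ⟨m1 + m2, r1 * X i ^ m2 + r2 * X i ^ m1, ?_, ?_⟩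
    · refine (totalDegree_add _ _).trans (max_le ?_ ?_)
      · refine (totalDegree_mul _ _).trans ?_
        rw [totalDegree_X_pow]; omega
      · refine (totalDegree_mul _ _).trans ?_
        rw [totalDegree_X_pow]; omega
    · rw [map_add, map_mul, map_mul, map_pow, map_pow, ← e1, ← e2]; ring
  | mul a b _ _ ha hb =>
    obtain ⟨m1, r1, h1, e1⟩ := ha
    obtain ⟨m2, r2, h2, e2⟩ := hb
    refine ⟨m1 + m2, r1 * r2, ?_, ?_⟩
    · exact (totalDegree_mul _ _).trans (add_le_add h1 h2)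
    · rw [map_mul, ← e1, ← e2]; ring

private theorem j26018_chart2 [Algebra (MvPolynomial (Fin 2) ℂ) K]
    [IsScalarTower ℂ (MvPolynomial (Fin 2) ℂ) K]
    [IsFractionRing (MvPolynomial (Fin 2) ℂ) K] (N D : MvPolynomial (Fin 2) ℂ)
    (hN : N ≠ 0) (hD : D ≠ 0) (hrel : IsRelPrime N D)
    (hn : 1 ≤ max N.totalDegree D.totalDegree) (i j : Fin 2) (hij : i ≠ j) (R : Subalgebra ℂ K)
    (hR : IsLocOf (Algebra.adjoin ℂ {(algebraMap _ K (X i : MvPolynomial (Fin 2) ℂ))⁻¹,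
        algebraMap _ K (X j : MvPolynomial (Fin 2) ℂ) /
          algebraMap _ K (X i : MvPolynomial (Fin 2) ℂ)}) R)
    (hg : algebraMap _ K N / algebraMap _ K D ∈ R) :
    (algebraMap _ K D)⁻¹ ∈ R ∧
        algebraMap _ K (X i : MvPolynomial (Fin 2) ℂ) / algebraMap _ K D ∈ R ∧
        algebraMap _ K (X j : MvPolynomial (Fin 2) ℂ) / algebraMap _ K D ∈ R := by
  have hinj : Function.Injective (algebraMap (MvPolynomial (Fin 2) ℂ) K) :=
    IsFractionRing.injective _ _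
  have hne : ∀ p : MvPolynomial (Fin 2) ℂ, p ≠ 0 → algebraMap _ K p ≠ 0 := fun p hp h =>
    hp (hinj (h.trans (map_zero _).symm))
  have hx : algebraMap _ K (X i : MvPolynomial (Fin 2) ℂ) ≠ 0 := hne _ (X_ne_zero i)
  obtain ⟨hBR, hR2⟩ := hR
  obtain ⟨a, ha, s, hs, hs0, hsR, hgs⟩ := hR2 _ hg
  obtain ⟨m1, r0, hr1, er1⟩ := j26018_ex2 i j hx a ha
  obtain ⟨m2, s0, hr2, er2⟩ := j26018_ex2 i j hx s hs
  have hDK := hne D hD
  -- common denominators
  have hs0' : s0 ≠ 0 := by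
    intro h
    rw [h, map_zero] at er2
    exact (mul_ne_zero hs0 (pow_ne_zero _ hx)) er2
  have heq : N * (s0 * X i ^ m1) = (r0 * X i ^ m2) * D := by
    apply hinj
    rw [map_mul, map_mul, map_mul, map_mul, map_pow, map_pow, ← er1, ← er2]
    rw [div_eq_div_iff hDK hs0] at hgs
    linear_combination (algebraMap _ K (X i : MvPolynomial (Fin 2) ℂ)) ^ m2 *
      (algebraMap _ K (X i : MvPolynomial (Fin 2) ℂ)) ^ m1 * hgs
  have hdvd : D ∣ s0 * X i ^ m1 := by
    have h1 : D ∣ N * (s0 * X i ^ m1) := ⟨r0 * X i ^ m2, by rw [heq, mul_comm]⟩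
    exact hrel.symm.dvd_of_dvd_mul_left h1
  obtain ⟨c, hc⟩ := hdvd
  have hc0 : c ≠ 0 := by
    intro h
    rw [h, mul_zero] at hc
    exact (mul_ne_zero hs0' (pow_ne_zero _ (X_ne_zero i))) hc
  have hNc : r0 * X i ^ m2 = N * c := by
    have h1 : (r0 * X i ^ m2) * D = (N * c) * D := by rw [← heq, hc]; ring
    exact mul_right_cancel₀ hD h1
  have hd1 : D.totalDegree + c.totalDegree ≤ m1 + m2 := by
    rw [← totalDegree_mul_of_isDomain hD hc0, ← hc]
    refine (totalDegree_mul _ _).trans ?_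
    rw [totalDegree_X_pow]; omega
  have hd2 : N.totalDegree + c.totalDegree ≤ m1 + m2 := by
    rw [← totalDegree_mul_of_isDomain hN hc0, ← hNc]
    refine (totalDegree_mul _ _).trans ?_
    rw [totalDegree_X_pow]; omega
  obtain ⟨n, hnd⟩ : ∃ n, n = max N.totalDegree D.totalDegree := ⟨_, rfl⟩
  rw [← hnd] at hn
  have hnc : c.totalDegree + n ≤ m1 + m2 := by
    rcases max_choice N.totalDegree D.totalDegree with h | h <;> rw [h] at hnd <;> omega
  obtain ⟨q, hq⟩ := Nat.exists_eq_add_of_le hnc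
  have hxR : (algebraMap _ K (X i : MvPolynomial (Fin 2) ℂ))⁻¹ ∈ R :=
    hBR (Algebra.subset_adjoin (Set.mem_insert _ _))
  have hyR : algebraMap _ K (X j : MvPolynomial (Fin 2) ℂ) /
      algebraMap _ K (X i : MvPolynomial (Fin 2) ℂ) ∈ R :=
    hBR (Algebra.subset_adjoin (Set.mem_insert_of_mem _ rfl))
  have hcR : algebraMap _ K c / algebraMap _ K (X i : MvPolynomial (Fin 2) ℂ) ^
      (c.totalDegree + q) ∈ R := hBR (j26018_mem2 i j hij hx c _ (Nat.le_add_right _ _))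
  have hDc : algebraMap _ K D * algebraMap _ K c =
      s * algebraMap _ K (X i : MvPolynomial (Fin 2) ℂ) ^ (m1 + m2) := by
    rw [← map_mul, ← hc, map_mul, map_pow, ← er2]; ring
  have hcK := hne c hc0
  have hkey : algebraMap _ K (X i : MvPolynomial (Fin 2) ℂ) ^ n / algebraMap _ K D ∈ R := by
    have h1 : algebraMap _ K (X i : MvPolynomial (Fin 2) ℂ) ^ n / algebraMap _ K D =
        s⁻¹ * (algebraMap _ K c / algebraMap _ K (X i : MvPolynomial (Fin 2) ℂ) ^
      (c.totalDegree + q)) := by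
      rw [div_eq_iff hDK]
      have h2 : m1 + m2 = n + (c.totalDegree + q) := by omega
      rw [h2, pow_add] at hDc
      have hxq := pow_ne_zero (c.totalDegree + q) hx
      calc algebraMap _ K (X i : MvPolynomial (Fin 2) ℂ) ^ n
          = s⁻¹ * (s * (algebraMap _ K (X i : MvPolynomial (Fin 2) ℂ) ^ n *
              algebraMap _ K (X i : MvPolynomial (Fin 2) ℂ) ^ (c.totalDegree + q))) /
              algebraMap _ K (X i : MvPolynomial (Fin 2) ℂ) ^ (c.totalDegree + q) := by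
            field_simp
        _ = s⁻¹ * (algebraMap _ K D * algebraMap _ K c) /
              algebraMap _ K (X i : MvPolynomial (Fin 2) ℂ) ^ (c.totalDegree + q) := by rw [hDc]
        _ = _ := by ring
    rw [h1]
    exact mul_mem hsR hcR
  have hxD : algebraMap _ K (X i : MvPolynomial (Fin 2) ℂ) / algebraMap _ K D ∈ R := by
    obtain ⟨k, rfl⟩ : ∃ k, n = k + 1 := ⟨n - 1, by omega⟩
    have h1 : algebraMap _ K (X i : MvPolynomial (Fin 2) ℂ) / algebraMap _ K D =
        ((algebraMap _ K (X i : MvPolynomial (Fin 2) ℂ))⁻¹) ^ k *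
          (algebraMap _ K (X i : MvPolynomial (Fin 2) ℂ) ^ (k + 1) / algebraMap _ K D) := by
      rw [inv_pow, pow_succ]
      have hxk := pow_ne_zero k hx
      field_simp
    rw [h1]
    exact mul_mem (pow_mem hxR _) hkey
  refine ⟨?_, hxD, ?_⟩
  · have h1 : (algebraMap _ K D)⁻¹ = (algebraMap _ K (X i : MvPolynomial (Fin 2) ℂ))⁻¹ *
        (algebraMap _ K (X i : MvPolynomial (Fin 2) ℂ) / algebraMap _ K D) := by
      field_simp
    rw [h1]
    exact mul_mem hxR hxD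
  · have h1 : algebraMap _ K (X j : MvPolynomial (Fin 2) ℂ) / algebraMap _ K D =
        (algebraMap _ K (X j : MvPolynomial (Fin 2) ℂ) /
          algebraMap _ K (X i : MvPolynomial (Fin 2) ℂ)) *
        (algebraMap _ K (X i : MvPolynomial (Fin 2) ℂ) / algebraMap _ K D) := by
      field_simp
    rw [h1]
    exact mul_mem hyR hxD

private theorem j26018_chart1 [Algebra (MvPolynomial (Fin 2) ℂ) K]
    [IsScalarTower ℂ (MvPolynomial (Fin 2) ℂ) K]
    [IsFractionRing (MvPolynomial (Fin 2) ℂ) K] (N D : MvPolynomial (Fin 2) ℂ)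
    (hD : D ≠ 0) (hrel : IsRelPrime N D) (R : Subalgebra ℂ K)
    (hR : IsLocOf (Algebra.adjoin ℂ {algebraMap _ K (X 0 : MvPolynomial (Fin 2) ℂ),
      algebraMap _ K (X 1 : MvPolynomial (Fin 2) ℂ)}) R)
    (hg : algebraMap _ K N / algebraMap _ K D ∈ R) :
    (algebraMap _ K D)⁻¹ ∈ R ∧
        algebraMap _ K (X 0 : MvPolynomial (Fin 2) ℂ) / algebraMap _ K D ∈ R ∧
        algebraMap _ K (X 1 : MvPolynomial (Fin 2) ℂ) / algebraMap _ K D ∈ R := by
  have hinj : Function.Injective (algebraMap (MvPolynomial (Fin 2) ℂ) K) :=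
    IsFractionRing.injective _ _
  have hDK : algebraMap _ K D ≠ 0 := fun h => hD (hinj (h.trans (map_zero _).symm))
  obtain ⟨hBR, hR2⟩ := hR
  obtain ⟨a, ha, s, hs, hs0, hsR, hgs⟩ := hR2 _ hg
  obtain ⟨r0, rfl⟩ := j26018_ex1 a ha
  obtain ⟨s0, rfl⟩ := j26018_ex1 s hs
  have heq : N * s0 = r0 * D := by
    apply hinj
    rw [map_mul, map_mul]
    rwa [div_eq_div_iff hDK hs0] at hgs
  have hdvd : D ∣ s0 := by
    have h1 : D ∣ N * s0 := ⟨r0, by rw [heq, mul_comm]⟩
    exact hrel.symm.dvd_of_dvd_mul_left h1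
  obtain ⟨c, rfl⟩ := hdvd
  have hDR : (algebraMap _ K D)⁻¹ ∈ R := by
    rw [map_mul] at hs0 hsR
    have hcK : algebraMap _ K c ≠ 0 := right_ne_zero_of_mul hs0
    have h1 : (algebraMap _ K D)⁻¹ = algebraMap _ K c * (algebraMap _ K D * algebraMap _ K c)⁻¹ := by
      field_simp
    rw [h1]
    exact mul_mem (hBR (j26018_mem1 c)) hsR
  refine ⟨hDR, ?_, ?_⟩
  · rw [div_eq_mul_inv]; exact mul_mem (hBR (j26018_mem1 _)) hDR
  · rw [div_eq_mul_inv]; exact mul_mem (hBR (j26018_mem1 _)) hDR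

/-- A nonconstant rational function `g` on the projective plane has a denominator `D` such that
`1/D`, `x/D`, `y/D` are regular wherever `g` is. -/
theorem lemma_inf [Algebra (MvPolynomial (Fin 2) ℂ) K] [IsScalarTower ℂ (MvPolynomial (Fin 2) ℂ) K]
    [IsFractionRing (MvPolynomial (Fin 2) ℂ) K] (g : K) (hg : ∀ c : ℂ, g ≠ algebraMap ℂ K c) :
    ∃ D : MvPolynomial (Fin 2) ℂ, D ≠ 0 ∧ ∀ R : Subalgebra ℂ K,
      (IsLocOf (Algebra.adjoin ℂ {algebraMap _ K (X 0 : MvPolynomial (Fin 2) ℂ),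
          algebraMap _ K (X 1 : MvPolynomial (Fin 2) ℂ)}) R ∨
       IsLocOf (Algebra.adjoin ℂ {(algebraMap _ K (X 0 : MvPolynomial (Fin 2) ℂ))⁻¹,
          algebraMap _ K (X 1 : MvPolynomial (Fin 2) ℂ) / algebraMap _ K (X 0 : MvPolynomial (Fin 2) ℂ)}) R ∨
       IsLocOf (Algebra.adjoin ℂ {(algebraMap _ K (X 1 : MvPolynomial (Fin 2) ℂ))⁻¹,
          algebraMap _ K (X 0 : MvPolynomial (Fin 2) ℂ) / algebraMap _ K (X 1 : MvPolynomial (Fin 2) ℂ)}) R) →
      g ∈ R →
        (algebraMap _ K D)⁻¹ ∈ R ∧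
        algebraMap _ K (X 0 : MvPolynomial (Fin 2) ℂ) / algebraMap _ K D ∈ R ∧
        algebraMap _ K (X 1 : MvPolynomial (Fin 2) ℂ) / algebraMap _ K D ∈ R := by
  have hinj : Function.Injective (algebraMap (MvPolynomial (Fin 2) ℂ) K) :=
    IsFractionRing.injective _ _
  obtain ⟨N, ⟨D, hDm⟩, hrel, hmk⟩ :=
    IsFractionRing.exists_reduced_fraction (A := MvPolynomial (Fin 2) ℂ) (K := K) g
  have hD : D ≠ 0 := nonZeroDivisors.ne_zero hDm
  have hgf : g = algebraMap _ K N / algebraMap _ K D := by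
    rw [← hmk, IsFractionRing.mk'_eq_div]
  have hN : N ≠ 0 := by
    intro h
    apply hg 0
    rw [hgf, h, map_zero, map_zero, zero_div]
  have hn : 1 ≤ max N.totalDegree D.totalDegree := by
    by_contra hcon
    have h0 : max N.totalDegree D.totalDegree = 0 := by omega
    have hN0 : N.totalDegree = 0 := by
      have := le_max_left N.totalDegree D.totalDegree; omega
    have hD0 : D.totalDegree = 0 := by
      have := le_max_right N.totalDegree D.totalDegree; omega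
    rw [totalDegree_eq_zero_iff_eq_C] at hN0 hD0
    apply hg (coeff 0 N / coeff 0 D)
    rw [hgf, hN0, hD0, j26018_C, j26018_C, map_div₀, coeff_C, coeff_C, if_pos rfl, if_pos rfl]
  refine ⟨D, hD, fun R hR hgR => ?_⟩
  rw [hgf] at hgR
  rcases hR with hR | hR | hR
  · exact j26018_chart1 N D hD hrel R hR hgR
  · exact j26018_chart2 N D hN hD hrel hn 0 1 (by decide) R hR hgR
  · obtain ⟨h1, h2, h3⟩ := j26018_chart2 N D hN hD hrel hn 1 0 (by decide) R hR hgR
    exact ⟨h1, h3, h2⟩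

end Pool.Agent.Helper449.ZM.J3
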