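import Mathlib

namespace Pool.Agent.Helper449.ZM.J4

/-- If `f` lies in every valuation ring of `K/ℂ` contained in the valuation ring `V`, then `f` is
constant modulo the maximal ideal of `V`. -/
theorem exists_const (K : Type) [Field K] [Algebra ℂ K] (V : ValuationSubring K)
    (hV : ∀ c : ℂ, algebraMap ℂ K c ∈ V) (f : K)
    (hf : ∀ W : ValuationSubring K, (∀ c : ℂ, algebraMap ℂ K c ∈ W) → W ≤ V → f ∈ W) :
    ∃ c : ℂ, f - algebraMap ℂ K c ∈ V ∧ (f = algebraMap ℂ K c ∨ (f - algebraMap ℂ K c)⁻¹ ∉ V) := by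
  classical
  set v := V.valuation with hv
  have v1 : ∀ x : K, v x ≤ 1 ↔ x ∈ V := fun x => V.valuation_le_one_iff x
  have hC : ∀ c : ℂ, v (algebraMap ℂ K c) ≤ 1 := fun c => (v1 _).2 (hV c)
  let S : Set K := Set.range (algebraMap ℂ K) ∪ {x | v x < 1}
  have hfV : f ∈ V := hf V hV le_rfl
  have hfv : v f ≤ 1 := (v1 f).2 hfV
  have hint : f ∈ (integralClosure (Subring.closure S) K).toSubring := by
    rw [← iInf_valuationSubring_superset]
    simp only [Subring.mem_iInf]
    rintro ⟨W, hW⟩
    show f ∈ W
    by_cases hle : W ≤ V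
    · exact hf W (fun c => hW (Or.inl ⟨c, rfl⟩)) hle
    · obtain ⟨w, hw, hwV⟩ := SetLike.not_le_iff_exists.1 hle
      have hw1 : 1 < v w := by
        by_contra hcon
        exact hwV ((v1 w).1 (not_lt.1 hcon))
      have hw0 : w ≠ 0 := by
        rintro rfl
        exact hwV V.zero_mem
      have hlt : v (f * w⁻¹) < 1 := by
        rw [map_mul, map_inv₀]
        have h2 : (v w)⁻¹ < 1 := inv_lt_one_of_one_lt₀ hw1
        exact lt_of_le_of_lt (mul_le_of_le_one_left' hfv) h2
      have h3 : f * w⁻¹ ∈ W := hW (Or.inr hlt)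
      have h4 : f = (f * w⁻¹) * w := by field_simp
      rw [h4]
      exact W.mul_mem _ _ h3 hw
  have hR : ∀ r ∈ Subring.closure S, ∃ c : ℂ, v (r - algebraMap ℂ K c) < 1 := by
    intro r hr
    induction hr using Subring.closure_induction with
    | mem x hx =>
      rcases hx with ⟨c, rfl⟩ | hx
      · exact ⟨c, by simp⟩
      · exact ⟨0, by simpa using hx⟩
    | zero => exact ⟨0, by simp⟩
    | one => exact ⟨1, by simp⟩
    | add x y _ _ hx hy =>
      obtain ⟨a, ha⟩ := hx
      obtain ⟨b, hb⟩ := hy
      refine ⟨a + b, ?_⟩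
      have : x + y - algebraMap ℂ K (a + b) = (x - algebraMap ℂ K a) + (y - algebraMap ℂ K b) := by
        rw [map_add]; ring
      rw [this]
      exact v.map_add_lt ha hb
    | neg x _ hx =>
      obtain ⟨a, ha⟩ := hx
      refine ⟨-a, ?_⟩
      have : -x - algebraMap ℂ K (-a) = -(x - algebraMap ℂ K a) := by
        rw [map_neg]; ring
      rw [this, Valuation.map_neg]
      exact ha
    | mul x y _ _ hx hy =>
      obtain ⟨a, ha⟩ := hx
      obtain ⟨b, hb⟩ := hy
      refine ⟨a * b, ?_⟩
      have e : x * y - algebraMap ℂ K (a * b)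
          = (x - algebraMap ℂ K a) * y + algebraMap ℂ K a * (y - algebraMap ℂ K b) := by
        rw [map_mul]; ring
      have hy1 : v y ≤ 1 := by
        have : y = (y - algebraMap ℂ K b) + algebraMap ℂ K b := by ring
        rw [this]
        exact v.map_add_le hb.le (hC b)
      rw [e]
      apply v.map_add_lt
      · rw [map_mul]
        exact lt_of_le_of_lt (mul_le_of_le_one_right' hy1) ha
      · rw [map_mul]
        exact lt_of_le_of_lt (mul_le_of_le_one_left' (hC a)) hb
  obtain ⟨p, pm, hp⟩ : IsIntegral (Subring.closure S) f := hint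
  have hc : ∀ i : ℕ, ∃ c : ℂ, v ((p.coeff i : K) - algebraMap ℂ K c) < 1 := fun i =>
    hR _ (p.coeff i).2
  choose c hc using hc
  set n := p.natDegree with hn
  let g : Polynomial ℂ := ∑ i ∈ Finset.range n, Polynomial.C (c i) * Polynomial.X ^ i
  let q : Polynomial ℂ := Polynomial.X ^ n + g
  have hgd : g.degree < n := by
    refine Polynomial.mem_degreeLT.1 (Submodule.sum_mem _ fun i hi => Polynomial.mem_degreeLT.2 ?_)
    exact lt_of_le_of_lt (Polynomial.degree_C_mul_X_pow_le i (c i))
      (by exact_mod_cast Finset.mem_range.1 hi)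
  have hqm : q.Monic := Polynomial.monic_X_pow_add hgd
  have hsplit := (IsAlgClosed.splits q).eq_prod_roots_of_monic hqm
  have hval : v (Polynomial.aeval f q) < 1 := by
    have e1 : Polynomial.aeval f q = f ^ n + ∑ i ∈ Finset.range n, algebraMap ℂ K (c i) * f ^ i := by
      simp [q, g, map_sum]
    have e2 : f ^ n + ∑ i ∈ Finset.range n, (p.coeff i : K) * f ^ i = 0 := by
      rw [Polynomial.eval₂_eq_sum_range, Finset.sum_range_succ] at hp
      have h1 : p.coeff p.natDegree = 1 := pm
      rw [h1, map_one, one_mul] at hp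
      rw [add_comm]
      exact hp
    have e3 : Polynomial.aeval f q
        = -∑ i ∈ Finset.range n, ((p.coeff i : K) - algebraMap ℂ K (c i)) * f ^ i := by
      have e4 : ∑ i ∈ Finset.range n, ((p.coeff i : K) - algebraMap ℂ K (c i)) * f ^ i
          = ∑ i ∈ Finset.range n, (p.coeff i : K) * f ^ i
            - ∑ i ∈ Finset.range n, algebraMap ℂ K (c i) * f ^ i := by
        rw [← Finset.sum_sub_distrib]
        exact Finset.sum_congr rfl fun i _ => by ring
      rw [e1, e4]
      linear_combination e2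
    rw [e3, Valuation.map_neg]
    apply v.map_sum_lt one_ne_zero
    intro i _
    rw [map_mul, map_pow]
    exact lt_of_le_of_lt (mul_le_of_le_one_right' (pow_le_one' hfv i)) (hc i)
  have hex : ∃ a : ℂ, v (f - algebraMap ℂ K a) < 1 := by
    by_contra hcon
    push Not at hcon
    have h1 : Polynomial.aeval f q = (q.roots.map fun a => f - algebraMap ℂ K a).prod := by
      conv_lhs => rw [hsplit]
      rw [map_multiset_prod, Multiset.map_map]
      congr 1
      apply Multiset.map_congr rfl
      intro a _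
      simp
    have h2 : ∀ m : Multiset ℂ, 1 ≤ v ((m.map fun a => f - algebraMap ℂ K a).prod) := by
      intro m
      induction m using Multiset.induction with
      | empty => simp
      | cons a m ih =>
        rw [Multiset.map_cons, Multiset.prod_cons, map_mul]
        exact one_le_mul (hcon a) ih
    rw [h1] at hval
    exact absurd hval (not_lt.2 (h2 _))
  obtain ⟨a, ha⟩ := hex
  refine ⟨a, (v1 _).1 ha.le, ?_⟩
  by_cases h0 : f = algebraMap ℂ K a
  · exact Or.inl h0
  · right
    intro hmem
    have h1 := (v1 _).2 hmem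
    rw [map_inv₀] at h1
    have h2 : f - algebraMap ℂ K a ≠ 0 := sub_ne_zero.2 h0
    have h3 : v (f - algebraMap ℂ K a) ≠ 0 := (Valuation.ne_zero_iff v).2 h2
    have h4 : 1 < (v (f - algebraMap ℂ K a))⁻¹ := (one_lt_inv₀ (zero_lt_iff.2 h3)).2 ha
    exact absurd h1 (not_le.2 h4)

end Pool.Agent.Helper449.ZM.J4
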