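import Mathlib

open MvPolynomial

namespace Pool.Agent.Helper449.ZM.J7

variable (K : Type) [Field K] [Algebra (MvPolynomial (Fin 2) ℂ) K]
    [Algebra ℂ K] [IsScalarTower ℂ (MvPolynomial (Fin 2) ℂ) K]
    [IsFractionRing (MvPolynomial (Fin 2) ℂ) K]

theorem phi_inj : Function.Injective (MvPolynomial.aeval (R := ℂ)
    ![(algebraMap _ K (X 0 : MvPolynomial (Fin 2) ℂ)) ^ 2 /
        algebraMap _ K (X 1 : MvPolynomial (Fin 2) ℂ),
      algebraMap _ K (X 0 : MvPolynomial (Fin 2) ℂ) /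
        (algebraMap _ K (X 1 : MvPolynomial (Fin 2) ℂ)) ^ 2] :
      MvPolynomial (Fin 2) ℂ →ₐ[ℂ] K) := by
  have hinj : Function.Injective (algebraMap (MvPolynomial (Fin 2) ℂ) K) :=
    IsFractionRing.injective _ _
  set x : K := algebraMap _ K (X 0 : MvPolynomial (Fin 2) ℂ) with hx
  set y : K := algebraMap _ K (X 1 : MvPolynomial (Fin 2) ℂ) with hy
  have hy0 : y ≠ 0 := by
    rw [hy, Ne, map_eq_zero_iff _ hinj]
    exact X_ne_zero 1
  rw [injective_iff_map_eq_zero]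
  intro f hf
  set N : ℕ := f.support.sup (fun m => m 0 + 2 * m 1) with hN
  have hNle : ∀ m ∈ f.support, m 0 + 2 * m 1 ≤ N := fun m hm =>
    Finset.le_sup (f := fun m : Fin 2 →₀ ℕ => m 0 + 2 * m 1) hm
  set e : (Fin 2 →₀ ℕ) → (Fin 2 →₀ ℕ) := fun m =>
    Finsupp.single 0 (2 * m 0 + m 1) + Finsupp.single 1 (N - (m 0 + 2 * m 1)) with he
  have he0 : ∀ m, e m 0 = 2 * m 0 + m 1 := by
    intro m; rw [he]; simp
  have he1 : ∀ m, e m 1 = N - (m 0 + 2 * m 1) := by
    intro m; rw [he]; simp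
  set g : MvPolynomial (Fin 2) ℂ := ∑ m ∈ f.support, monomial (e m) (coeff m f) with hg
  have hgK : algebraMap (MvPolynomial (Fin 2) ℂ) K g =
      y ^ N * MvPolynomial.aeval (R := ℂ) ![x ^ 2 / y, x / y ^ 2] f := by
    rw [hg, map_sum, MvPolynomial.aeval_def, MvPolynomial.eval₂_eq', Finset.mul_sum]
    refine Finset.sum_congr rfl fun m hm => ?_
    rw [MvPolynomial.monomial_eq, map_mul, Finsupp.prod_fintype _ _ (by simp), map_prod,
      Fin.prod_univ_two, Fin.prod_univ_two, he0, he1, map_pow, map_pow, ← hx, ← hy,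
      ← MvPolynomial.algebraMap_eq, ← IsScalarTower.algebraMap_apply]
    simp only [Matrix.cons_val_zero, Matrix.cons_val_one]
    obtain ⟨k, hk⟩ := Nat.exists_eq_add_of_le (hNle m hm)
    rw [hk, Nat.add_sub_cancel_left, div_pow, div_pow, ← pow_mul, ← pow_mul, pow_add, pow_add,
      pow_add]
    have e1 : y ^ (m 0) ≠ 0 := pow_ne_zero _ hy0
    have e2 : y ^ (2 * m 1) ≠ 0 := pow_ne_zero _ hy0
    generalize y ^ (m 0) = A at *
    generalize y ^ (2 * m 1) = B at *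
    field_simp
  rw [hf, mul_zero, map_eq_zero_iff _ hinj] at hgK
  ext m
  rw [coeff_zero]
  by_contra hm
  have hm' : m ∈ f.support := mem_support_iff.2 hm
  apply hm
  have h1 : coeff (e m) g = coeff m f := by
    rw [hg, coeff_sum, Finset.sum_eq_single m]
    · rw [coeff_monomial, if_pos rfl]
    · intro m' hm'' hne
      rw [coeff_monomial, if_neg]
      intro h
      apply hne
      have h2 : e m' 0 = e m 0 := by rw [h]
      have h3 : e m' 1 = e m 1 := by rw [h]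
      rw [he0, he0] at h2
      rw [he1, he1] at h3
      have h4 := hNle m hm'
      have h5 := hNle m' hm''
      ext i
      fin_cases i
      · show m' 0 = m 0
        omega
      · show m' 1 = m 1
        omega
    · intro h; exact absurd hm' h
  rw [← h1, hgK, coeff_zero]

/-- the field endomorphism `x ↦ x²/y`, `y ↦ x/y²` of `K = ℂ(x,y)` -/
theorem exists_phi : ∃ φ : K →ₐ[ℂ] K,
    φ (algebraMap _ K (X 0 : MvPolynomial (Fin 2) ℂ)) =
      (algebraMap _ K (X 0 : MvPolynomial (Fin 2) ℂ)) ^ 2 / algebraMap _ K (X 1 : MvPolynomial (Fin 2) ℂ) ∧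
    φ (algebraMap _ K (X 1 : MvPolynomial (Fin 2) ℂ)) =
      algebraMap _ K (X 0 : MvPolynomial (Fin 2) ℂ) / (algebraMap _ K (X 1 : MvPolynomial (Fin 2) ℂ)) ^ 2 := by
  refine ⟨IsFractionRing.liftAlgHom (phi_inj K), ?_, ?_⟩
  · rw [IsFractionRing.liftAlgHom_apply, IsFractionRing.lift_algebraMap]
    simp
  · rw [IsFractionRing.liftAlgHom_apply, IsFractionRing.lift_algebraMap]
    simp

/-- the automorphism `x ↦ ζ x`, `y ↦ ζ² y`, on polynomials and on `K` -/
theorem exists_sigma (ζ : ℂ) (hζ : ζ ≠ 0) : ∃ σ : K →ₐ[ℂ] K,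
    ∀ a : MvPolynomial (Fin 2) ℂ, σ (algebraMap _ K a) =
      algebraMap (MvPolynomial (Fin 2) ℂ) K
        (MvPolynomial.aeval ![C ζ * X 0, C (ζ ^ 2) * X 1] a) := by
  have hinj : Function.Injective (algebraMap (MvPolynomial (Fin 2) ℂ) K) :=
    IsFractionRing.injective _ _
  have h1 : Function.Injective (MvPolynomial.aeval (R := ℂ)
      (![C ζ * X 0, C (ζ ^ 2) * X 1] : Fin 2 → MvPolynomial (Fin 2) ℂ)) := by
    apply Function.LeftInverse.injective
      (g := MvPolynomial.aeval (R := ℂ)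
        (![C ζ⁻¹ * X 0, C (ζ⁻¹ ^ 2) * X 1] : Fin 2 → MvPolynomial (Fin 2) ℂ))
    intro a
    have h2 : (MvPolynomial.aeval (R := ℂ)
        (![C ζ⁻¹ * X 0, C (ζ⁻¹ ^ 2) * X 1] : Fin 2 → MvPolynomial (Fin 2) ℂ)).comp
        (MvPolynomial.aeval (R := ℂ)
      (![C ζ * X 0, C (ζ ^ 2) * X 1] : Fin 2 → MvPolynomial (Fin 2) ℂ)) = AlgHom.id ℂ _ := by
      apply MvPolynomial.algHom_ext
      intro i
      have h3 : (C ζ * C ζ⁻¹ : MvPolynomial (Fin 2) ℂ) = 1 := by
        rw [← C_mul, mul_inv_cancel₀ hζ, C_1]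
      fin_cases i
      · simp only [AlgHom.comp_apply, AlgHom.id_apply, aeval_X, Fin.zero_eta,
          Matrix.cons_val_zero, map_mul, algHom_C, algebraMap_eq]
        rw [← mul_assoc, h3, one_mul]
      · simp only [AlgHom.comp_apply, AlgHom.id_apply, aeval_X, Fin.mk_one,
          Matrix.cons_val_one, Matrix.cons_val_fin_one, map_mul, algHom_C, algebraMap_eq, map_pow]
        calc (C ζ : MvPolynomial (Fin 2) ℂ) ^ 2 * ((C ζ⁻¹) ^ 2 * X 1)
            = (C ζ * C ζ⁻¹) ^ 2 * X 1 := by ring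
          _ = X 1 := by rw [h3, one_pow, one_mul]
    exact DFunLike.congr_fun h2 a
  set g : MvPolynomial (Fin 2) ℂ →ₐ[ℂ] K :=
    (IsScalarTower.toAlgHom ℂ (MvPolynomial (Fin 2) ℂ) K).comp
      (MvPolynomial.aeval (R := ℂ)
      (![C ζ * X 0, C (ζ ^ 2) * X 1] : Fin 2 → MvPolynomial (Fin 2) ℂ)) with hg
  have hgi : Function.Injective g := hinj.comp h1
  refine ⟨IsFractionRing.liftAlgHom hgi, fun a => ?_⟩
  rw [IsFractionRing.liftAlgHom_apply, IsFractionRing.lift_algebraMap]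
  rfl

end Pool.Agent.Helper449.ZM.J7
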