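import Pool.Agent.Helper449.ZM.Loc

open scoped KaehlerDifferential

namespace Pool.Agent.Helper449.ZM

variable {K L : Type} [Field K] [Algebra ℂ K] [Field L] [Algebra ℂ L]

def unitsIn (B R : Subalgebra ℂ K) : Submonoid B where
  carrier := {s | (s : K) ≠ 0 ∧ (s : K)⁻¹ ∈ R}
  one_mem' := by simp [R.one_mem]
  mul_mem' := by
    rintro a b ⟨ha0, ha⟩ ⟨hb0, hb⟩
    refine ⟨by simpa using ⟨by simpa using ha0, by simpa using hb0⟩, ?_⟩
    simp only [MulMemClass.coe_mul, mul_inv]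
    exact R.mul_mem ha hb

theorem isLocalization_of_isLocOf {B R : Subalgebra ℂ K} (h : IsLocOf B R) :
    @IsLocalization B _ (unitsIn B R) R _ (Subalgebra.inclusion h.1).toRingHom.toAlgebra := by
  letI : Algebra B R := (Subalgebra.inclusion h.1).toRingHom.toAlgebra
  refine (isLocalization_iff _ _).2 ⟨?_, ?_, ?_⟩
  · rintro ⟨s, hs0, hsR⟩
    refine IsUnit.of_mul_eq_one (⟨(s : K)⁻¹, hsR⟩ : R) (Subtype.ext ?_)
    change (s : K) * (s : K)⁻¹ = 1
    exact mul_inv_cancel₀ hs0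
  · rintro ⟨f, hf⟩
    obtain ⟨a, ha, s, hs, hs0, hsR, rfl⟩ := h.2 f hf
    refine ⟨(⟨a, ha⟩, ⟨⟨s, hs⟩, hs0, hsR⟩), Subtype.ext ?_⟩
    change a / s * s = a
    field_simp
  · intro a b hab
    refine ⟨1, ?_⟩
    have : (a : K) = b := congrArg (Subtype.val : R → K) hab
    simp [Subtype.ext this]

theorem essFiniteType_of_isLocOf {B R : Subalgebra ℂ K} (h : IsLocOf B R)
    (hB : Algebra.FiniteType ℂ B) : Algebra.EssFiniteType ℂ R := by
  letI : Algebra B R := (Subalgebra.inclusion h.1).toRingHom.toAlgebra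
  haveI : IsScalarTower ℂ B R := IsScalarTower.of_algebraMap_eq fun c => rfl
  haveI := isLocalization_of_isLocOf h
  haveI : Algebra.EssFiniteType B R := Algebra.EssFiniteType.of_isLocalization R (unitsIn B R)
  exact Algebra.EssFiniteType.comp ℂ B R

theorem formallySmooth_of_isLocOf {B R : Subalgebra ℂ K} (h : IsLocOf B R)
    (hB : Algebra.FormallySmooth ℂ B) : Algebra.FormallySmooth ℂ R := by
  letI : Algebra B R := (Subalgebra.inclusion h.1).toRingHom.toAlgebra
  haveI : IsScalarTower ℂ B R := IsScalarTower.of_algebraMap_eq fun c => rfl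
  haveI := isLocalization_of_isLocOf h
  haveI : Algebra.FormallySmooth B R := Algebra.FormallySmooth.of_isLocalization (unitsIn B R)
  exact Algebra.FormallySmooth.comp ℂ B R

theorem isLocalRing_of_localSub {R : Subalgebra ℂ K} (h : LocalSub R) : IsLocalRing R := by
  refine IsLocalRing.of_isUnit_or_isUnit_one_sub_self ?_
  rintro ⟨a, ha⟩
  rcases h a ha (1 - a) (R.sub_mem R.one_mem ha) (by ring) with h1 | h1
  · exact Or.inl (IsUnit.of_mul_eq_one (⟨a⁻¹, h1.2⟩ : R) (Subtype.ext (mul_inv_cancel₀ h1.1)))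
  · exact Or.inr (IsUnit.of_mul_eq_one (⟨(1 - a)⁻¹, h1.2⟩ : R) (Subtype.ext (mul_inv_cancel₀ h1.1)))

theorem isUnit_iff {R : Subalgebra ℂ K} (f : R) : IsUnit f ↔ (f : K) ≠ 0 ∧ (f : K)⁻¹ ∈ R := by
  constructor
  · intro h
    obtain ⟨g, hg⟩ := h.exists_right_inv
    have hg' : (f : K) * g = 1 := congrArg Subtype.val hg
    refine ⟨left_ne_zero_of_mul_eq_one hg', ?_⟩
    rw [← eq_inv_of_mul_eq_one_right hg']
    exact g.2
  · rintro ⟨h0, h1⟩
    exact IsUnit.of_mul_eq_one (⟨_, h1⟩ : R) (Subtype.ext (mul_inv_cancel₀ h0))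

/-- a local ring of a projective variety has the function field as its field of fractions -/
theorem exists_div (X : ProjVar K) {R : Subalgebra ℂ K} (h : X.IsLocal R) (f : K) :
    ∃ a ∈ R, ∃ s ∈ R, s ≠ 0 ∧ f = a / s := by
  obtain ⟨-, i, hi, hloc⟩ := exists_of_isLocal X h
  have hf : f ∈ IntermediateField.adjoin ℂ {f : K | ∃ i j, X.x i ≠ 0 ∧ f = X.x j / X.x i} := by
    rw [X.generates]; trivial
  -- the set of fractions of elements of `R` is an intermediate field
  let F : IntermediateField ℂ K :=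
    { carrier := {f | ∃ a ∈ R, ∃ s ∈ R, s ≠ 0 ∧ f = a / s}
      mul_mem' := by
        rintro _ _ ⟨a, ha, s, hs, hs0, rfl⟩ ⟨b, hb, t, ht, ht0, rfl⟩
        exact ⟨a * b, R.mul_mem ha hb, s * t, R.mul_mem hs ht, mul_ne_zero hs0 ht0,
          by field_simp⟩
      add_mem' := by
        rintro _ _ ⟨a, ha, s, hs, hs0, rfl⟩ ⟨b, hb, t, ht, ht0, rfl⟩
        exact ⟨a * t + b * s, R.add_mem (R.mul_mem ha ht) (R.mul_mem hb hs), s * t,
          R.mul_mem hs ht, mul_ne_zero hs0 ht0, by field_simp⟩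
      algebraMap_mem' := fun c => ⟨_, R.algebraMap_mem c, 1, R.one_mem, one_ne_zero, by simp⟩
      inv_mem' := by
        rintro _ ⟨a, ha, s, hs, hs0, rfl⟩
        by_cases ha0 : a = 0
        · exact ⟨0, R.zero_mem, 1, R.one_mem, one_ne_zero, by simp [ha0]⟩
        · exact ⟨s, hs, a, ha, ha0, by simp⟩ }
  have hle : IntermediateField.adjoin ℂ {f : K | ∃ i j, X.x i ≠ 0 ∧ f = X.x j / X.x i} ≤ F := by
    refine IntermediateField.adjoin_le_iff.2 ?_
    rintro _ ⟨k, j, hk, rfl⟩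
    refine ⟨X.x j / X.x i, hloc.1 (Algebra.subset_adjoin ⟨j, rfl⟩), X.x k / X.x i,
      hloc.1 (Algebra.subset_adjoin ⟨k, rfl⟩), div_ne_zero hk hi, ?_⟩
    field_simp
  exact hle hf

theorem isFractionRing_of_isLocal (X : ProjVar K) {R : Subalgebra ℂ K} (h : X.IsLocal R) :
    IsFractionRing R K := by
  refine (isLocalization_iff _ _).2 ⟨?_, ?_, ?_⟩
  · rintro ⟨s, hs⟩
    have : (s : K) ≠ 0 := fun h0 => nonZeroDivisors.ne_zero hs (Subtype.ext h0)
    exact this.isUnit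
  · intro f
    obtain ⟨a, ha, s, hs, hs0, rfl⟩ := exists_div X h f
    refine ⟨(⟨a, ha⟩, ⟨⟨s, hs⟩, mem_nonZeroDivisors_of_ne_zero fun h0 => hs0
      (congrArg Subtype.val h0)⟩), ?_⟩
    change a / s * s = a
    field_simp
  · intro a b hab
    refine ⟨1, ?_⟩
    have : (a : K) = b := hab
    simp [Subtype.ext this]

theorem mem_or_inv_mem_of_dvr (X : ProjVar K) {R : Subalgebra ℂ K} (h : X.IsLocal R)
    (hv : ValuationRing R) (f : K) : f ∈ R ∨ f⁻¹ ∈ R := by
  haveI := isFractionRing_of_isLocal X h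
  rcases (ValuationRing.iff_isInteger_or_isInteger R K).1 hv f with ⟨a, ha⟩ | ⟨a, ha⟩
  · left; rw [← ha]; exact a.2
  · right; rw [← ha]; exact a.2

theorem chart_finiteType (X : ProjVar K) (i : X.ι) : Algebra.FiniteType ℂ (X.chart i) := by
  haveI := X.finite_ι
  refine (Subalgebra.fg_iff_finiteType _).1 ⟨(Set.finite_range fun j => X.x j / X.x i).toFinset, ?_⟩
  simp [ProjVar.chart]

end Pool.Agent.Helper449.ZM
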