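import Pool.Agent.Helper449.ZM.Fan
import Pool.Agent.Helper449.ZM.Alg

namespace Pool.Agent.Helper449.ZM

variable {K L : Type} [Field K] [Algebra ℂ K] [Field L] [Algebra ℂ L]

/-- the projective plane with generic point `(1 : x : y)` -/
noncomputable def P2 (x y : K) (h : IntermediateField.adjoin ℂ {x, y} = ⊤) : ProjVar K where
  ι := Fin 3
  finite_ι := inferInstance
  x := ![1, x, y]
  exists_ne := ⟨0, by simp⟩
  generates := gen_of_subset (s := {x, y}) (by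
    rintro _ (rfl | rfl)
    · exact ⟨0, 1, by simp, by simp⟩
    · exact ⟨0, 2, by simp, by simp⟩) h

/-- the pairs of affine coordinates on the three charts of the projective plane -/
noncomputable def p2Pairs (x y : K) : Fin 3 → K × K :=
  ![(x, y), (x⁻¹, y / x), (y⁻¹, x / y)]

theorem P2_chart {x y : K} (hx : x ≠ 0) (hy : y ≠ 0) (h : IntermediateField.adjoin ℂ {x, y} = ⊤)
    (i : Fin 3) :
    (P2 x y h).chart i = Algebra.adjoin ℂ {(p2Pairs x y i).1, (p2Pairs x y i).2} := by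
  apply le_antisymm
  · refine Algebra.adjoin_le ?_
    rintro _ ⟨j, rfl⟩
    change Fin 3 at j
    change (![1, x, y] : Fin 3 → K) j / (![1, x, y] : Fin 3 → K) i ∈ _
    fin_cases i <;> fin_cases j
    · exact adj2 0 0 (by simp [p2Pairs])
    · exact adj2 1 0 (by simp [p2Pairs])
    · exact adj2 0 1 (by simp [p2Pairs])
    · exact adj2 1 0 (by simp [p2Pairs])
    · exact adj2 0 0 (by simp [p2Pairs, hx])
    · exact adj2 0 1 (by simp [p2Pairs])
    · exact adj2 1 0 (by simp [p2Pairs])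
    · exact adj2 0 1 (by simp [p2Pairs])
    · exact adj2 0 0 (by simp [p2Pairs, hy])
  · apply adj2_le
    · fin_cases i
      · exact Algebra.subset_adjoin ⟨(1 : Fin 3), by simp [P2, p2Pairs]⟩
      · exact Algebra.subset_adjoin ⟨(0 : Fin 3), by simp [P2, p2Pairs]⟩
      · exact Algebra.subset_adjoin ⟨(0 : Fin 3), by simp [P2, p2Pairs]⟩
    · fin_cases i
      · exact Algebra.subset_adjoin ⟨(2 : Fin 3), by simp [P2, p2Pairs]⟩
      · exact Algebra.subset_adjoin ⟨(2 : Fin 3), by simp [P2, p2Pairs]⟩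
      · exact Algebra.subset_adjoin ⟨(1 : Fin 3), by simp [P2, p2Pairs]⟩

theorem P2_x_ne {x y : K} (hx : x ≠ 0) (hy : y ≠ 0) (h : IntermediateField.adjoin ℂ {x, y} = ⊤)
    (i : Fin 3) : (P2 x y h).x i ≠ 0 := by
  change (![1, x, y] : Fin 3 → K) i ≠ 0
  fin_cases i <;> simp [hx, hy]

theorem P2_exists_pair {x y : K} (hx : x ≠ 0) (hy : y ≠ 0)
    {h : IntermediateField.adjoin ℂ {x, y} = ⊤} {R : Subalgebra ℂ K}
    (hR : (P2 x y h).IsLocal R) :
    ∃ i : Fin 3, IsLocOf (Algebra.adjoin ℂ {(p2Pairs x y i).1, (p2Pairs x y i).2}) R := by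
  obtain ⟨-, i, -, hi⟩ := exists_of_isLocal _ hR
  exact ⟨i, by rw [← P2_chart hx hy h]; exact hi⟩

/-- the pairs generate the function field -/
theorem p2Pairs_gen {x y : K} (hx : x ≠ 0) (hy : y ≠ 0)
    (h : IntermediateField.adjoin ℂ {x, y} = ⊤) (i : Fin 3) :
    IntermediateField.adjoin ℂ {(p2Pairs x y i).1, (p2Pairs x y i).2} = ⊤ := by
  rw [eq_top_iff, ← h]
  refine IntermediateField.adjoin_le_iff.2 ?_
  have h1 : (p2Pairs x y i).1 ∈ IntermediateField.adjoin ℂ {(p2Pairs x y i).1, (p2Pairs x y i).2} :=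
    IntermediateField.subset_adjoin _ _ (by simp)
  have h2 : (p2Pairs x y i).2 ∈ IntermediateField.adjoin ℂ {(p2Pairs x y i).1, (p2Pairs x y i).2} :=
    IntermediateField.subset_adjoin _ _ (by simp)
  fin_cases i
  · rintro _ (rfl | rfl)
    · exact h1
    · exact h2
  · have hx' : x ∈ IntermediateField.adjoin ℂ {(p2Pairs x y 1).1, (p2Pairs x y 1).2} := by
      have := inv_mem h1
      simpa [p2Pairs] using this
    rintro _ (rfl | rfl)
    · exact hx'
    · have := mul_mem h2 hx'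
      simpa [p2Pairs, hx] using this
  · have hy' : y ∈ IntermediateField.adjoin ℂ {(p2Pairs x y 2).1, (p2Pairs x y 2).2} := by
      have := inv_mem h1
      simpa [p2Pairs] using this
    rintro _ (rfl | rfl)
    · have := mul_mem h2 hy'
      simpa [p2Pairs, hy] using this
    · exact hy'

theorem gen_of_mem_or_inv {x y a b : K} (h : IntermediateField.adjoin ℂ {x, y} = ⊤)
    (hx : x ∈ Algebra.adjoin ℂ {a, b} ∨ x⁻¹ ∈ Algebra.adjoin ℂ {a, b})
    (hy : y ∈ Algebra.adjoin ℂ {a, b} ∨ y⁻¹ ∈ Algebra.adjoin ℂ {a, b}) :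
    IntermediateField.adjoin ℂ {a, b} = ⊤ := by
  have hle : Algebra.adjoin ℂ {a, b} ≤ (IntermediateField.adjoin ℂ {a, b}).toSubalgebra :=
    IntermediateField.algebra_adjoin_le_adjoin _ _
  have key : ∀ z : K, z ∈ Algebra.adjoin ℂ {a, b} ∨ z⁻¹ ∈ Algebra.adjoin ℂ {a, b} →
      z ∈ IntermediateField.adjoin ℂ {a, b} := by
    rintro z (hz | hz)
    · exact hle hz
    · have := inv_mem (show z⁻¹ ∈ IntermediateField.adjoin ℂ {a, b} from hle hz)
      rwa [inv_inv] at this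
  rw [eq_top_iff, ← h]
  refine IntermediateField.adjoin_le_iff.2 ?_
  rintro _ (rfl | rfl)
  · exact key _ hx
  · exact key _ hy

theorem halfPairs_gen {x y : K} (hx : x ≠ 0) (hy : y ≠ 0)
    (h : IntermediateField.adjoin ℂ {x, y} = ⊤) (j : Fin 6) :
    IntermediateField.adjoin ℂ {(halfPairs x y j).1, (halfPairs x y j).2} = ⊤ :=
  gen_of_mem_or_inv h (half_chars hx hy j 0) (half_chars hx hy j 1)

theorem gen_inv {x y : K} (h : IntermediateField.adjoin ℂ {x, y} = ⊤) :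
    IntermediateField.adjoin ℂ {x⁻¹, y⁻¹} = ⊤ :=
  gen_of_mem_or_inv h (Or.inr (Algebra.subset_adjoin (by simp)))
    (Or.inr (Algebra.subset_adjoin (by simp)))

/-- the resolution `Γ → ℙ²` -/
theorem G2_P2_isMorphism {x y : K} (hx : x ≠ 0) (hy : y ≠ 0)
    (h : IntermediateField.adjoin ℂ {x, y} = ⊤) :
    IsMorphism (G2 x y hx hy h) (P2 x y h) (AlgHom.id ℂ K) := by
  refine isMorphism_of _ _ _ fun R hR => ?_
  have hk : ∀ k, chars x y k ∈ R ∨ (chars x y k)⁻¹ ∈ R := fun k => prodVar_mem_or hR k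
  have h0 := hk 0
  have h1 := hk 1
  have h3 := hk 3
  simp only [chars, Matrix.cons_val] at h0 h1 h3
  have key : ∀ i : Fin 3, (p2Pairs x y i).1 ∈ R → (p2Pairs x y i).2 ∈ R →
      ∃ i, (P2 x y h).x i ≠ 0 ∧ (P2 x y h).chart i ≤ R.comap (AlgHom.id ℂ K) := by
    intro i ha hb
    refine ⟨i, P2_x_ne hx hy h i, ?_⟩
    rw [P2_chart hx hy h]
    exact adj2_le ha hb
  rw [inv_div] at h3
  rcases h0 with h0 | h0
  · rcases h1 with h1 | h1
    · exact key 0 h0 h1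
    · exact key 2 h1 (by
        have := R.mul_mem h0 h1
        simpa [p2Pairs, div_eq_mul_inv] using this)
  · rcases h1 with h1 | h1
    · exact key 1 h0 (by
        have := R.mul_mem h1 h0
        simpa [p2Pairs, div_eq_mul_inv] using this)
    · rcases h3 with h3 | h3
      · exact key 2 h1 h3
      · exact key 1 h0 h3

/-- the images of the characters under `x ↦ x²/y, y ↦ x/y²` -/
theorem phi_chars {x y : K} (hx : x ≠ 0) (hy : y ≠ 0) (φ : K →ₐ[ℂ] K) (e1 : φ x = x ^ 2 / y)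
    (e2 : φ y = x / y ^ 2) :
    φ (chars x y 0) = chars x y 4 ∧ φ (chars x y 1) = chars x y 5 ∧
    φ (chars x y 2) = chars x y 3 ^ 3 ∧ φ (chars x y 3) = chars x y 2 ∧
    φ (chars x y 4) = chars x y 0 ^ 3 ∧ φ (chars x y 5) = chars x y 1 ^ 3 := by
  simp only [chars, Matrix.cons_val, map_mul, map_div₀, map_pow, e1, e2]
  refine ⟨trivial, trivial, ?_, ?_, ?_, ?_⟩ <;> field_simp

theorem phi_chars_mem {x y : K} (hx : x ≠ 0) (hy : y ≠ 0) (φ : K →ₐ[ℂ] K) (e1 : φ x = x ^ 2 / y)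
    (e2 : φ y = x / y ^ 2) {R : Subalgebra ℂ K} (hk : ∀ k, chars x y k ∈ R ∨ (chars x y k)⁻¹ ∈ R)
    (k : Fin 6) : chars x y k ∈ R.comap φ ∨ (chars x y k)⁻¹ ∈ R.comap φ := by
  obtain ⟨p0, p1, p2, p3, p4, p5⟩ := phi_chars hx hy φ e1 e2
  change φ _ ∈ R ∨ φ _ ∈ R
  rw [map_inv₀]
  fin_cases k
  · change φ (chars x y 0) ∈ R ∨ (φ (chars x y 0))⁻¹ ∈ R
    rw [p0]; exact hk 4
  · change φ (chars x y 1) ∈ R ∨ (φ (chars x y 1))⁻¹ ∈ R
    rw [p1]; exact hk 5
  · change φ (chars x y 2) ∈ R ∨ (φ (chars x y 2))⁻¹ ∈ R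
    rw [p2, ← inv_pow]; exact (hk 3).imp (fun h => R.pow_mem h 3) (fun h => R.pow_mem h 3)
  · change φ (chars x y 3) ∈ R ∨ (φ (chars x y 3))⁻¹ ∈ R
    rw [p3]; exact hk 2
  · change φ (chars x y 4) ∈ R ∨ (φ (chars x y 4))⁻¹ ∈ R
    rw [p4, ← inv_pow]; exact (hk 0).imp (fun h => R.pow_mem h 3) (fun h => R.pow_mem h 3)
  · change φ (chars x y 5) ∈ R ∨ (φ (chars x y 5))⁻¹ ∈ R
    rw [p5, ← inv_pow]; exact (hk 1).imp (fun h => R.pow_mem h 3) (fun h => R.pow_mem h 3)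

/-- the resolution `Γ → Y` -/
theorem G2_G2_isMorphism {x y : K} (hx : x ≠ 0) (hy : y ≠ 0)
    (h : IntermediateField.adjoin ℂ {x, y} = ⊤) (φ : K →ₐ[ℂ] K) (e1 : φ x = x ^ 2 / y)
    (e2 : φ y = x / y ^ 2) :
    IsMorphism (G2 x y hx hy h) (G2 x y hx hy h) φ := by
  refine isMorphism_of _ _ _ fun R hR => ?_
  obtain ⟨s, hs⟩ := exists_prodVar_chart_le (h0 := chars_ne hx hy) (hgen := chars_gen h)
    (phi_chars_mem hx hy φ e1 e2 (fun k => prodVar_mem_or hR k))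
  exact ⟨s, prodVar_x_ne s, hs⟩

end Pool.Agent.Helper449.ZM
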