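import Pool.Agent.Helper449.ZM.Core2
import Pool.Agent.Helper449.ZM.P2
import Pool.Agent.Helper449.ZM.J3
import Pool.Agent.Helper449.ZM.J4
import Pool.Agent.Helper449.ZM.J7

open MvPolynomial
open scoped KaehlerDifferential

namespace Pool.Agent.Helper449.ZM

section center

variable {K L : Type} [Field K] [Algebra ℂ K] [Field L] [Algebra ℂ L]

/-- completeness of projective varieties -/
theorem exists_center (X : ProjVar K) (V : ValuationSubring K)
    (hV : ∀ c : ℂ, algebraMap ℂ K c ∈ V) :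
    ∃ R, X.IsLocal R ∧ ValDominates (AlgHom.id ℂ K) V R := by
  haveI := X.finite_ι
  obtain ⟨i0, hi0⟩ := X.exists_ne
  haveI : Nonempty X.ι := ⟨i0⟩
  obtain ⟨i, hi⟩ := Finite.exists_max fun i => V.valuation (X.x i)
  have hi' : X.x i ≠ 0 := by
    intro h0
    have := hi i0
    rw [h0, map_zero, le_zero_iff, map_eq_zero] at this
    exact hi0 this
  have hle : X.chart i ≤ valSub V hV := by
    refine Algebra.adjoin_le ?_
    rintro _ ⟨j, rfl⟩
    change X.x j / X.x i ∈ V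
    rw [← V.valuation_le_one_iff, map_div₀]
    exact div_le_one_of_le₀ (hi j) zero_le'
  refine ⟨_, isLocal_locAt X hi' hle (localSub_valSub V hV), fun f hf => locAt_le hle hf,
    fun f hf hfV => inv_mem_locAt hf hfV⟩

end center

section

variable {K : Type} [Field K] [Algebra ℂ K] [Algebra (MvPolynomial (Fin 2) ℂ) K]
  [IsScalarTower ℂ (MvPolynomial (Fin 2) ℂ) K] [IsFractionRing (MvPolynomial (Fin 2) ℂ) K]

theorem gen_am : IntermediateField.adjoin ℂ {am K (X 0), am K (X 1)} = ⊤ := by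
  rw [eq_top_iff]
  rintro f -
  obtain ⟨a, s, -, rfl⟩ := IsFractionRing.div_surjective (A := MvPolynomial (Fin 2) ℂ) f
  have hle : Algebra.adjoin ℂ {am K (X 0), am K (X 1)} ≤
      (IntermediateField.adjoin ℂ {am K (X 0), am K (X 1)}).toSubalgebra :=
    IntermediateField.algebra_adjoin_le_adjoin _ _
  exact div_mem (hle (am_mem_adjoin a)) (hle (am_mem_adjoin s))

theorem am_X_pow_ne_const (n : ℕ) (hn : n ≠ 0) (c : ℂ) : am K (X 0) ^ n ≠ algebraMap ℂ K c := by
  intro h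
  have h2 : (X 0 : MvPolynomial (Fin 2) ℂ) ^ n = C c := by
    apply am_inj (K := K)
    rw [am_C, ← h, am, am, map_pow]
  have h3 := congrArg (MvPolynomial.eval (0 : Fin 2 → ℂ)) h2
  have h4 := congrArg (MvPolynomial.eval (1 : Fin 2 → ℂ)) h2
  simp [hn] at h3 h4
  rw [← h4] at h3
  exact zero_ne_one h3

theorem am_X_sub_C_ne (i : Fin 2) (c : ℂ) : (X i - C c : MvPolynomial (Fin 2) ℂ) ≠ 0 := by
  intro h
  have h3 := congrArg (MvPolynomial.eval (fun _ => c + 1 : Fin 2 → ℂ)) h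
  simp at h3

/-- the valuation ring of a plane curve -/
noncomputable def valOf {q : MvPolynomial (Fin 2) ℂ} (hq : Prime q)
    (hp : (Ideal.span {q}).IsPrime) : ValuationSubring K :=
  { (atPrime K (Ideal.span {q}) hp).toSubring with
    mem_or_inv_mem' := fun f => atPrime_val hq hp f }

theorem mem_valOf {q : MvPolynomial (Fin 2) ℂ} (hq : Prime q)
    (hp : (Ideal.span {q}).IsPrime) (f : K) :
    f ∈ valOf (K := K) hq hp ↔ f ∈ atPrime K (Ideal.span {q}) hp := Iff.rfl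

theorem dvd_of_val {q : MvPolynomial (Fin 2) ℂ} (hq : Prime q)
    (hp : (Ideal.span {q}).IsPrime) (a : MvPolynomial (Fin 2) ℂ)
    (h : (valOf (K := K) hq hp).valuation (am K a) < 1) : q ∣ a := by
  by_contra hcon
  have h1 : a ∉ Ideal.span {q} := fun h => hcon (Ideal.mem_span_singleton.1 h)
  have h2 : (am K a)⁻¹ ∈ valOf (K := K) hq hp := inv_mem_atPrime (hp := hp) h1
  rw [← ValuationSubring.valuation_le_one_iff, map_inv₀] at h2
  have h3 : (valOf (K := K) hq hp).valuation (am K a) ≠ 0 :=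
    (Valuation.ne_zero_iff _).2 (am_ne (ne_of_notMem h1))
  have h4 : 1 < ((valOf (K := K) hq hp).valuation (am K a))⁻¹ :=
    (one_lt_inv₀ (zero_lt_iff.2 h3)).2 h
  exact absurd h2 (not_le.2 h4)

theorem exists_const' (V : ValuationSubring K)
    (hV : ∀ c : ℂ, algebraMap ℂ K c ∈ V) (f : K)
    (hf : ∀ W : ValuationSubring K, (∀ c : ℂ, algebraMap ℂ K c ∈ W) → W ≤ V → f ∈ W) :
    ∃ c : ℂ, V.valuation (f - algebraMap ℂ K c) < 1 := by
  obtain ⟨c, -, hc⟩ := J4.exists_const K V hV f hf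
  refine ⟨c, ?_⟩
  rcases hc with hc | hc
  · rw [hc, sub_self, map_zero]; exact zero_lt_one
  · rw [← ValuationSubring.valuation_le_one_iff, map_inv₀, not_le] at hc
    by_cases h0 : V.valuation (f - algebraMap ℂ K c) = 0
    · rw [h0]; exact zero_lt_one
    · exact (one_lt_inv₀ (zero_lt_iff.2 h0)).1 hc

/-- no curve of the plane is contracted -/
theorem hno_P2 {L : Type} [Field L] [Algebra ℂ L] (θ : L →ₐ[ℂ] K) (n : ℕ) (hn : n ≠ 0)
    (e2 : ∃ f, θ f = am K (X 0) ^ n) (q : MvPolynomial (Fin 2) ℂ) (hq : Prime q)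
    (hp : (Ideal.span {q}).IsPrime) (T : Set L) (hT : IntermediateField.adjoin ℂ T = ⊤)
    (hreg : ∀ g ∈ T, ∀ V : ValuationSubring K, (∀ c : ℂ, algebraMap ℂ K c ∈ V) →
        (∀ f ∈ V, f ∈ atPrime K (Ideal.span {q}) hp) →
        ∀ R, (P2 (am K (X 0)) (am K (X 1)) gen_am).IsLocal R →
          ValDominates (AlgHom.id ℂ K) V R → θ g ∈ R) : False := by
  have hx0 : am K (X 0) ≠ 0 := am_ne (X_ne_zero 0)
  have hy0 : am K (X 1) ≠ 0 := am_ne (X_ne_zero 1)
  -- a nonconstant element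
  obtain ⟨g, hgT, hg⟩ : ∃ g ∈ T, ∀ c : ℂ, θ g ≠ algebraMap ℂ K c := by
    by_contra hcon
    push Not at hcon
    have hle : IntermediateField.adjoin ℂ T ≤ ⊥ := by
      refine IntermediateField.adjoin_le_iff.2 fun g hg => ?_
      obtain ⟨c, hc⟩ := hcon g hg
      rw [← θ.commutes] at hc
      rw [θ.injective hc]
      exact IntermediateField.algebraMap_mem _ _
    rw [hT] at hle
    obtain ⟨f, hf⟩ := e2
    obtain ⟨c, hc⟩ := IntermediateField.mem_bot.1 (hle (show f ∈ ⊤ from trivial))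
    rw [← hc, θ.commutes] at hf
    exact am_X_pow_ne_const n hn c hf.symm
  obtain ⟨D, hD, hinf⟩ := J3.lemma_inf (θ g) hg
  have hVC : ∀ c : ℂ, algebraMap ℂ K c ∈ valOf (K := K) hq hp := fun c =>
    (atPrime K _ hp).algebraMap_mem c
  have key : ∀ V : ValuationSubring K, (∀ c : ℂ, algebraMap ℂ K c ∈ V) → V ≤ valOf hq hp →
      (am K D)⁻¹ ∈ V ∧ am K (X 0) / am K D ∈ V ∧ am K (X 1) / am K D ∈ V := by
    intro V hV hle
    obtain ⟨R, hR, hVR⟩ := exists_center (P2 (am K (X 0)) (am K (X 1)) gen_am) V hV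
    have h1 : θ g ∈ R := hreg g hgT V hV (fun f hf => hle hf) R hR hVR
    obtain ⟨i, hi⟩ := P2_exists_pair hx0 hy0 hR
    have h2 := hinf R (by
      fin_cases i
      · left; exact hi
      · right; left; exact hi
      · right; right; exact hi) h1
    exact ⟨hVR.1 _ h2.1, hVR.1 _ h2.2.1, hVR.1 _ h2.2.2⟩
  obtain ⟨c0, h0⟩ := exists_const' (valOf hq hp) hVC _ fun V hV hle => (key V hV hle).1
  obtain ⟨c1, h1⟩ := exists_const' (valOf hq hp) hVC _ fun V hV hle => (key V hV hle).2.1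
  obtain ⟨c2, h2⟩ := exists_const' (valOf hq hp) hVC _ fun V hV hle => (key V hV hle).2.2
  set v := (valOf (K := K) hq hp).valuation with hv
  have hc : ∀ c : ℂ, v (algebraMap ℂ K c) ≤ 1 := fun c =>
    ((valOf hq hp).valuation_le_one_iff _).2 (hVC c)
  have hD1 : v (am K D) ≤ 1 := ((valOf hq hp).valuation_le_one_iff _).2 (am_mem_atPrime _ hp _)
  have hDne : am K D ≠ 0 := am_ne hD
  -- `1 - c0 D`
  have h0' : v (1 - algebraMap ℂ K c0 * am K D) < 1 := by
    have e : 1 - algebraMap ℂ K c0 * am K D = am K D * ((am K D)⁻¹ - algebraMap ℂ K c0) := by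
      field_simp
    rw [e, map_mul]
    exact lt_of_le_of_lt (mul_le_of_le_one_left' hD1) h0
  have hc0 : c0 ≠ 0 := by
    rintro rfl
    rw [map_zero, zero_mul, sub_zero, map_one] at h0'
    exact lt_irrefl _ h0'
  have key2 : ∀ (z : MvPolynomial (Fin 2) ℂ) (c : ℂ),
      v (am K z / am K D - algebraMap ℂ K c) < 1 → v (am K (z - C (c / c0))) < 1 := by
    intro z c hz
    have hc0' : algebraMap ℂ K c0 ≠ 0 := by simpa using hc0
    have e : am K (z - C (c / c0)) = am K D * (am K z / am K D - algebraMap ℂ K c) +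
        algebraMap ℂ K (-(c / c0)) * (1 - algebraMap ℂ K c0 * am K D) := by
      rw [am_sub, am_C, map_neg, map_div₀]
      field_simp
      ring
    rw [e]
    apply v.map_add_lt
    · rw [map_mul]; exact lt_of_le_of_lt (mul_le_of_le_one_left' hD1) hz
    · rw [map_mul]; exact lt_of_le_of_lt (mul_le_of_le_one_left' (hc _)) h0'
  exact J8.not_dvd_both q hq (c1 / c0) (c2 / c0) (dvd_of_val hq hp _ (key2 _ _ h1))
    (dvd_of_val hq hp _ (key2 _ _ h2))

theorem sigma_phi (φ σ : K →ₐ[ℂ] K) (h1 : σ (φ (am K (X 0))) = φ (am K (X 0)))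
    (h2 : σ (φ (am K (X 1))) = φ (am K (X 1))) (f : K) : σ (φ f) = φ f := by
  let F : IntermediateField ℂ K :=
    { carrier := {f | σ (φ f) = φ f}
      mul_mem' := by
        intro a b ha hb
        simp only [Set.mem_setOf_eq] at *
        rw [map_mul, map_mul, ha, hb]
      add_mem' := by
        intro a b ha hb
        simp only [Set.mem_setOf_eq] at *
        rw [map_add, map_add, ha, hb]
      algebraMap_mem' := fun c => by simp
      inv_mem' := by
        intro a ha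
        simp only [Set.mem_setOf_eq] at *
        rw [map_inv₀, map_inv₀, ha] }
  have hle : IntermediateField.adjoin ℂ {am K (X 0), am K (X 1)} ≤ F := by
    refine IntermediateField.adjoin_le_iff.2 ?_
    rintro _ (rfl | rfl)
    · exact h1
    · exact h2
  rw [gen_am] at hle
  exact hle (show f ∈ ⊤ from trivial)

theorem P2_isLocal_atPrime (p : Ideal (MvPolynomial (Fin 2) ℂ)) (hp : p.IsPrime) :
    (P2 (am K (X 0)) (am K (X 1)) gen_am).IsLocal (atPrime K p hp) := by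
  have hx0 : am K (X 0) ≠ 0 := am_ne (X_ne_zero 0)
  have hy0 : am K (X 1) ≠ 0 := am_ne (X_ne_zero 1)
  refine isLocal_of _ (i := (0 : Fin 3)) (P2_x_ne hx0 hy0 gen_am 0) ?_ (localSub_atPrime p hp)
  rw [P2_chart hx0 hy0 gen_am]
  exact isLocOf_atPrime p hp

theorem finrank_of_equiv {L : Type} [Field L] [Algebra ℂ L] (β : L ≃ₐ[ℂ] K) :
    Module.finrank L (Ω[L⁄ℂ]) = 2 := by
  letI : Algebra (MvPolynomial (Fin 2) ℂ) L :=
    (β.symm.toRingEquiv.toRingHom.comp (algebraMap (MvPolynomial (Fin 2) ℂ) K)).toAlgebra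
  haveI : IsScalarTower ℂ (MvPolynomial (Fin 2) ℂ) L := by
    refine IsScalarTower.of_algebraMap_eq fun c => ?_
    change algebraMap ℂ L c = β.symm (algebraMap (MvPolynomial (Fin 2) ℂ) K (C c))
    have : algebraMap (MvPolynomial (Fin 2) ℂ) K (C c) = algebraMap ℂ K c := am_C c
    rw [this, AlgEquiv.commutes]
  haveI : IsFractionRing (MvPolynomial (Fin 2) ℂ) L := by
    let e : K ≃ₐ[MvPolynomial (Fin 2) ℂ] L :=
      { β.symm.toRingEquiv with commutes' := fun r => rfl }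
    exact IsLocalization.isLocalization_of_algEquiv _ e
  exact J2.finrank_ratFunc L

/-- **Non-existence.**  No smooth projective birational model of the target makes the rational
map a morphism. -/
theorem nonexistence (φ : K →ₐ[ℂ] K) (e1 : φ (am K (X 0)) = am K (X 0) ^ 2 / am K (X 1))
    (e2 : φ (am K (X 1)) = am K (X 0) / am K (X 1) ^ 2) (L : Type) [Field L] [Algebra ℂ L]
    (Y : ProjVar L) (β : L ≃ₐ[ℂ] K) (hY : Y.Smooth) :
    ¬ IsMorphism (P2 (am K (X 0)) (am K (X 1)) gen_am) Y (φ.comp (β : L →ₐ[ℂ] K)) := by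
  intro hM
  have hx0 : am K (X 0) ≠ 0 := am_ne (X_ne_zero 0)
  have hy0 : am K (X 1) ≠ 0 := am_ne (X_ne_zero 1)
  obtain ⟨-, -, -, p3, p4, p5⟩ := phi_chars hx0 hy0 φ e1 e2
  simp only [chars, Matrix.cons_val] at p3 p4 p5
  -- a primitive cube root of unity
  obtain ⟨ζ, hζ⟩ : ∃ ζ : ℂ, IsPrimitiveRoot ζ 3 := ⟨_, Complex.isPrimitiveRoot_exp 3 (by norm_num)⟩
  have hζ0 : ζ ≠ 0 := hζ.ne_zero (by norm_num)
  have hζ1 : ζ ≠ 1 := hζ.ne_one (by norm_num)
  have hζ2 : ζ ^ 2 ≠ 1 := hζ.pow_ne_one_of_pos_of_lt (by norm_num) (by norm_num)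
  have hζ3 : ζ ^ 3 = 1 := hζ.pow_eq_one
  obtain ⟨σ, hσ⟩ := J7.exists_sigma K ζ hζ0
  have hσx : σ (am K (X 0)) = algebraMap ℂ K ζ * am K (X 0) := by
    rw [am, hσ, aeval_X, ← am_C, ← am_mul]; rfl
  have hσy : σ (am K (X 1)) = algebraMap ℂ K ζ ^ 2 * am K (X 1) := by
    rw [am, hσ, aeval_X, ← map_pow (algebraMap ℂ K), ← am_C, ← am_mul]; rfl
  have hz0 : algebraMap ℂ K ζ ≠ 0 := by simpa using hζ0
  have hz3 : algebraMap ℂ K ζ ^ 3 = 1 := by rw [← map_pow, hζ3, map_one]
  have hinv : ∀ f, σ (φ f) = φ f := by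
    apply sigma_phi φ σ
    · rw [e1, map_div₀, map_pow, hσx, hσy]
      field_simp
    · rw [e2, map_div₀, map_pow, hσx, hσy]
      field_simp
      linear_combination -hz3
  have hβ : ∀ z, (φ.comp (β : L →ₐ[ℂ] K)) (β.symm z) = φ z := fun z =>
    congrArg φ (β.apply_symm_apply z)
  refine core (P2 (am K (X 0)) (am K (X 1)) gen_am) P2_isLocal_atPrime Y hY
    (finrank_of_equiv β).le (φ.comp (β : L →ₐ[ℂ] K)) 3 (by norm_num) ⟨β.symm (am K (X 0) / am K (X 1)), ?_⟩
    ⟨β.symm (am K (X 0) ^ 2 / am K (X 1)), ?_⟩ ⟨β.symm (am K (X 0) / am K (X 1) ^ 2), ?_⟩ ?_ ?_ hM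
  · exact (hβ _).trans p3
  · exact (hβ _).trans p4
  · exact (hβ _).trans p5
  · intro f a s hs hf
    have hs0 : am K s ≠ 0 := am_ne (by rintro rfl; simp at hs)
    have h1 := hinv (β f)
    have h2 : φ (β f) = am K a / am K s := hf
    rw [h2, map_div₀] at h1
    have h3 := hσ a
    have h4 := hσ s
    change σ (am K a) = am K _ at h3
    change σ (am K s) = am K _ at h4
    have h5 : σ (am K s) ≠ 0 := by simpa using hs0
    rw [div_eq_div_iff h5 hs0, h3, h4, ← am_mul, ← am_mul] at h1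
    exact J8.linear_part_zero ζ hζ1 hζ2 a s (am_inj h1)
  · intro q hq hp T hT hreg
    exact hno_P2 (φ.comp (β : L →ₐ[ℂ] K)) 3 (by norm_num)
      ⟨β.symm (am K (X 0) ^ 2 / am K (X 1)), (hβ _).trans p4⟩
      q hq hp T hT hreg

end

end Pool.Agent.Helper449.ZM
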