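import Pool.Agent.Helper449.ZM.Loc

open Finset

namespace Pool.Agent.Helper449.ZM

variable {K L : Type} [Field K] [Algebra ℂ K] [Field L] [Algebra ℂ L]

theorem gen_of_subset {s t : Set K} (h : s ⊆ t) (hs : IntermediateField.adjoin ℂ s = ⊤) :
    IntermediateField.adjoin ℂ t = ⊤ :=
  top_le_iff.1 (hs ▸ IntermediateField.adjoin.mono ℂ _ _ h)

/-- The closure of the graph of the rational map to `(ℙ¹)^κ` given by the nonzero rational
functions `χ k`, embedded by the Segre embedding. -/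
noncomputable def prodVar {κ : Type} [Fintype κ] [DecidableEq κ] (χ : κ → K) (h0 : ∀ k, χ k ≠ 0)
    (hgen : IntermediateField.adjoin ℂ (Set.range χ) = ⊤) : ProjVar K where
  ι := Finset κ
  finite_ι := inferInstance
  x s := ∏ k ∈ s, χ k
  exists_ne := ⟨∅, by simp⟩
  generates := by
    refine gen_of_subset ?_ hgen
    rintro _ ⟨k, rfl⟩
    exact ⟨∅, {k}, by simp, by simp⟩

section

variable {κ : Type} [Fintype κ] [DecidableEq κ] {χ : κ → K} {h0 : ∀ k, χ k ≠ 0}
    {hgen : IntermediateField.adjoin ℂ (Set.range χ) = ⊤}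

theorem prodVar_x_ne (s : Finset κ) : (prodVar χ h0 hgen).x s ≠ 0 :=
  Finset.prod_ne_zero_iff.2 fun k _ => h0 k

theorem prodVar_chart_le {R : Subalgebra ℂ K} {s : Finset κ} (h1 : ∀ k, k ∉ s → χ k ∈ R)
    (h2 : ∀ k ∈ s, (χ k)⁻¹ ∈ R) : (prodVar χ h0 hgen).chart s ≤ R := by
  refine Algebra.adjoin_le ?_
  rintro _ ⟨(t : Finset κ), rfl⟩
  change (∏ k ∈ t, χ k) / (∏ k ∈ s, χ k) ∈ R
  have e : (∏ k ∈ t, χ k) / (∏ k ∈ s, χ k) = (∏ k ∈ t \ s, χ k) * (∏ k ∈ s \ t, (χ k)⁻¹) := by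
    have h3 : (∏ k ∈ t, χ k) = (∏ k ∈ t \ s, χ k) * ∏ k ∈ t ∩ s, χ k := by
      rw [← Finset.prod_sdiff (Finset.inter_subset_left : t ∩ s ⊆ t)]
      congr 2
      ext k; simp
    have h4 : (∏ k ∈ s, χ k) = (∏ k ∈ s \ t, χ k) * ∏ k ∈ t ∩ s, χ k := by
      rw [← Finset.prod_sdiff (Finset.inter_subset_right : t ∩ s ⊆ s)]
      congr 2
      ext k; simp
    have h5 : (∏ k ∈ t ∩ s, χ k) ≠ 0 := Finset.prod_ne_zero_iff.2 fun k _ => h0 k
    have h6 : (∏ k ∈ s \ t, χ k) ≠ 0 := Finset.prod_ne_zero_iff.2 fun k _ => h0 k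
    rw [h3, h4, Finset.prod_inv_distrib]
    field_simp
  rw [e]
  refine R.mul_mem (R.prod_mem fun k hk => h1 k (Finset.mem_sdiff.1 hk).2)
    (R.prod_mem fun k hk => h2 k (Finset.mem_sdiff.1 hk).1)

theorem mem_chart_of_notMem {s : Finset κ} {k : κ} (hk : k ∉ s) :
    χ k ∈ (prodVar χ h0 hgen).chart s := by
  refine Algebra.subset_adjoin ⟨(show Finset κ from insert k s), ?_⟩
  change (∏ k ∈ insert k s, χ k) / (∏ k ∈ s, χ k) = χ k
  rw [Finset.prod_insert hk]
  have h5 : (∏ k ∈ s, χ k) ≠ 0 := Finset.prod_ne_zero_iff.2 fun k _ => h0 k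
  field_simp

theorem inv_mem_chart_of_mem {s : Finset κ} {k : κ} (hk : k ∈ s) :
    (χ k)⁻¹ ∈ (prodVar χ h0 hgen).chart s := by
  refine Algebra.subset_adjoin ⟨(show Finset κ from s.erase k), ?_⟩
  change (∏ k ∈ s.erase k, χ k) / (∏ k ∈ s, χ k) = (χ k)⁻¹
  rw [← Finset.mul_prod_erase s χ hk]
  have h5 : (∏ k ∈ s.erase k, χ k) ≠ 0 := Finset.prod_ne_zero_iff.2 fun k _ => h0 k
  have h6 := h0 k
  field_simp

theorem prodVar_mem_or {R : Subalgebra ℂ K} (hR : (prodVar χ h0 hgen).IsLocal R) (k : κ) :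
    χ k ∈ R ∨ (χ k)⁻¹ ∈ R := by
  obtain ⟨-, (s : Finset κ), -, hs⟩ := exists_of_isLocal _ hR
  by_cases hk : k ∈ s
  · exact Or.inr (hs.1 (inv_mem_chart_of_mem hk))
  · exact Or.inl (hs.1 (mem_chart_of_notMem hk))

theorem exists_prodVar_chart_le {R : Subalgebra ℂ K} (h : ∀ k, χ k ∈ R ∨ (χ k)⁻¹ ∈ R) :
    ∃ s : Finset κ, (prodVar χ h0 hgen).chart s ≤ R := by
  classical
  refine ⟨Finset.univ.filter fun k => χ k ∉ R, prodVar_chart_le ?_ ?_⟩
  · intro k hk; simpa using hk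
  · intro k hk
    exact (h k).resolve_left (by simpa using hk)

theorem prodVar_isLocOf {R B : Subalgebra ℂ K} (hR : (prodVar χ h0 hgen).IsLocal R) (hB : B ≤ R)
    (h : ∀ k, χ k ∈ B ∨ (χ k)⁻¹ ∈ B) : IsLocOf B R := by
  obtain ⟨-, (s : Finset κ), -, hs⟩ := exists_of_isLocal _ hR
  refine hs.of_le hB (prodVar_chart_le ?_ ?_)
  · intro k hk
    rcases h k with h1 | h1
    · exact le_locAt _ _ h1
    · exact ⟨1, B.one_mem, _, h1, inv_ne_zero (h0 k), by
        rw [inv_inv]; exact hs.1 (mem_chart_of_notMem hk), by simp⟩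
  · intro k hk
    rcases h k with h1 | h1
    · exact ⟨1, B.one_mem, _, h1, h0 k, hs.1 (inv_mem_chart_of_mem hk), by simp⟩
    · exact le_locAt _ _ h1

end

/-- The six characters of the surface. -/
def chars (x y : K) : Fin 6 → K := ![x, y, x * y, x / y, x ^ 2 / y, x / y ^ 2]

theorem chars_ne {x y : K} (hx : x ≠ 0) (hy : y ≠ 0) (k : Fin 6) : chars x y k ≠ 0 := by
  fin_cases k <;> simp [chars, hx, hy]

theorem chars_gen {x y : K} (h : IntermediateField.adjoin ℂ {x, y} = ⊤) :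
    IntermediateField.adjoin ℂ (Set.range (chars x y)) = ⊤ := by
  refine gen_of_subset ?_ h
  rintro _ (rfl | rfl)
  · exact ⟨0, rfl⟩
  · exact ⟨1, rfl⟩

/-- The smooth projective toric surface with twelve rays: the closure of the graph of
`(x, y, xy, x/y, x²/y, x/y²) : ℙ² ⇢ (ℙ¹)⁶`. -/
noncomputable def G2 (x y : K) (hx : x ≠ 0) (hy : y ≠ 0)
    (h : IntermediateField.adjoin ℂ {x, y} = ⊤) : ProjVar K :=
  prodVar (chars x y) (chars_ne hx hy) (chars_gen h)

/-- the monomial pairs of one half of the fan -/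
def halfPairs (x y : K) : Fin 6 → K × K :=
  ![(x / y ^ 2, y), (x / y, y ^ 2 / x), (x ^ 2 / y, y / x), (x, y / x ^ 2), (x * y, x⁻¹),
    (y, (x * y)⁻¹)]

theorem adj2 {a b f : K} (m n : ℕ) (h : f = a ^ m * b ^ n) : f ∈ Algebra.adjoin ℂ {a, b} := by
  rw [h]
  exact mul_mem (pow_mem (Algebra.subset_adjoin (by simp)) _)
    (pow_mem (Algebra.subset_adjoin (by simp)) _)

theorem adj2_le {a b : K} {R : Subalgebra ℂ K} (ha : a ∈ R) (hb : b ∈ R) :
    Algebra.adjoin ℂ {a, b} ≤ R := by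
  refine Algebra.adjoin_le ?_
  rintro _ (rfl | rfl)
  · exact ha
  · exact hb

/-- the chamber decomposition -/
theorem exists_half {x y : K} {R : Subalgebra ℂ K}
    (h : ∀ k, chars x y k ∈ R ∨ (chars x y k)⁻¹ ∈ R) (hy' : y ∈ R) :
    ∃ k, (halfPairs x y k).1 ∈ R ∧ (halfPairs x y k).2 ∈ R := by
  have h0 := h 0
  have h2 := h 2
  have h3 := h 3
  have h4 := h 4
  have h5 := h 5
  simp only [chars, Matrix.cons_val] at h0 h2 h3 h4 h5
  rcases h2 with h2 | h2
  swap
  · exact ⟨5, hy', h2⟩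
  rcases h0 with h0 | h0
  swap
  · exact ⟨4, h2, h0⟩
  rcases h4 with h4 | h4
  swap
  · exact ⟨3, h0, by rw [inv_div] at h4; exact h4⟩
  rcases h3 with h3 | h3
  swap
  · exact ⟨2, h4, by rw [inv_div] at h3; exact h3⟩
  rcases h5 with h5 | h5
  swap
  · exact ⟨1, h3, by rw [inv_div] at h5; exact h5⟩
  · exact ⟨0, h5, hy'⟩

theorem half_chars {x y : K} (hx : x ≠ 0) (hy : y ≠ 0) (j : Fin 6) (k : Fin 6) :
    chars x y k ∈ Algebra.adjoin ℂ {(halfPairs x y j).1, (halfPairs x y j).2} ∨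
      (chars x y k)⁻¹ ∈ Algebra.adjoin ℂ {(halfPairs x y j).1, (halfPairs x y j).2} := by
  fin_cases j
  · -- (x / y^2, y)
    left
    fin_cases k
    · exact adj2 1 2 (by simp [chars, halfPairs]; field_simp)
    · exact adj2 0 1 (by simp [chars, halfPairs])
    · exact adj2 1 3 (by simp [chars, halfPairs]; field_simp)
    · exact adj2 1 1 (by simp [chars, halfPairs]; field_simp)
    · exact adj2 2 3 (by simp [chars, halfPairs]; field_simp)
    · exact adj2 1 0 (by simp [chars, halfPairs])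
  · -- (x / y, y^2 / x)
    fin_cases k
    · exact Or.inl (adj2 2 1 (by simp [chars, halfPairs]; field_simp))
    · exact Or.inl (adj2 1 1 (by simp [chars, halfPairs]; field_simp))
    · exact Or.inl (adj2 3 2 (by simp [chars, halfPairs]; field_simp))
    · exact Or.inl (adj2 1 0 (by simp [chars, halfPairs]))
    · exact Or.inl (adj2 3 1 (by simp [chars, halfPairs]; field_simp))
    · exact Or.inr (adj2 0 1 (by simp [chars, halfPairs]))
  · -- (x^2 / y, y / x)
    fin_cases k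
    · exact Or.inl (adj2 1 1 (by simp [chars, halfPairs]; field_simp))
    · exact Or.inl (adj2 1 2 (by simp [chars, halfPairs]; field_simp))
    · exact Or.inl (adj2 2 3 (by simp [chars, halfPairs]; field_simp))
    · exact Or.inr (adj2 0 1 (by simp [chars, halfPairs]))
    · exact Or.inl (adj2 1 0 (by simp [chars, halfPairs]))
    · exact Or.inr (adj2 1 3 (by simp [chars, halfPairs]; field_simp))
  · -- (x, y / x^2)
    fin_cases k
    · exact Or.inl (adj2 1 0 (by simp [chars, halfPairs]))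
    · exact Or.inl (adj2 2 1 (by simp [chars, halfPairs]; field_simp))
    · exact Or.inl (adj2 3 1 (by simp [chars, halfPairs]; field_simp))
    · exact Or.inr (adj2 1 1 (by simp [chars, halfPairs]; field_simp))
    · exact Or.inr (adj2 0 1 (by simp [chars, halfPairs]))
    · exact Or.inr (adj2 3 2 (by simp [chars, halfPairs]; field_simp))
  · -- (x y, 1 / x)
    fin_cases k
    · exact Or.inr (adj2 0 1 (by simp [chars, halfPairs]))
    · exact Or.inl (adj2 1 1 (by simp [chars, halfPairs]; field_simp))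
    · exact Or.inl (adj2 1 0 (by simp [chars, halfPairs]))
    · exact Or.inr (adj2 1 2 (by simp [chars, halfPairs]; field_simp))
    · exact Or.inr (adj2 1 3 (by simp [chars, halfPairs]; field_simp))
    · exact Or.inr (adj2 2 3 (by simp [chars, halfPairs]; field_simp))
  · -- (y, 1 / (x y))
    fin_cases k
    · exact Or.inr (adj2 1 1 (by simp [chars, halfPairs]; field_simp))
    · exact Or.inl (adj2 1 0 (by simp [chars, halfPairs]))
    · exact Or.inr (adj2 0 1 (by simp [chars, halfPairs]))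
    · exact Or.inr (adj2 2 1 (by simp [chars, halfPairs]; field_simp))
    · exact Or.inr (adj2 3 2 (by simp [chars, halfPairs]; field_simp))
    · exact Or.inr (adj2 3 1 (by simp [chars, halfPairs]; field_simp))

theorem chars_inv (x y : K) (k : Fin 6) : chars x⁻¹ y⁻¹ k = (chars x y k)⁻¹ := by
  fin_cases k <;> simp [chars, div_eq_mul_inv, mul_comm]

/-- Every local ring of the toric surface is a localisation of `ℂ[m₁, m₂]` for one of the twelve
pairs of monomials. -/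
theorem G2_exists_pair {x y : K} {hx : x ≠ 0} {hy : y ≠ 0}
    {h : IntermediateField.adjoin ℂ {x, y} = ⊤} {R : Subalgebra ℂ K}
    (hR : (G2 x y hx hy h).IsLocal R) :
    ∃ j : Fin 6,
      IsLocOf (Algebra.adjoin ℂ {(halfPairs x y j).1, (halfPairs x y j).2}) R ∨
      IsLocOf (Algebra.adjoin ℂ {(halfPairs x⁻¹ y⁻¹ j).1, (halfPairs x⁻¹ y⁻¹ j).2}) R := by
  have hk : ∀ k, chars x y k ∈ R ∨ (chars x y k)⁻¹ ∈ R := fun k => prodVar_mem_or hR k
  rcases hk 1 with h1 | h1
  · obtain ⟨j, h2, h3⟩ := exists_half hk h1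
    exact ⟨j, Or.inl (prodVar_isLocOf hR (adj2_le h2 h3) (half_chars hx hy j))⟩
  · have hk' : ∀ k, chars x⁻¹ y⁻¹ k ∈ R ∨ (chars x⁻¹ y⁻¹ k)⁻¹ ∈ R := by
      intro k
      rw [chars_inv, inv_inv]
      exact (hk k).symm
    obtain ⟨j, h2, h3⟩ := exists_half hk' h1
    refine ⟨j, Or.inr (prodVar_isLocOf hR (adj2_le h2 h3) fun k => ?_)⟩
    have := half_chars (inv_ne_zero hx) (inv_ne_zero hy) j k
    rw [chars_inv, inv_inv] at this
    exact this.symm

end Pool.Agent.Helper449.ZM
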