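import Pool.Agent.Helper449.ZM.P2

namespace Pool.Agent.Helper449.ZM

variable {K L : Type} [Field K] [Algebra ℂ K] [Field L] [Algebra ℂ L]

theorem isNonemptyOpen_basicOpen (X : ProjVar K) {i : X.ι} (hi : X.x i ≠ 0) {g : K}
    (hg : g ∈ X.chart i) (hg0 : g ≠ 0) : X.IsNonemptyOpen (X.basicOpen i g) := by
  refine ⟨?_, fun R hR => hR.1, fun R hR => ⟨i, g, hi, hg, hg0, hR, le_rfl⟩⟩
  have hT : LocalSub (⊤ : Subalgebra ℂ K) := localSub_of_val fun f => Or.inl trivial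
  exact ⟨locAt (X.chart i) ⊤, isLocal_locAt X hi le_top hT, le_locAt _ _,
    inv_mem_locAt (le_locAt _ _ hg) trivial⟩

/-- valuation rings dominating a given local ring -/
theorem exists_val (φ : L →ₐ[ℂ] K) {S : Subalgebra ℂ L} (hS : LocalSub S) :
    ∃ W : ValuationSubring K, (∀ c : ℂ, algebraMap ℂ K c ∈ W) ∧ ValDominates φ W S := by
  haveI := isLocalRing_of_localSub hS
  obtain ⟨W, h, hloc⟩ := IsLocalRing.exists_factor_valuationRing
    ((φ.comp S.val : S →ₐ[ℂ] K) : S →+* K)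
  have h1 : ∀ f ∈ S, φ f ∈ W := fun f hf => h ⟨f, hf⟩
  refine ⟨W, fun c => ?_, h1, fun f hf hfW => ?_⟩
  · have := h1 _ (S.algebraMap_mem c)
    rwa [φ.commutes] at this
  · by_cases hf0 : f = 0
    · rw [hf0, inv_zero]; exact S.zero_mem
    · have hu : IsUnit (((φ.comp S.val : S →ₐ[ℂ] K) : S →+* K).codRestrict W.toSubring h
          ⟨f, hf⟩) := by
        refine IsUnit.of_mul_eq_one (⟨(φ f)⁻¹, hfW⟩ : W.toSubring) (Subtype.ext ?_)
        change φ f * (φ f)⁻¹ = 1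
        exact mul_inv_cancel₀ (by simpa using hf0)
      exact ((isUnit_iff (⟨f, hf⟩ : S)).1 (hloc.map_nonunit _ hu)).2

theorem of_cube {W : ValuationSubring K} {x : K} (hx : x ≠ 0) (h1 : x ^ 3 ∈ W)
    (h2 : (x ^ 3)⁻¹ ∈ W) : x ∈ W ∧ x⁻¹ ∈ W := by
  rcases W.mem_or_inv_mem x with h | h
  · refine ⟨h, ?_⟩
    have : x⁻¹ = x ^ 2 * (x ^ 3)⁻¹ := by field_simp
    rw [this]; exact W.mul_mem _ _ (pow_mem h 2) h2
  · refine ⟨?_, h⟩
    have : x = x ^ 3 * (x⁻¹) ^ 2 := by field_simp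
    rw [this]; exact W.mul_mem _ _ h1 (pow_mem h 2)

theorem phi_chars_of_units {x y : K} (hx : x ≠ 0) (hy : y ≠ 0) (φ : K →ₐ[ℂ] K)
    (e1 : φ x = x ^ 2 / y) (e2 : φ y = x / y ^ 2) {R : Subalgebra ℂ K}
    (h1 : x ∈ R) (h2 : y ∈ R) (h4 : y⁻¹ ∈ R) (k : Fin 6) : φ (chars x y k) ∈ R := by
  obtain ⟨p0, p1, p2, p3, p4, p5⟩ := phi_chars hx hy φ e1 e2
  have hk : ∀ k, chars x y k ∈ R := by
    intro k
    fin_cases k
    · exact h1
    · exact h2
    · exact R.mul_mem h1 h2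
    · change x / y ∈ R
      rw [div_eq_mul_inv]; exact R.mul_mem h1 h4
    · change x ^ 2 / y ∈ R
      rw [div_eq_mul_inv]; exact R.mul_mem (R.pow_mem h1 2) h4
    · change x / y ^ 2 ∈ R
      rw [div_eq_mul_inv, ← inv_pow]; exact R.mul_mem h1 (R.pow_mem h4 2)
  fin_cases k
  · change φ (chars x y 0) ∈ R
    rw [p0]; exact hk 4
  · change φ (chars x y 1) ∈ R
    rw [p1]; exact hk 5
  · change φ (chars x y 2) ∈ R
    rw [p2]; exact R.pow_mem (hk 3) 3
  · change φ (chars x y 3) ∈ R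
    rw [p3]; exact hk 2
  · change φ (chars x y 4) ∈ R
    rw [p4]; exact R.pow_mem (hk 0) 3
  · change φ (chars x y 5) ∈ R
    rw [p5]; exact R.pow_mem (hk 1) 3

theorem almostHolomorphic {x y : K} (hx : x ≠ 0) (hy : y ≠ 0)
    (hg : IntermediateField.adjoin ℂ {x, y} = ⊤) (φ : K →ₐ[ℂ] K)
    (e1 : φ x = x ^ 2 / y) (e2 : φ y = x / y ^ 2) :
    AlmostHolomorphic (P2 x y hg) (G2 x y hx hy hg) φ := by
  have hpc := phi_chars hx hy φ e1 e2
  have hch : (P2 x y hg).chart (0 : Fin 3) = Algebra.adjoin ℂ {x, y} := P2_chart hx hy hg 0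
  have hxy : x * y ≠ 0 := mul_ne_zero hx hy
  have hxch : x ∈ (P2 x y hg).chart (0 : Fin 3) := by
    rw [hch]; exact Algebra.subset_adjoin (by simp)
  have hych : y ∈ (P2 x y hg).chart (0 : Fin 3) := by
    rw [hch]; exact Algebra.subset_adjoin (by simp)
  -- the main point
  have key : ∀ S ∈ (G2 x y hx hy hg).basicOpen (∅ : Finset (Fin 6)) (x * y),
      ∀ W : ValuationSubring K, (∀ c : ℂ, algebraMap ℂ K c ∈ W) → ValDominates φ W S →
      ∃ R ∈ (P2 x y hg).basicOpen (0 : Fin 3) (x * y),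
        ValDominates (AlgHom.id ℂ K) W R ∧ Dominates φ R S := by
    rintro S ⟨hS, hSch, hSi⟩ W hW hWS
    have hk : ∀ k, chars x y k ∈ S := fun k =>
      hSch (mem_chart_of_notMem (h0 := chars_ne hx hy) (hgen := chars_gen hg) (by simp))
    have hxS : x ∈ S := hk 0
    have hyS : y ∈ S := hk 1
    have hxi : x⁻¹ ∈ S := by
      have : x⁻¹ = y * (x * y)⁻¹ := by field_simp
      rw [this]; exact S.mul_mem hyS hSi
    have hyi : y⁻¹ ∈ S := by
      have : y⁻¹ = x * (x * y)⁻¹ := by field_simp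
      rw [this]; exact S.mul_mem hxS hSi
    obtain ⟨-, -, -, -, p4, p5⟩ := hpc
    have q4 : (chars x y 4)⁻¹ ∈ S := by
      have : (chars x y 4)⁻¹ = y * (x⁻¹) ^ 2 := by simp [chars]; field_simp
      rw [this]; exact S.mul_mem hyS (S.pow_mem hxi 2)
    have q5 : (chars x y 5)⁻¹ ∈ S := by
      have : (chars x y 5)⁻¹ = y ^ 2 * x⁻¹ := by simp [chars]; field_simp
      rw [this]; exact S.mul_mem (S.pow_mem hyS 2) hxi
    have w4 := hWS.1 _ (hk 4)
    have w4' := hWS.1 _ q4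
    have w5 := hWS.1 _ (hk 5)
    have w5' := hWS.1 _ q5
    rw [map_inv₀] at w4' w5'
    rw [p4] at w4 w4'
    rw [p5] at w5 w5'
    obtain ⟨hxW, hxW'⟩ := of_cube (x := x) hx w4 w4'
    obtain ⟨hyW, hyW'⟩ := of_cube (x := y) hy w5 w5'
    have hle : (P2 x y hg).chart (0 : Fin 3) ≤ valSub W hW := by
      rw [hch]; exact adj2_le hxW hyW
    have hR : locAt ((P2 x y hg).chart (0 : Fin 3)) (valSub W hW) ∈
        (P2 x y hg).basicOpen (0 : Fin 3) (x * y) :=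
      ⟨isLocal_locAt _ (P2_x_ne hx hy hg 0) hle (localSub_valSub W hW), le_locAt _ _,
        inv_mem_locAt (le_locAt _ _ (mul_mem hxch hych)) (by
          rw [mul_inv]; exact (valSub W hW).mul_mem hxW' hyW')⟩
    obtain ⟨R, hRdef⟩ : ∃ R, R = locAt ((P2 x y hg).chart (0 : Fin 3)) (valSub W hW) := ⟨_, rfl⟩
    rw [← hRdef] at hR
    have hRW : ∀ f ∈ R, f ∈ W := by rw [hRdef]; exact fun f hf => locAt_le hle hf
    have hRi : ∀ f ∈ R, f⁻¹ ∈ W → f⁻¹ ∈ R := by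
      rw [hRdef]; exact fun f hf hfi => inv_mem_locAt hf hfi
    have hxR : x ∈ R := hR.2.1 hxch
    have hyR : y ∈ R := hR.2.1 hych
    refine ⟨R, hR, ⟨hRW, hRi⟩, ?_, fun f hf hfi => hWS.2 f hf (hRW _ hfi)⟩
    intro f hf
    have hloc : IsLocOf ((G2 x y hx hy hg).chart (∅ : Finset (Fin 6))) S :=
      prodVar_isLocOf hS hSch fun k => Or.inl
        (mem_chart_of_notMem (h0 := chars_ne hx hy) (hgen := chars_gen hg) (by simp))
    have hleR : (G2 x y hx hy hg).chart (∅ : Finset (Fin 6)) ≤ R.comap φ :=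
      prodVar_chart_le (h0 := chars_ne hx hy) (hgen := chars_gen hg)
        (fun k _ => phi_chars_of_units hx hy φ e1 e2 hxR hyR (hRi _ hyR hyW') k)
        (fun k hk => absurd hk (by simp))
    obtain ⟨a, ha, s, hs, hs0, hsi, rfl⟩ := hloc.2 f hf
    have h1 : φ a ∈ R := hleR ha
    have h2 : φ s ∈ R := hleR hs
    have h3 : (φ s)⁻¹ ∈ R := hRi _ h2 (by rw [← map_inv₀]; exact hWS.1 _ hsi)
    rw [map_div₀, div_eq_mul_inv]
    exact R.mul_mem h1 h3
  refine ⟨(P2 x y hg).basicOpen (0 : Fin 3) (x * y),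
    (G2 x y hx hy hg).basicOpen (∅ : Finset (Fin 6)) (x * y),
    isNonemptyOpen_basicOpen _ (P2_x_ne hx hy hg 0) (mul_mem hxch hych) hxy,
    isNonemptyOpen_basicOpen _ (prodVar_x_ne (h0 := chars_ne hx hy) (hgen := chars_gen hg) ∅)
      (mem_chart_of_notMem (h0 := chars_ne hx hy) (hgen := chars_gen hg) (k := 2) (by simp)) hxy,
    ?_, ?_, ?_⟩
  · rintro R ⟨hR, hRch, hRi⟩
    have hxR : x ∈ R := hRch hxch
    have hyR : y ∈ R := hRch hych
    have hxi : x⁻¹ ∈ R := by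
      have : x⁻¹ = y * (x * y)⁻¹ := by field_simp
      rw [this]; exact R.mul_mem hyR hRi
    have hyi : y⁻¹ ∈ R := by
      have : y⁻¹ = x * (x * y)⁻¹ := by field_simp
      rw [this]; exact R.mul_mem hxR hRi
    have hleR : (G2 x y hx hy hg).chart (∅ : Finset (Fin 6)) ≤ R.comap φ :=
      prodVar_chart_le (h0 := chars_ne hx hy) (hgen := chars_gen hg)
        (fun k _ => phi_chars_of_units hx hy φ e1 e2 hxR hyR hyi k)
        (fun k hk => absurd hk (by simp))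
    refine ⟨locAt ((G2 x y hx hy hg).chart (∅ : Finset (Fin 6))) (R.comap φ),
      ⟨isLocal_locAt _ (prodVar_x_ne (h0 := chars_ne hx hy) (hgen := chars_gen hg) ∅) hleR
        (localSub_comap φ (exists_of_isLocal _ hR).1), le_locAt _ _, ?_⟩, dominates_locAt φ hleR⟩
    refine inv_mem_locAt (le_locAt _ _ (mem_chart_of_notMem (h0 := chars_ne hx hy)
      (hgen := chars_gen hg) (k := 2) (by simp))) ?_
    obtain ⟨-, -, p2, -, -, -⟩ := hpc
    change φ (x * y)⁻¹ ∈ R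
    have e : φ (x * y)⁻¹ = (y * x⁻¹) ^ 3 := by
      rw [map_inv₀]
      change (φ (chars x y 2))⁻¹ = _
      rw [p2]; simp [chars]; field_simp
    rw [e]; exact R.pow_mem (R.mul_mem hyR hxi) 3
  · intro S hS
    obtain ⟨W, hW, hWS⟩ := exists_val φ (exists_of_isLocal _ hS.1).1
    obtain ⟨R, hR, -, hRS⟩ := key S hS W hW hWS
    exact ⟨R, hR, hRS⟩
  · rintro W hW ⟨S, hS, hWS⟩
    obtain ⟨R, hR, hRW, -⟩ := key S hS W hW hWS
    exact ⟨R, hR, hRW⟩

end Pool.Agent.Helper449.ZM
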