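import Mathlib

open scoped KaehlerDifferential

namespace Pool.Agent.Helper449.ZM.J1

open IsLocalRing TensorProduct in
theorem sld_transport {S : Type} [CommRing S] [IsLocalRing S] {M : Type} [AddCommGroup M]
    [Module S M] (I : Ideal S) (hI : I = maximalIdeal S) (N : Submodule S M)
    (g : I.Cotangent →ₗ[S] M) (hg : Function.Injective g) (hN : ∀ x, g x ∈ N) :
    ∃ g' : CotangentSpace S →ₗ[S] M, Function.Injective g' ∧ ∀ x, g' x ∈ N := by
  subst hI
  exact ⟨g, hg, hN⟩

open IsLocalRing TensorProduct in
/-- JOB 1 (a).  A formally smooth, essentially finite type local domain over `ℂ` whose module of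
differentials has rank at most 2 either has residue field `ℂ` or is a valuation ring. -/
theorem smooth_local_dichotomy (S : Type) [CommRing S] [IsDomain S] [IsLocalRing S] [Algebra ℂ S]
    [Algebra.EssFiniteType ℂ S] [Algebra.FormallySmooth ℂ S]
    (hrank : Module.finrank S (Ω[S⁄ℂ]) ≤ 2) :
    (∀ f : S, ∃ c : ℂ, f - algebraMap ℂ S c ∈ IsLocalRing.maximalIdeal S) ∨ ValuationRing S := by
  have hsurj : Function.Surjective (algebraMap S (ResidueField S)) := IsLocalRing.residue_surjective
  haveI hess : Algebra.EssFiniteType ℂ (ResidueField S) :=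
    Algebra.EssFiniteType.of_surjective (IsScalarTower.toAlgHom ℂ S (ResidueField S)) hsurj
  haveI hnoeth : IsNoetherianRing S := Algebra.EssFiniteType.isNoetherianRing ℂ S
  by_cases hsub : Subsingleton (Ω[ResidueField S⁄ℂ])
  · left
    haveI : Algebra.FormallyUnramified ℂ (ResidueField S) := ⟨hsub⟩
    haveI hsep : Algebra.IsSeparable ℂ (ResidueField S) :=
      (Algebra.FormallyUnramified.iff_isSeparable ℂ (ResidueField S)).mp inferInstance
    haveI : Algebra.IsIntegral ℂ (ResidueField S) := inferInstance
    have hb : Function.Bijective (algebraMap ℂ (ResidueField S)) :=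
      IsAlgClosed.algebraMap_bijective_of_isIntegral
    intro f
    obtain ⟨c, hc⟩ := hb.2 (residue S f)
    refine ⟨c, ?_⟩
    rw [← IsLocalRing.residue_eq_zero_iff, map_sub, ← hc, sub_eq_zero]
    exact IsScalarTower.algebraMap_apply ℂ S (ResidueField S) c
  · right
    haveI hsm : Algebra.FormallySmooth ℂ (ResidueField S) := inferInstance
    haveI hfree : Module.Free S (Ω[S⁄ℂ]) := Module.free_of_flat_of_isLocalRing
    obtain ⟨l, hl⟩ := (Algebra.FormallySmooth.iff_split_injection (R := ℂ) (P := S)
      (A := ResidueField S) hsurj).mp hsm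
    have hinj : Function.Injective (KaehlerDifferential.kerCotangentToTensor ℂ S (ResidueField S)) := by
      intro x y hxy
      have h1 := congrArg l hxy
      have h2 : ∀ z, l (KaehlerDifferential.kerCotangentToTensor ℂ S (ResidueField S) z) = z :=
        fun z => LinearMap.congr_fun hl z
      rwa [h2, h2] at h1
    have hexact := KaehlerDifferential.exact_kerCotangentToTensor_mapBaseChange ℂ S
      (ResidueField S) hsurj
    have hker : RingHom.ker (algebraMap S (ResidueField S)) = maximalIdeal S :=
      IsLocalRing.ker_residue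
    let mb := KaehlerDifferential.mapBaseChange ℂ S (ResidueField S)
    obtain ⟨g', hg', hgN⟩ := sld_transport _ hker ((LinearMap.ker mb).restrictScalars S)
      (KaehlerDifferential.kerCotangentToTensor ℂ S (ResidueField S)) hinj
      (fun x => (hexact _).mpr ⟨x, rfl⟩)
    let G : CotangentSpace S →ₗ[ResidueField S] (ResidueField S ⊗[S] Ω[S⁄ℂ]) :=
      g'.extendScalarsOfSurjective hsurj
    have hG : Function.Injective G := hg'
    have hrange : LinearMap.range G ≤ LinearMap.ker mb := by
      rintro _ ⟨x, rfl⟩
      exact hgN x
    have hmbs : Function.Surjective mb :=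
      KaehlerDifferential.mapBaseChange_surjective ℂ S (ResidueField S) hsurj
    have h1 := LinearMap.finrank_range_add_finrank_ker mb
    rw [LinearMap.range_eq_top.mpr hmbs, finrank_top, Module.finrank_baseChange] at h1
    have h2 : 0 < Module.finrank (ResidueField S) (Ω[ResidueField S⁄ℂ]) := by
      rw [Module.finrank_pos_iff]
      exact not_subsingleton_iff_nontrivial.mp hsub
    have h3 : Module.finrank (ResidueField S) (CotangentSpace S) ≤ 1 := by
      rw [← LinearMap.finrank_range_of_inj hG]
      have := Submodule.finrank_mono hrange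
      omega
    exact ((tfae_of_isNoetherianRing_of_isLocalRing_of_isDomain S).out 5 1).mp h3

end Pool.Agent.Helper449.ZM.J1
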