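import Mathlib

open scoped KaehlerDifferential

namespace Pool.Agent.Helper449.ZM.J2

/-- (b) two generators of the form `D s`, `D t`. -/
theorem exists_two_generators (S : Type) [CommRing S] [IsDomain S] [IsLocalRing S] [Algebra ℂ S]
    [Algebra.EssFiniteType ℂ S] [Algebra.FormallySmooth ℂ S]
    (hrank : Module.finrank S (Ω[S⁄ℂ]) ≤ 2) :
    ∃ s t : S, Submodule.span S {KaehlerDifferential.D ℂ S s, KaehlerDifferential.D ℂ S t} = ⊤ := by
  classical
  obtain ⟨κ, a, b, hb⟩ := Module.exists_basis_of_span_of_flat (R := S) (M := Ω[S⁄ℂ])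
    (fun s : S => KaehlerDifferential.D ℂ S s) (KaehlerDifferential.span_range_derivation ℂ S)
  haveI : Finite κ := Module.Finite.finite_basis b
  haveI : Fintype κ := Fintype.ofFinite κ
  have hcard : Fintype.card κ ≤ 2 := by
    rw [← Module.finrank_eq_card_basis b]
    exact hrank
  have key : ∃ s t : S, ∀ i, a i = s ∨ a i = t := by
    have h3 : Fintype.card κ = 0 ∨ Fintype.card κ = 1 ∨ Fintype.card κ = 2 := by omega
    rcases h3 with h | h | h
    · haveI := Fintype.card_eq_zero_iff.mp h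
      exact ⟨0, 0, fun i => isEmptyElim i⟩
    · obtain ⟨x, hx⟩ := Fintype.card_eq_one_iff.mp h
      exact ⟨a x, a x, fun i => Or.inl (by rw [hx i])⟩
    · let e := (Fintype.equivFinOfCardEq h).symm
      refine ⟨a (e 0), a (e 1), fun i => ?_⟩
      obtain ⟨j, rfl⟩ := e.surjective i
      fin_cases j
      · exact Or.inl rfl
      · exact Or.inr rfl
  obtain ⟨s, t, hst⟩ := key
  refine ⟨s, t, ?_⟩
  rw [eq_top_iff, ← b.span_eq, Submodule.span_le]
  rintro _ ⟨i, rfl⟩
  rw [hb i]
  apply Submodule.subset_span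
  rcases hst i with h | h
  · rw [h]; exact Set.mem_insert _ _
  · rw [h]; exact Set.mem_insert_of_mem _ (Set.mem_singleton _)

open nonZeroDivisors in
/-- (b') the rank can be computed in the fraction field. -/
theorem finrank_kaehler_eq (S L : Type) [CommRing S] [IsDomain S] [IsLocalRing S] [Algebra ℂ S]
    [Algebra.EssFiniteType ℂ S] [Algebra.FormallySmooth ℂ S]
    [Field L] [Algebra ℂ L] [Algebra S L] [IsScalarTower ℂ S L] [IsFractionRing S L] :
    Module.finrank S (Ω[S⁄ℂ]) = Module.finrank L (Ω[L⁄ℂ]) := by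
  haveI : IsLocalizedModule S⁰ (KaehlerDifferential.map ℂ ℂ S L) := inferInstance
  rw [IsLocalization.finrank_eq (S := L) (p := S⁰) (N := Ω[L⁄ℂ]) le_rfl]
  exact (IsLocalizedModule.finrank_eq S⁰ (KaehlerDifferential.map ℂ ℂ S L) le_rfl).symm

open nonZeroDivisors in
/-- (b'') the rational function field in two variables. -/
theorem finrank_ratFunc (K : Type) [Field K] [Algebra (MvPolynomial (Fin 2) ℂ) K]
    [Algebra ℂ K] [IsScalarTower ℂ (MvPolynomial (Fin 2) ℂ) K]
    [IsFractionRing (MvPolynomial (Fin 2) ℂ) K] :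
    Module.finrank K (Ω[K⁄ℂ]) = 2 := by
  haveI : IsLocalizedModule (MvPolynomial (Fin 2) ℂ)⁰
    (KaehlerDifferential.map ℂ ℂ (MvPolynomial (Fin 2) ℂ) K) := inferInstance
  rw [IsLocalization.finrank_eq (S := K) (p := (MvPolynomial (Fin 2) ℂ)⁰) (N := Ω[K⁄ℂ]) le_rfl,
    IsLocalizedModule.finrank_eq (MvPolynomial (Fin 2) ℂ)⁰
      (KaehlerDifferential.map ℂ ℂ (MvPolynomial (Fin 2) ℂ) K) le_rfl,
    Module.finrank_eq_card_basis (KaehlerDifferential.mvPolynomialBasis ℂ (Fin 2))]
  rfl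

end Pool.Agent.Helper449.ZM.J2
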