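import Mathlib

open MvPolynomial
open scoped KaehlerDifferential

namespace Pool.Agent.Helper449.ZM.J6

variable (K : Type) [Field K] [Algebra (MvPolynomial (Fin 2) ℂ) K]
    [Algebra ℂ K] [IsScalarTower ℂ (MvPolynomial (Fin 2) ℂ) K]
    [IsFractionRing (MvPolynomial (Fin 2) ℂ) K]

/-- `dx ∧ dy ≠ 0` in `Λ² Ω[K/ℂ]`, `K = ℂ(x,y)`. -/
theorem wedge_ne_zero :
    exteriorPower.ιMulti K 2 ![KaehlerDifferential.D ℂ K (algebraMap _ K (X 0 : MvPolynomial (Fin 2) ℂ)),
      KaehlerDifferential.D ℂ K (algebraMap _ K (X 1 : MvPolynomial (Fin 2) ℂ))] ≠ 0 := by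
  classical
  let b0 := KaehlerDifferential.mvPolynomialBasis ℂ (Fin 2)
  let b : Module.Basis (Fin 2) K (Ω[K⁄ℂ]) := b0.ofIsLocalizedModule K
    (nonZeroDivisors (MvPolynomial (Fin 2) ℂ))
    (KaehlerDifferential.map ℂ ℂ (MvPolynomial (Fin 2) ℂ) K)
  have hb : ∀ i, b i = KaehlerDifferential.D ℂ K
      (algebraMap _ K (X i : MvPolynomial (Fin 2) ℂ)) := by
    intro i
    simp only [b, b0, Module.Basis.ofIsLocalizedModule_apply,
      KaehlerDifferential.mvPolynomialBasis_apply, KaehlerDifferential.map_D]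
  have hv : (![KaehlerDifferential.D ℂ K (algebraMap _ K (X 0 : MvPolynomial (Fin 2) ℂ)),
      KaehlerDifferential.D ℂ K (algebraMap _ K (X 1 : MvPolynomial (Fin 2) ℂ))] :
      Fin 2 → Ω[K⁄ℂ]) = b := by
    funext i
    rw [hb i]
    fin_cases i <;> rfl
  rw [hv]
  intro h
  have h1 := exteriorPower.alternatingMapLinearEquiv_apply_ιMulti b.det (b : Fin 2 → Ω[K⁄ℂ])
  rw [h, map_zero, b.det_self] at h1
  exact zero_ne_one h1

/-- differential of a polynomial -/
theorem D_polynomial (a : MvPolynomial (Fin 2) ℂ) :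
    KaehlerDifferential.D ℂ K (algebraMap _ K a) =
      (algebraMap _ K (pderiv 0 a)) • KaehlerDifferential.D ℂ K (algebraMap _ K (X 0 : MvPolynomial (Fin 2) ℂ)) +
      (algebraMap _ K (pderiv 1 a)) • KaehlerDifferential.D ℂ K (algebraMap _ K (X 1 : MvPolynomial (Fin 2) ℂ)) := by
  induction a using MvPolynomial.induction_on with
  | C c =>
    have h1 : algebraMap (MvPolynomial (Fin 2) ℂ) K (C c) = algebraMap ℂ K c := by
      rw [IsScalarTower.algebraMap_apply ℂ (MvPolynomial (Fin 2) ℂ) K]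
      rfl
    rw [h1, Derivation.map_algebraMap, pderiv_C, pderiv_C]
    simp
  | add p q hp hq =>
    simp only [map_add, hp, hq, add_smul]
    abel
  | mul_X p i hp =>
    rw [map_mul, Derivation.leibniz, hp]
    simp only [Derivation.leibniz, map_add, smul_eq_mul, map_mul, add_smul, smul_add]
    fin_cases i
    · simp only [Fin.zero_eta, Fin.isValue, pderiv_X_self, map_one, mul_one, one_smul]
      rw [pderiv_X_of_ne (by decide)]
      simp only [map_zero, mul_zero, zero_smul, add_zero, zero_add, mul_smul]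
      module
    · simp only [Fin.mk_one, Fin.isValue, pderiv_X_self, map_one, mul_one, one_smul]
      rw [pderiv_X_of_ne (by decide)]
      simp only [map_zero, mul_zero, zero_smul, add_zero, zero_add, mul_smul]
      module

/-- the transcendence degree -/
theorem trdeg_eq : Algebra.trdeg ℂ K = 2 := by
  haveI : FaithfulSMul (MvPolynomial (Fin 2) ℂ) K :=
    (faithfulSMul_iff_algebraMap_injective _ _).2
      (IsFractionRing.injective (MvPolynomial (Fin 2) ℂ) K)
  haveI : Algebra.IsAlgebraic (MvPolynomial (Fin 2) ℂ) K :=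
    IsLocalization.isAlgebraic (R := MvPolynomial (Fin 2) ℂ) (S := K)
      (nonZeroDivisors (MvPolynomial (Fin 2) ℂ))
  have h := trdeg_add_eq ℂ (MvPolynomial (Fin 2) ℂ) (A := K)
  rw [MvPolynomial.trdeg_of_isDomain, trdeg_eq_zero (R := MvPolynomial (Fin 2) ℂ) (A := K), add_zero] at h
  rw [← h]
  simp

end Pool.Agent.Helper449.ZM.J6
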