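import Mathlib

open MvPolynomial

namespace Pool.Agent.Helper449.ZM.J8

/-- a nonzero polynomial vanishing at the origin has a prime factor vanishing at the origin -/
theorem exists_prime_factor (j : MvPolynomial (Fin 2) ℂ) (hj : j ≠ 0)
    (h0 : MvPolynomial.eval (0 : Fin 2 → ℂ) j = 0) :
    ∃ q : MvPolynomial (Fin 2) ℂ, Prime q ∧ q ∣ j ∧ MvPolynomial.eval (0 : Fin 2 → ℂ) q = 0 := by
  revert hj h0
  refine UniqueFactorizationMonoid.induction_on_prime (P := fun j : MvPolynomial (Fin 2) ℂ =>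
    j ≠ 0 → MvPolynomial.eval (0 : Fin 2 → ℂ) j = 0 → ∃ q : MvPolynomial (Fin 2) ℂ,
      Prime q ∧ q ∣ j ∧ MvPolynomial.eval (0 : Fin 2 → ℂ) q = 0) j ?_ ?_ ?_
  · intro h
    exact absurd rfl h
  · intro x hx _ h0
    have := hx.map (MvPolynomial.eval (0 : Fin 2 → ℂ))
    rw [h0] at this
    exact absurd this not_isUnit_zero
  · intro a p ha hp ih _ h0
    rw [map_mul] at h0
    rcases mul_eq_zero.mp h0 with h | h
    · exact ⟨p, hp, dvd_mul_right p a, h⟩
    · obtain ⟨q, hq1, hq2, hq3⟩ := ih ha h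
      exact ⟨q, hq1, hq2.trans (dvd_mul_left a p), hq3⟩

/-- no prime divides both `x - a` and `y - b` -/
theorem not_dvd_both (q : MvPolynomial (Fin 2) ℂ) (hq : Prime q) (a b : ℂ)
    (h1 : q ∣ X 0 - C a) (h2 : q ∣ X 1 - C b) : False := by
  have hqd : 1 ≤ q.totalDegree := by
    by_contra hlt
    have h3 : q.totalDegree = 0 := by omega
    rw [totalDegree_eq_zero_iff_eq_C] at h3
    apply hq.not_isUnit
    rw [h3]
    apply IsUnit.map
    rw [isUnit_iff_ne_zero]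
    intro h4
    apply hq.ne_zero
    rw [h3, h4, C_0]
  have hne : ∀ (i : Fin 2) (c : ℂ), (X i - C c : MvPolynomial (Fin 2) ℂ) ≠ 0 := by
    intro i c h
    have := congrArg (MvPolynomial.eval (fun _ => c + 1 : Fin 2 → ℂ)) h
    simp at this
  have hlin : ∀ (i : Fin 2) (c : ℂ), q ∣ X i - C c → ∃ e : ℂ, X i - C c = q * C e := by
    rintro i c ⟨u, hu⟩
    have hu0 : u ≠ 0 := by
      rintro rfl
      rw [mul_zero] at hu
      exact hne i c hu
    have hdeg := totalDegree_mul_of_isDomain hq.ne_zero hu0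
    rw [← hu] at hdeg
    have hle : (X i - C c : MvPolynomial (Fin 2) ℂ).totalDegree ≤ 1 := by
      refine (totalDegree_sub _ _).trans ?_
      rw [totalDegree_X, totalDegree_C]
      simp
    have h3 : u.totalDegree = 0 := by omega
    rw [totalDegree_eq_zero_iff_eq_C] at h3
    exact ⟨_, by rw [hu]; rw [← h3]⟩
  obtain ⟨c, hc⟩ := hlin 0 a h1
  obtain ⟨d, hd⟩ := hlin 1 b h2
  have key : C d * (X 0 - C a) = C c * (X 1 - C b : MvPolynomial (Fin 2) ℂ) := by
    rw [hc, hd]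
    ring
  have h5 := congrArg (MvPolynomial.eval (![a, b + 1] : Fin 2 → ℂ)) key
  simp at h5
  rw [← h5] at hc
  apply hne 0 a
  rw [hc, C_0, mul_zero]

theorem lpz_tau (ζ : ℂ) (p : MvPolynomial (Fin 2) ℂ) :
    MvPolynomial.eval (0 : Fin 2 → ℂ)
      (MvPolynomial.aeval ![C ζ * X 0, C (ζ ^ 2) * X 1] p : MvPolynomial (Fin 2) ℂ)
        = MvPolynomial.eval (0 : Fin 2 → ℂ) p ∧
    MvPolynomial.eval (0 : Fin 2 → ℂ)
      (pderiv 0 (MvPolynomial.aeval ![C ζ * X 0, C (ζ ^ 2) * X 1] p : MvPolynomial (Fin 2) ℂ))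
        = ζ * MvPolynomial.eval (0 : Fin 2 → ℂ) (pderiv 0 p) ∧
    MvPolynomial.eval (0 : Fin 2 → ℂ)
      (pderiv 1 (MvPolynomial.aeval ![C ζ * X 0, C (ζ ^ 2) * X 1] p : MvPolynomial (Fin 2) ℂ))
        = ζ ^ 2 * MvPolynomial.eval (0 : Fin 2 → ℂ) (pderiv 1 p) := by
  induction p using MvPolynomial.induction_on with
  | C c =>
    rw [MvPolynomial.aeval_C]
    simp
  | add p q hp hq =>
    obtain ⟨p1, p2, p3⟩ := hp
    obtain ⟨q1, q2, q3⟩ := hq
    refine ⟨?_, ?_, ?_⟩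
    · rw [map_add, map_add, map_add, p1, q1]
    · rw [map_add, map_add, map_add, map_add, map_add, p2, q2]
      ring
    · rw [map_add, map_add, map_add, map_add, map_add, p3, q3]
      ring
  | mul_X p i hp =>
    obtain ⟨p1, p2, p3⟩ := hp
    have hX : (MvPolynomial.aeval ![C ζ * X 0, C (ζ ^ 2) * X 1] (X i : MvPolynomial (Fin 2) ℂ)
        : MvPolynomial (Fin 2) ℂ) = (![C ζ * X 0, C (ζ ^ 2) * X 1] : Fin 2 → _) i :=
      MvPolynomial.aeval_X _ i
    rw [map_mul, hX]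
    generalize (MvPolynomial.aeval ![C ζ * X 0, C (ζ ^ 2) * X 1] p : MvPolynomial (Fin 2) ℂ) = T
      at p1 p2 p3 ⊢
    have hd01 : pderiv (0 : Fin 2) (X 1 : MvPolynomial (Fin 2) ℂ) = 0 :=
      pderiv_X_of_ne (by decide)
    have hd10 : pderiv (1 : Fin 2) (X 0 : MvPolynomial (Fin 2) ℂ) = 0 :=
      pderiv_X_of_ne (by decide)
    fin_cases i
    · simp only [Fin.zero_eta, Matrix.cons_val_zero, Derivation.leibniz, smul_eq_mul, map_add,
        map_mul, p1, p2, p3, eval_C, eval_X, pderiv_X_self, pderiv_C, hd10, Pi.zero_apply,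
        mul_zero, zero_mul, add_zero, zero_add, mul_one, map_zero, map_one, Fin.isValue]
      exact ⟨trivial, by ring, trivial⟩
    · simp only [Fin.mk_one, Matrix.cons_val_one, Matrix.cons_val_fin_one, Derivation.leibniz,
        smul_eq_mul, map_add,
        map_mul, p1, p2, p3, eval_C, eval_X, pderiv_X_self, pderiv_C, hd01, Pi.zero_apply,
        mul_zero, zero_mul, add_zero, zero_add, mul_one, map_zero, map_one, Fin.isValue]
      exact ⟨trivial, trivial, by ring⟩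

/-- invariance under `x ↦ ζ x, y ↦ ζ² y` of the fraction `a/s` kills its linear part -/
theorem linear_part_zero (ζ : ℂ) (hζ1 : ζ ≠ 1) (hζ2 : ζ ^ 2 ≠ 1) (a s : MvPolynomial (Fin 2) ℂ)
    (h : MvPolynomial.aeval ![C ζ * X 0, C (ζ ^ 2) * X 1] a * s =
      a * MvPolynomial.aeval ![C ζ * X 0, C (ζ ^ 2) * X 1] s) :
    MvPolynomial.eval (0 : Fin 2 → ℂ) (s * pderiv 0 a - a * pderiv 0 s) = 0 ∧
    MvPolynomial.eval (0 : Fin 2 → ℂ) (s * pderiv 1 a - a * pderiv 1 s) = 0 := by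
  obtain ⟨a1, a2, a3⟩ := lpz_tau ζ a
  obtain ⟨s1, s2, s3⟩ := lpz_tau ζ s
  have h0 := congrArg (fun p => MvPolynomial.eval (0 : Fin 2 → ℂ) (pderiv 0 p)) h
  have h1 := congrArg (fun p => MvPolynomial.eval (0 : Fin 2 → ℂ) (pderiv 1 p)) h
  simp only [Derivation.leibniz, smul_eq_mul, map_add, map_mul, a1, a2, a3, s1, s2, s3] at h0 h1
  constructor
  · rw [map_sub, map_mul, map_mul]
    have : (ζ - 1) * (MvPolynomial.eval (0 : Fin 2 → ℂ) s * MvPolynomial.eval (0 : Fin 2 → ℂ) (pderiv 0 a)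
        - MvPolynomial.eval (0 : Fin 2 → ℂ) a * MvPolynomial.eval (0 : Fin 2 → ℂ) (pderiv 0 s)) = 0 := by
      linear_combination h0
    exact (mul_eq_zero.mp this).resolve_left (sub_ne_zero.mpr hζ1)
  · rw [map_sub, map_mul, map_mul]
    have : (ζ ^ 2 - 1) * (MvPolynomial.eval (0 : Fin 2 → ℂ) s * MvPolynomial.eval (0 : Fin 2 → ℂ) (pderiv 1 a)
        - MvPolynomial.eval (0 : Fin 2 → ℂ) a * MvPolynomial.eval (0 : Fin 2 → ℂ) (pderiv 1 s)) = 0 := by
      linear_combination h1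
    exact (mul_eq_zero.mp this).resolve_left (sub_ne_zero.mpr hζ2)

end Pool.Agent.Helper449.ZM.J8
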