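import Pool.Agent.Helper449.ZM.Forms
import Pool.Agent.Helper449.ZM.J1
import Pool.Agent.Helper449.ZM.J2
import Pool.Agent.Helper449.ZM.J6
import Pool.Agent.Helper449.ZM.J8

open MvPolynomial
open scoped KaehlerDifferential

namespace Pool.Agent.Helper449.ZM

section functorial

variable {K L : Type} [Field K] [Algebra ℂ K] [Field L] [Algebra ℂ L]

theorem exists_T (φ : L →ₐ[ℂ] K) : ∃ T : Ω[L⁄ℂ] →+ Ω[K⁄ℂ],
    (∀ f, T (dd f) = dd (φ f)) ∧ ∀ (c : L) (ω : Ω[L⁄ℂ]), T (c • ω) = φ c • T ω := by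
  letI : Algebra L K := φ.toRingHom.toAlgebra
  haveI : IsScalarTower ℂ L K := IsScalarTower.of_algebraMap_eq fun c => (φ.commutes c).symm
  refine ⟨(KaehlerDifferential.map ℂ ℂ L K).toAddMonoidHom, fun f => ?_, fun c ω => ?_⟩
  · exact KaehlerDifferential.map_D ℂ ℂ L K f
  · exact (KaehlerDifferential.map ℂ ℂ L K).map_smul c ω

theorem dd_map_comb (φ : L →ₐ[ℂ] K) {r m₁ m₂ α β : L} (h : dd r = α • dd m₁ + β • dd m₂) :
    dd (φ r) = φ α • dd (φ m₁) + φ β • dd (φ m₂) := by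
  obtain ⟨T, h1, h2⟩ := exists_T φ
  rw [← h1, h, map_add, h2, h2, h1, h1]

theorem comb_of_span {S : Subalgebra ℂ L} (s t : S)
    (h : Submodule.span S {KaehlerDifferential.D ℂ S s, KaehlerDifferential.D ℂ S t} = ⊤) :
    ∀ r ∈ S, ∃ α ∈ S, ∃ β ∈ S, dd r = α • dd (s : L) + β • dd (t : L) := by
  intro r hr
  have hm : KaehlerDifferential.D ℂ S ⟨r, hr⟩ ∈
      Submodule.span S {KaehlerDifferential.D ℂ S s, KaehlerDifferential.D ℂ S t} := by
    rw [h]; trivial
  obtain ⟨a, b, hab⟩ := Submodule.mem_span_pair.1 hm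
  have h2 := congrArg (KaehlerDifferential.map ℂ ℂ S L) hab
  rw [map_add, map_smul, map_smul, KaehlerDifferential.map_D, KaehlerDifferential.map_D,
    KaehlerDifferential.map_D] at h2
  exact ⟨a, a.2, b, b.2, h2.symm⟩

theorem isLocOf_top (X : ProjVar K) {R : Subalgebra ℂ K} (h : X.IsLocal R) : IsLocOf R ⊤ := by
  refine ⟨le_top, fun f _ => ?_⟩
  obtain ⟨a, ha, s, hs, hs0, e⟩ := exists_div X h f
  exact ⟨a, ha, s, hs, hs0, trivial, e⟩

end functorial

section residual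

variable {K L : Type} [Field K] [Algebra ℂ K] [Field L] [Algebra ℂ L]

/-- if a divisor is contracted to a closed point, then coordinate functions on `Y` are regular
along it -/
theorem residual (X : ProjVar K) (Y : ProjVar L) (θ : L →ₐ[ℂ] K) (hM : IsMorphism X Y θ)
    (V : Subalgebra ℂ K) (SC : Subalgebra ℂ L) (hSC : Y.IsLocal SC) (hdom : Dominates θ V SC)
    (hres : ∀ f ∈ SC, ∃ c : ℂ, f = algebraMap ℂ L c ∨ (f - algebraMap ℂ L c)⁻¹ ∉ SC) :
    ∃ T : Set L, IntermediateField.adjoin ℂ T = ⊤ ∧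
      ∀ g ∈ T, ∀ W : ValuationSubring K, (∀ c : ℂ, algebraMap ℂ K c ∈ W) →
        (∀ f ∈ W, f ∈ V) → ∀ R, X.IsLocal R → ValDominates (AlgHom.id ℂ K) W R → θ g ∈ R := by
  obtain ⟨-, i, hi, hloc⟩ := exists_of_isLocal Y hSC
  refine ⟨Set.range fun j => Y.x j / Y.x i, ?_, ?_⟩
  · rw [eq_top_iff, ← Y.generates]
    refine IntermediateField.adjoin_le_iff.2 ?_
    rintro _ ⟨k, j, hk, rfl⟩
    have h1 : Y.x j / Y.x i ∈ IntermediateField.adjoin ℂ (Set.range fun j => Y.x j / Y.x i) :=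
      IntermediateField.subset_adjoin _ _ ⟨j, rfl⟩
    have h2 : Y.x k / Y.x i ∈ IntermediateField.adjoin ℂ (Set.range fun j => Y.x j / Y.x i) :=
      IntermediateField.subset_adjoin _ _ ⟨k, rfl⟩
    have := div_mem h1 h2
    rwa [div_div_div_cancel_right₀ hi] at this
  · rintro _ ⟨j, rfl⟩ W hW hWV R hR hWR
    obtain ⟨S, hS, hdS⟩ := hM R hR
    obtain ⟨-, k, hk, hlocS⟩ := exists_of_isLocal Y hS
    -- `z_k / z_i` lies in `W`
    have h1 : Y.x k / Y.x i ∈ SC := hloc.1 (Algebra.subset_adjoin ⟨k, rfl⟩)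
    have h2 : θ (Y.x k / Y.x i) ∈ W := by
      obtain ⟨c, hc⟩ := hres _ h1
      rcases hc with hc | hc
      · rw [hc, θ.commutes]; exact hW c
      · have h3 : θ (Y.x k / Y.x i - algebraMap ℂ L c) ∈ W := by
          rcases W.mem_or_inv_mem (θ (Y.x k / Y.x i - algebraMap ℂ L c)) with h4 | h4
          · exact h4
          · exfalso
            exact hc (hdom.2 _ (SC.sub_mem h1 (SC.algebraMap_mem c)) (hWV _ h4))
        have : θ (Y.x k / Y.x i) = θ (Y.x k / Y.x i - algebraMap ℂ L c) + algebraMap ℂ K c := by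
          rw [map_sub, θ.commutes]; ring
        rw [this]; exact W.add_mem _ _ h3 (hW c)
    have h3 : Y.x i / Y.x k ∈ S := hlocS.1 (Algebra.subset_adjoin ⟨i, rfl⟩)
    have h4 : θ (Y.x i / Y.x k) ∈ R := hdS.1 _ h3
    have h5 : (θ (Y.x i / Y.x k))⁻¹ ∈ W := by rw [← map_inv₀, inv_div]; exact h2
    have h6 : (θ (Y.x i / Y.x k))⁻¹ ∈ R := hWR.2 _ h4 h5
    have h7 : θ (Y.x j / Y.x k) ∈ R := hdS.1 _ (hlocS.1 (Algebra.subset_adjoin ⟨j, rfl⟩))
    have h8 : Y.x j / Y.x i = Y.x j / Y.x k * (Y.x i / Y.x k)⁻¹ := by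
      field_simp
    change θ (Y.x j / Y.x i) ∈ R
    rw [h8, map_mul, map_inv₀]
    exact R.mul_mem h7 h6

end residual

section atPrime

variable (K : Type) [Field K] [Algebra ℂ K] [Algebra (MvPolynomial (Fin 2) ℂ) K]
  [IsScalarTower ℂ (MvPolynomial (Fin 2) ℂ) K] [IsFractionRing (MvPolynomial (Fin 2) ℂ) K]

/-- the inclusion of the polynomial ring -/
noncomputable abbrev am (a : MvPolynomial (Fin 2) ℂ) : K := algebraMap (MvPolynomial (Fin 2) ℂ) K a

variable {K}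

theorem am_mul (a b : MvPolynomial (Fin 2) ℂ) : am K (a * b) = am K a * am K b := map_mul _ _ _

theorem am_add (a b : MvPolynomial (Fin 2) ℂ) : am K (a + b) = am K a + am K b := map_add _ _ _

theorem am_sub (a b : MvPolynomial (Fin 2) ℂ) : am K (a - b) = am K a - am K b := map_sub _ _ _

theorem am_C (c : ℂ) : am K (C c) = algebraMap ℂ K c := by
  rw [am, IsScalarTower.algebraMap_apply ℂ (MvPolynomial (Fin 2) ℂ) K]; rfl

theorem am_ne {a : MvPolynomial (Fin 2) ℂ} (ha : a ≠ 0) : am K a ≠ 0 := by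
  intro h
  exact ha ((IsFractionRing.injective (MvPolynomial (Fin 2) ℂ) K) (h.trans (map_zero _).symm))

theorem am_inj {a b : MvPolynomial (Fin 2) ℂ} (h : am K a = am K b) : a = b :=
  (IsFractionRing.injective (MvPolynomial (Fin 2) ℂ) K) h

variable (K)

/-- the local ring of the affine plane at a prime ideal -/
noncomputable def atPrime (p : Ideal (MvPolynomial (Fin 2) ℂ)) (hp : p.IsPrime) :
    Subalgebra ℂ K where
  carrier := {f | ∃ a s : MvPolynomial (Fin 2) ℂ, s ∉ p ∧ f = am K a / am K s}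
  mul_mem' := by
    rintro _ _ ⟨a, s, hs, rfl⟩ ⟨b, t, ht, rfl⟩
    refine ⟨a * b, s * t, fun h => (hp.mem_or_mem h).elim hs ht, ?_⟩
    rw [am_mul, am_mul, div_mul_div_comm]
  add_mem' := by
    rintro _ _ ⟨a, s, hs, rfl⟩ ⟨b, t, ht, rfl⟩
    have hs0 : am K s ≠ 0 := am_ne (by rintro rfl; exact hs p.zero_mem)
    have ht0 : am K t ≠ 0 := am_ne (by rintro rfl; exact ht p.zero_mem)
    refine ⟨a * t + b * s, s * t, fun h => (hp.mem_or_mem h).elim hs ht, ?_⟩
    simp only [am, map_mul, map_add] at *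
    field_simp
  algebraMap_mem' c := by
    refine ⟨C c, 1, fun h => hp.ne_top ((Ideal.eq_top_iff_one p).2 h), ?_⟩
    rw [am_C]; simp [am]

variable {K}

theorem ne_of_notMem {p : Ideal (MvPolynomial (Fin 2) ℂ)} {s : MvPolynomial (Fin 2) ℂ}
    (hs : s ∉ p) : s ≠ 0 := by rintro rfl; exact hs p.zero_mem

theorem am_mem_atPrime (p : Ideal (MvPolynomial (Fin 2) ℂ)) (hp : p.IsPrime)
    (a : MvPolynomial (Fin 2) ℂ) : am K a ∈ atPrime K p hp :=
  ⟨a, 1, fun h => hp.ne_top ((Ideal.eq_top_iff_one p).2 h), by simp [am]⟩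

theorem inv_mem_atPrime {p : Ideal (MvPolynomial (Fin 2) ℂ)} {hp : p.IsPrime}
    {a : MvPolynomial (Fin 2) ℂ} (ha : a ∉ p) : (am K a)⁻¹ ∈ atPrime K p hp :=
  ⟨1, a, ha, by simp [am]⟩

theorem notMem_of_inv_mem {p : Ideal (MvPolynomial (Fin 2) ℂ)} {hp : p.IsPrime}
    {a : MvPolynomial (Fin 2) ℂ} (ha0 : a ≠ 0) (h : (am K a)⁻¹ ∈ atPrime K p hp) : a ∉ p := by
  obtain ⟨b, s, hs, e⟩ := h
  intro ha
  have hs0 : am K s ≠ 0 := am_ne (ne_of_notMem hs)
  have ha0' : am K a ≠ 0 := am_ne ha0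
  have e2 : am K s = am K (a * b) := by
    rw [am_mul]
    field_simp at e
    exact e
  rw [am_inj e2] at hs
  exact hs (p.mul_mem_right _ ha)

theorem localSub_atPrime (p : Ideal (MvPolynomial (Fin 2) ℂ)) (hp : p.IsPrime) :
    LocalSub (atPrime K p hp) := by
  rintro _ ⟨a, s, hs, rfl⟩ _ ⟨b, t, ht, rfl⟩ hfg
  have hs0 : am K s ≠ 0 := am_ne (ne_of_notMem hs)
  have ht0 : am K t ≠ 0 := am_ne (ne_of_notMem ht)
  have e : a * t + b * s = s * t := by
    apply am_inj (K := K)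
    simp only [am, map_add, map_mul] at *
    field_simp at hfg
    linear_combination hfg
  have hst : s * t ∉ p := fun h => (hp.mem_or_mem h).elim hs ht
  have hor : a ∉ p ∨ b ∉ p := by
    by_contra hcon
    push Not at hcon
    apply hst
    rw [← e]
    exact p.add_mem (p.mul_mem_right _ hcon.1) (p.mul_mem_right _ hcon.2)
  rcases hor with ha | hb
  · left
    refine ⟨div_ne_zero (am_ne (ne_of_notMem ha)) hs0, ?_⟩
    rw [inv_div]; exact ⟨s, a, ha, rfl⟩
  · right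
    refine ⟨div_ne_zero (am_ne (ne_of_notMem hb)) ht0, ?_⟩
    rw [inv_div]; exact ⟨t, b, hb, rfl⟩

theorem am_mem_adjoin (a : MvPolynomial (Fin 2) ℂ) :
    am K a ∈ Algebra.adjoin ℂ {am K (X 0), am K (X 1)} := by
  induction a using MvPolynomial.induction_on with
  | C c => rw [am_C]; exact Subalgebra.algebraMap_mem _ _
  | add p q hp hq => rw [am_add]; exact add_mem hp hq
  | mul_X p i hp =>
    rw [am_mul]
    refine mul_mem hp ?_
    fin_cases i
    · exact Algebra.subset_adjoin (by simp)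
    · exact Algebra.subset_adjoin (by simp)

theorem isLocOf_atPrime (p : Ideal (MvPolynomial (Fin 2) ℂ)) (hp : p.IsPrime) :
    IsLocOf (Algebra.adjoin ℂ {am K (X 0), am K (X 1)}) (atPrime K p hp) := by
  refine ⟨?_, ?_⟩
  · refine Algebra.adjoin_le ?_
    rintro _ (rfl | rfl)
    · exact am_mem_atPrime p hp _
    · exact am_mem_atPrime p hp _
  · rintro _ ⟨a, s, hs, rfl⟩
    exact ⟨_, am_mem_adjoin a, _, am_mem_adjoin s, am_ne (ne_of_notMem hs), inv_mem_atPrime hs, rfl⟩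

theorem atPrime_val {q : MvPolynomial (Fin 2) ℂ} (hq : Prime q)
    (hp : (Ideal.span {q}).IsPrime) (f : K) :
    f ∈ atPrime K (Ideal.span {q}) hp ∨ f⁻¹ ∈ atPrime K (Ideal.span {q}) hp := by
  obtain ⟨N, ⟨D, hDm⟩, hrel, hmk⟩ :=
    IsFractionRing.exists_reduced_fraction (A := MvPolynomial (Fin 2) ℂ) (K := K) f
  have hf : f = am K N / am K D := by
    rw [← hmk, IsFractionRing.mk'_eq_div]
  by_cases hD : D ∈ Ideal.span {q}
  · right
    have hN : N ∉ Ideal.span {q} := by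
      intro hN
      exact hq.not_unit (hrel (Ideal.mem_span_singleton.1 hN) (Ideal.mem_span_singleton.1 hD))
    exact ⟨D, N, hN, by rw [hf, inv_div]⟩
  · left
    exact ⟨N, D, hD, hf⟩

end atPrime

end Pool.Agent.Helper449.ZM
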