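import Mathlib

/-!
# Projective varieties over `ℂ` as projective models of their function field

A projective variety `X ⊆ ℙ^N` over `ℂ` (irreducible and reduced) with function field `K` is given
by the homogeneous coordinates `(x_0 : … : x_N)`, `x_i ∈ K`, of its generic point.  Its (scheme
theoretic) points correspond to its local rings, which are subrings of `K`: the local rings of the
points of the chart `x_i ≠ 0` are the localisations of `ℂ[x_0/x_i, …, x_N/x_i]` at its prime
ideals.  (Zariski's language of projective models, Zariski-Samuel, Commutative Algebra II, VI.17.)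
-/

open scoped KaehlerDifferential

namespace Pool.Agent.Helper449.ZM

/-- A projective variety over `ℂ` with function field `K`: the homogeneous coordinates of its
generic point, the ratios of which generate the function field `K`. -/
structure ProjVar (K : Type) [Field K] [Algebra ℂ K] where
  /-- the index set of the homogeneous coordinates -/
  ι : Type
  finite_ι : Finite ι
  /-- the homogeneous coordinates of the generic point -/
  x : ι → K
  exists_ne : ∃ i, x i ≠ 0
  generates : IntermediateField.adjoin ℂ {f : K | ∃ i j, x i ≠ 0 ∧ f = x j / x i} = ⊤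

variable {K L M : Type} [Field K] [Algebra ℂ K] [Field L] [Algebra ℂ L] [Field M] [Algebra ℂ M]

namespace ProjVar

/-- The coordinate ring `ℂ[x_0/x_i, …, x_N/x_i]` of the affine chart `x_i ≠ 0`. -/
def chart (X : ProjVar K) (i : X.ι) : Subalgebra ℂ K :=
  Algebra.adjoin ℂ (Set.range fun j => X.x j / X.x i)

/-- `X.IsLocal R` says that `R ⊆ K` is the local ring of a (scheme theoretic) point of `X`. -/
def IsLocal (X : ProjVar K) (R : Subalgebra ℂ K) : Prop :=
  ∃ i, X.x i ≠ 0 ∧ ∃ P : Ideal (X.chart i), P.IsPrime ∧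
    ∀ f : K, f ∈ R ↔ ∃ a s : X.chart i, s ∉ P ∧ f = (a : K) / (s : K)

/-- `X` is smooth over `ℂ`: all its local rings are formally smooth over `ℂ`. -/
def Smooth (X : ProjVar K) : Prop :=
  ∀ R, X.IsLocal R → Algebra.FormallySmooth ℂ R

/-- For `0 ≠ g ∈ ℂ[x_0/x_i, …, x_N/x_i]`, the set of the local rings of the points of the principal
open subset `g ≠ 0` of the chart `x_i ≠ 0`. -/
def basicOpen (X : ProjVar K) (i : X.ι) (g : K) : Set (Subalgebra ℂ K) :=
  {R | X.IsLocal R ∧ X.chart i ≤ R ∧ g⁻¹ ∈ R}

/-- `U` is (the set of the local rings of the points of) a nonempty Zariski open subset of `X`. -/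
def IsNonemptyOpen (X : ProjVar K) (U : Set (Subalgebra ℂ K)) : Prop :=
  U.Nonempty ∧ (∀ R ∈ U, X.IsLocal R) ∧
    ∀ R ∈ U, ∃ i g, X.x i ≠ 0 ∧ g ∈ X.chart i ∧ g ≠ 0 ∧ R ∈ X.basicOpen i g ∧ X.basicOpen i g ⊆ U

end ProjVar

/-- The local ring `R ⊆ K` dominates the local ring `S ⊆ L` with respect to the embedding of
function fields `φ : L → K`: `φ` maps `S` into `R`, and non-units to non-units. -/
def Dominates (φ : L →ₐ[ℂ] K) (R : Subalgebra ℂ K) (S : Subalgebra ℂ L) : Prop :=
  (∀ f ∈ S, φ f ∈ R) ∧ ∀ f ∈ S, (φ f)⁻¹ ∈ R → f⁻¹ ∈ S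

/-- The dominant rational map `X ⇢ Y` with comorphism `φ : K(Y) → K(X)` is a morphism: the local
ring of each point of `X` dominates the local ring of a point of `Y`. -/
def IsMorphism (X : ProjVar K) (Y : ProjVar L) (φ : L →ₐ[ℂ] K) : Prop :=
  ∀ R, X.IsLocal R → ∃ S, Y.IsLocal S ∧ Dominates φ R S

/-- The valuation ring `W` of `K` dominates the local ring `S ⊆ L` with respect to `φ : L → K`. -/
def ValDominates (φ : L →ₐ[ℂ] K) (W : ValuationSubring K) (S : Subalgebra ℂ L) : Prop :=
  (∀ f ∈ S, φ f ∈ W) ∧ ∀ f ∈ S, (φ f)⁻¹ ∈ W → f⁻¹ ∈ S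

/-- The dominant rational map `X ⇢ Y` with comorphism `φ` is almost holomorphic: there are nonempty
Zariski open sets `U ⊆ X` and `V ⊆ Y` such that it restricts to a proper surjective morphism
`U → V` (properness is expressed by the valuative criterion, for the valuation rings of
`K(X)/ℂ`). -/
def AlmostHolomorphic (X : ProjVar K) (Y : ProjVar L) (φ : L →ₐ[ℂ] K) : Prop :=
  ∃ (U : Set (Subalgebra ℂ K)) (V : Set (Subalgebra ℂ L)),
    X.IsNonemptyOpen U ∧ Y.IsNonemptyOpen V ∧
    -- a morphism `U → V`
    (∀ R ∈ U, ∃ S ∈ V, Dominates φ R S) ∧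
    -- surjective
    (∀ S ∈ V, ∃ R ∈ U, Dominates φ R S) ∧
    -- proper
    (∀ W : ValuationSubring K, (∀ c : ℂ, algebraMap ℂ K c ∈ W) →
      (∃ S ∈ V, ValDominates φ W S) → ∃ R ∈ U, ValDominates (AlgHom.id ℂ K) W R)

/-- The `K`-vector space in which the rational differential `n`-forms of `K/ℂ` live: the functions
of `n` rational vector fields (derivations of `K` over `ℂ`) with values in `K`. -/
def Form (n : ℕ) (K : Type) [Field K] [Algebra ℂ K] : Type := (Fin n → Derivation ℂ K K) → K

noncomputable instance (n : ℕ) : AddCommGroup (Form n K) :=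
  inferInstanceAs (AddCommGroup ((Fin n → Derivation ℂ K K) → K))

noncomputable instance (n : ℕ) : Module K (Form n K) :=
  inferInstanceAs (Module K ((Fin n → Derivation ℂ K K) → K))

/-- The rational `n`-form `d r₁ ∧ … ∧ d rₙ`, whose value on the vector fields `D₁, …, Dₙ` is
`det (D_j r_i)`. -/
def wedge {n : ℕ} (r : Fin n → K) : Form n K :=
  fun D => Matrix.det (Matrix.of fun i j => D j (r i))

/-- The canonical module `ω_R = Λⁿ Ω_{R/ℂ}` of the local ring `R ⊆ K` (of a point of a smooth
variety of dimension `n`), inside the `K`-vector space of rational `n`-forms: the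
`R`-submodule generated by the `d r₁ ∧ … ∧ d rₙ`, `rᵢ ∈ R`. -/
noncomputable def canonicalModule (n : ℕ) (R : Subalgebra ℂ K) : Submodule R (Form n K) :=
  Submodule.span R {ω | ∃ r : Fin n → K, (∀ i, r i ∈ R) ∧ ω = wedge r}

/-- The rational `n`-form `ω` is a local generator of the canonical sheaf at the point with local
ring `R`. -/
def Generates {n : ℕ} (R : Subalgebra ℂ K) (ω : Form n K) : Prop :=
  Submodule.span R {ω} = canonicalModule n R

/-- Let `φ` be the comorphism of a dominant rational map `X ⇢ Y` of smooth varieties of dimensions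
`n` and `m`, and let `Γ` be a resolution of it.  The relative canonical divisor
`K_{Γ/Y} = K_Γ - φ^* K_Y` is `π`-exceptional, that is `π_* K_{Γ/Y} = 0`, for a suitable choice
`K_Γ = div (d x₁ ∧ … ∧ d xₙ)`, `K_Y = div (d y₁ ∧ … ∧ d yₘ)` of the canonical divisors: for every
prime divisor of `X`, with local ring `R` (a discrete valuation ring), and its image point in `Y`,
with local ring `S`, there is `0 ≠ f ∈ K(Y)` such that `f d y₁ ∧ … ∧ d yₘ` is a local generator of
the canonical sheaf of `Y` at `S` (so that `1 / f` is a local equation of `K_Y`) and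
`f d x₁ ∧ … ∧ d xₙ` is a local generator of the canonical sheaf of `X` (or `Γ`) at `R` (so that
`K_Γ - φ^* K_Y` has coefficient `0` along this prime divisor). -/
def RelativeCanonicalExceptional (n m : ℕ) (X : ProjVar K) (Y : ProjVar L) (φ : L →ₐ[ℂ] K) :
    Prop :=
  ∃ (x : Fin n → K) (y : Fin m → L), wedge x ≠ 0 ∧ wedge y ≠ 0 ∧
    ∀ R, X.IsLocal R → IsDiscreteValuationRing R →
      ∃ S, Y.IsLocal S ∧ Dominates φ R S ∧
        ∃ f : L, f ≠ 0 ∧ Generates S (f • wedge y) ∧ Generates R (φ f • wedge x)

end Pool.Agent.Helper449.ZM
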