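import Pool.Agent.Helper449.ZM.Core2
import Pool.Agent.Helper449.ZM.P2
import Pool.Agent.Helper449.ZM.J5

open MvPolynomial
open scoped KaehlerDifferential

namespace Pool.Agent.Helper449.ZM

variable {K : Type} [Field K] [Algebra ℂ K]

theorem exists_split (Q : MvPolynomial (Fin 2) ℂ) :
    ∃ Q1 Q2 : MvPolynomial (Fin 2) ℂ,
      Q = C (MvPolynomial.eval (0 : Fin 2 → ℂ) Q) + X 0 * Q1 + X 1 * Q2 := by
  induction Q using MvPolynomial.induction_on with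
  | C c => exact ⟨0, 0, by simp⟩
  | add p q hp hq =>
    obtain ⟨p1, p2, hp⟩ := hp
    obtain ⟨q1, q2, hq⟩ := hq
    refine ⟨p1 + q1, p2 + q2, ?_⟩
    rw [map_add, C_add]
    linear_combination hp + hq
  | mul_X p i hp =>
    fin_cases i
    · exact ⟨p, 0, by simp [mul_comm]⟩
    · exact ⟨0, p, by simp [mul_comm]⟩

theorem mem_adjoin_iff (a b f : K) :
    f ∈ Algebra.adjoin ℂ {a, b} ↔ ∃ P : MvPolynomial (Fin 2) ℂ, aeval ![a, b] P = f := by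
  have : ({a, b} : Set K) = Set.range ![a, b] := by simp [Set.pair_comm]
  rw [this, Algebra.adjoin_range_eq_range_aeval]; rfl

theorem unit_or {a b : K} (hab : AlgebraicIndependent ℂ ![a, b]) (ha0 : a ≠ 0) (hb0 : b ≠ 0)
    {R : Subalgebra ℂ K} (hR : LocalSub R) (h : IsLocOf (Algebra.adjoin ℂ {a, b}) R)
    (hdiv : a / b ∈ R) : a⁻¹ ∈ R ∨ b⁻¹ ∈ R := by
  have haR : a ∈ R := h.1 (Algebra.subset_adjoin (by simp))
  have hbR : b ∈ R := h.1 (Algebra.subset_adjoin (by simp))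
  obtain ⟨p, hp, s, hs, hs0, hsR, e⟩ := h.2 _ hdiv
  obtain ⟨P, rfl⟩ := (mem_adjoin_iff a b p).1 hp
  obtain ⟨Q, rfl⟩ := (mem_adjoin_iff a b s).1 hs
  have e2 : aeval ![a, b] (X 0 * Q) = aeval ![a, b] (X 1 * P) := by
    rw [map_mul, map_mul, aeval_X, aeval_X]
    simp only [Matrix.cons_val_zero, Matrix.cons_val_one]
    rw [div_eq_div_iff hb0 hs0] at e
    linear_combination e
  have e3 : (X 0 * Q : MvPolynomial (Fin 2) ℂ) = X 1 * P := hab e2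
  have hd01 : pderiv (0 : Fin 2) (X 1 : MvPolynomial (Fin 2) ℂ) = 0 :=
    pderiv_X_of_ne (by decide)
  have e4 := congrArg (fun p => MvPolynomial.eval (0 : Fin 2 → ℂ) (pderiv 0 p)) e3
  simp only [Derivation.leibniz, smul_eq_mul, map_add, map_mul, eval_X, pderiv_X_self, hd01,
    Pi.zero_apply, mul_zero, zero_mul, add_zero, zero_add, mul_one, map_zero, map_one] at e4
  obtain ⟨Q1, Q2, hQ⟩ := exists_split Q
  rw [e4, C_0, zero_add] at hQ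
  have e5 : aeval ![a, b] Q = a * aeval ![a, b] Q1 + b * aeval ![a, b] Q2 := by
    conv_lhs => rw [hQ]
    rw [map_add, map_mul, map_mul, aeval_X, aeval_X]
    simp
  have h1 : aeval ![a, b] Q1 ∈ R := h.1 ((mem_adjoin_iff a b _).2 ⟨Q1, rfl⟩)
  have h2 : aeval ![a, b] Q2 ∈ R := h.1 ((mem_adjoin_iff a b _).2 ⟨Q2, rfl⟩)
  have e6 : a * (aeval ![a, b] Q1 * (aeval ![a, b] Q)⁻¹) +
      b * (aeval ![a, b] Q2 * (aeval ![a, b] Q)⁻¹) = 1 := by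
    rw [← mul_assoc, ← mul_assoc, ← add_mul, ← e5]
    exact mul_inv_cancel₀ hs0
  rcases hR _ (R.mul_mem haR (R.mul_mem h1 hsR)) _ (R.mul_mem hbR (R.mul_mem h2 hsR)) e6 with
    ⟨h3, h4⟩ | ⟨h3, h4⟩
  · left
    have : a⁻¹ = (aeval ![a, b] Q1 * (aeval ![a, b] Q)⁻¹) *
        (a * (aeval ![a, b] Q1 * (aeval ![a, b] Q)⁻¹))⁻¹ := by
      have h5 := right_ne_zero_of_mul h3
      rw [mul_inv, mul_left_comm, mul_inv_cancel₀ h5, mul_one]
    rw [this]; exact R.mul_mem (R.mul_mem h1 hsR) h4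
  · right
    have : b⁻¹ = (aeval ![a, b] Q2 * (aeval ![a, b] Q)⁻¹) *
        (b * (aeval ![a, b] Q2 * (aeval ![a, b] Q)⁻¹))⁻¹ := by
      have h5 := right_ne_zero_of_mul h3
      rw [mul_inv, mul_left_comm, mul_inv_cancel₀ h5, mul_one]
    rw [this]; exact R.mul_mem (R.mul_mem h2 hsR) h4

section

variable [Algebra (MvPolynomial (Fin 2) ℂ) K]
  [IsScalarTower ℂ (MvPolynomial (Fin 2) ℂ) K] [IsFractionRing (MvPolynomial (Fin 2) ℂ) K]

theorem unit_or' {a b : K} (hab : IntermediateField.adjoin ℂ {a, b} = ⊤) (ha0 : a ≠ 0)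
    (hb0 : b ≠ 0) {R : Subalgebra ℂ K} (hR : LocalSub R)
    (h : IsLocOf (Algebra.adjoin ℂ {a, b}) R) (hval : ∀ f : K, f ∈ R ∨ f⁻¹ ∈ R) :
    a⁻¹ ∈ R ∨ b⁻¹ ∈ R := by
  rcases hval (a / b) with h1 | h1
  · exact unit_or (J5.algebraicIndependent_of_adjoin_eq_top a b hab) ha0 hb0 hR h h1
  · rw [inv_div] at h1
    rw [Set.pair_comm] at hab h
    exact (unit_or (J5.algebraicIndependent_of_adjoin_eq_top b a hab) hb0 ha0 hR h h1).symm

theorem P2_smooth {x y : K} (hx : x ≠ 0) (hy : y ≠ 0)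
    (h : IntermediateField.adjoin ℂ {x, y} = ⊤) : (P2 x y h).Smooth := by
  intro R hR
  obtain ⟨i, hi⟩ := P2_exists_pair hx hy hR
  exact J5.formallySmooth_of_isLocOf _ _
    (J5.algebraicIndependent_of_adjoin_eq_top _ _ (p2Pairs_gen hx hy h i)) R hi

theorem G2_smooth {x y : K} (hx : x ≠ 0) (hy : y ≠ 0)
    (h : IntermediateField.adjoin ℂ {x, y} = ⊤) : (G2 x y hx hy h).Smooth := by
  intro R hR
  obtain ⟨j, hj | hj⟩ := G2_exists_pair hR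
  · exact J5.formallySmooth_of_isLocOf _ _
      (J5.algebraicIndependent_of_adjoin_eq_top _ _ (halfPairs_gen hx hy h j)) R hj
  · exact J5.formallySmooth_of_isLocOf _ _
      (J5.algebraicIndependent_of_adjoin_eq_top _ _
        (halfPairs_gen (inv_ne_zero hx) (inv_ne_zero hy) (gen_inv h) j)) R hj

/-- differentials of rational functions -/
theorem dd_combK (k : K) : ∃ α β : K, dd k = α • dd (am K (X 0)) + β • dd (am K (X 1)) := by
  obtain ⟨a, s, hs, rfl⟩ := IsFractionRing.div_surjective (A := MvPolynomial (Fin 2) ℂ) k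
  exact ⟨_, _, dd_frac a s (nonZeroDivisors.ne_zero hs)⟩

theorem dd_phi_combK (φ : K →ₐ[ℂ] K) (k : K) :
    ∃ α ∈ (⊤ : Subalgebra ℂ K), ∃ β ∈ (⊤ : Subalgebra ℂ K),
      dd (φ k) = α • dd (φ (am K (X 0))) + β • dd (φ (am K (X 1))) := by
  obtain ⟨α, β, e⟩ := dd_combK k
  exact ⟨φ α, trivial, φ β, trivial, dd_map_comb φ e⟩

theorem omega_ne_zero (φ : K →ₐ[ℂ] K) (e1 : φ (am K (X 0)) = am K (X 0) ^ 2 / am K (X 1))
    (e2 : φ (am K (X 1)) = am K (X 0) / am K (X 1) ^ 2) :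
    W (dd (φ (am K (X 0)))) (dd (φ (am K (X 1)))) ≠ 0 := by
  have hx0 : am K (X 0) ≠ 0 := am_ne (X_ne_zero 0)
  have hy0 : am K (X 1) ≠ 0 := am_ne (X_ne_zero 1)
  obtain ⟨-, -, -, p3, p4, p5⟩ := phi_chars hx0 hy0 φ e1 e2
  simp only [chars, Matrix.cons_val] at p3 p4 p5
  intro h0
  obtain ⟨⟨α, -, β, -, ex⟩, ⟨γ, -, δ, -, ey⟩⟩ := comb_xy (x := am K (X 0)) (y := am K (X 1))
    (n := 3) (R := (⊤ : Subalgebra ℂ K)) (by norm_num) trivial hy0 trivial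
    (by rw [← p3]; exact dd_phi_combK φ _) (by rw [← p5]; exact dd_phi_combK φ _)
  apply W_xy_ne_zero (K := K)
  rw [ex, ey, W_comb, h0, smul_zero]

/-- the three invariant monomials on each chart of the plane -/
theorem pair_images {x y : K} (hx : x ≠ 0) (hy : y ≠ 0) (φ : K →ₐ[ℂ] K) (e1 : φ x = x ^ 2 / y)
    (e2 : φ y = x / y ^ 2) (i : Fin 3) :
    (∃ k, (p2Pairs x y i).1 * (p2Pairs x y i).2 = φ (chars x y k) ∨
      (p2Pairs x y i).1 * (p2Pairs x y i).2 = φ (chars x y k)⁻¹) ∧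
    (∃ k, (p2Pairs x y i).1 ^ 3 = φ (chars x y k) ∨ (p2Pairs x y i).1 ^ 3 = φ (chars x y k)⁻¹) ∧
    (∃ k, (p2Pairs x y i).2 ^ 3 = φ (chars x y k) ∨ (p2Pairs x y i).2 ^ 3 = φ (chars x y k)⁻¹) := by
  obtain ⟨p0, p1, p2, p3, p4, p5⟩ := phi_chars hx hy φ e1 e2
  fin_cases i
  · refine ⟨⟨3, Or.inl ?_⟩, ⟨4, Or.inl ?_⟩, ⟨5, Or.inl ?_⟩⟩
    · rw [p3]; simp [p2Pairs, chars]
    · rw [p4]; simp [p2Pairs, chars]
    · rw [p5]; simp [p2Pairs, chars]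
  · refine ⟨⟨0, Or.inr ?_⟩, ⟨4, Or.inr ?_⟩, ⟨2, Or.inr ?_⟩⟩
    · rw [map_inv₀, p0]; simp [p2Pairs, chars]; field_simp
    · rw [map_inv₀, p4]; simp [p2Pairs, chars]
    · rw [map_inv₀, p2]; simp [p2Pairs, chars]; field_simp
  · refine ⟨⟨1, Or.inl ?_⟩, ⟨5, Or.inr ?_⟩, ⟨2, Or.inl ?_⟩⟩
    · rw [p1]; simp [p2Pairs, chars]; field_simp
    · rw [map_inv₀, p5]; simp [p2Pairs, chars]
    · rw [p2]; simp [p2Pairs, chars]

/-- condition (A), with `D = 0` -/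
theorem relcan (φ : K →ₐ[ℂ] K) (e1 : φ (am K (X 0)) = am K (X 0) ^ 2 / am K (X 1))
    (e2 : φ (am K (X 1)) = am K (X 0) / am K (X 1) ^ 2)
    (hx0 : am K (X 0) ≠ 0) (hy0 : am K (X 1) ≠ 0)
    (hg : IntermediateField.adjoin ℂ {am K (X 0), am K (X 1)} = ⊤) :
    RelativeCanonicalExceptional 2 2 (P2 (am K (X 0)) (am K (X 1)) hg)
      (G2 (am K (X 0)) (am K (X 1)) hx0 hy0 hg) φ := by
  refine ⟨![φ (am K (X 0)), φ (am K (X 1))], ![am K (X 0), am K (X 1)],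
    by rw [wedge_eq_W]; exact omega_ne_zero φ e1 e2, by rw [wedge_eq_W]; exact W_xy_ne_zero,
    fun R hR hdvr => ?_⟩
  rw [wedge_eq_W, wedge_eq_W]
  change ∃ S, (G2 (am K (X 0)) (am K (X 1)) hx0 hy0 hg).IsLocal S ∧ Dominates φ R S ∧
    ∃ f : K, f ≠ 0 ∧ Generates S (f • W (dd (am K (X 0))) (dd (am K (X 1)))) ∧
      Generates R (φ f • W (dd (φ (am K (X 0)))) (dd (φ (am K (X 1)))))
  have hval : ∀ f : K, f ∈ R ∨ f⁻¹ ∈ R := mem_or_inv_mem_of_dvr _ hR inferInstance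
  have hlR := (exists_of_isLocal _ hR).1
  obtain ⟨c, hc⟩ := exists_prodVar_chart_le (R := R.comap φ) (h0 := chars_ne hx0 hy0)
    (hgen := chars_gen hg) (fun k => by
      change φ _ ∈ R ∨ φ _ ∈ R
      rw [map_inv₀]; exact hval _)
  obtain ⟨S, hS, hd⟩ := exists_dominates (G2 (am K (X 0)) (am K (X 1)) hx0 hy0 hg) φ hlR
    (prodVar_x_ne c) hc
  refine ⟨S, hS, hd, ?_⟩
  obtain ⟨m₁, m₂, hm⟩ : ∃ m₁ m₂ : K, IsLocOf (Algebra.adjoin ℂ {m₁, m₂}) S := by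
    obtain ⟨j, hj | hj⟩ := G2_exists_pair hS
    · exact ⟨_, _, hj⟩
    · exact ⟨_, _, hj⟩
  have hm1 : m₁ ∈ S := hm.1 (Algebra.subset_adjoin (by simp))
  have hm2 : m₂ ∈ S := hm.1 (Algebra.subset_adjoin (by simp))
  have hcomb := dd_comb hm
  obtain ⟨a, b, ea⟩ := dd_combK m₁
  obtain ⟨a', b', eb⟩ := dd_combK m₂
  have hf : (a * b' - b * a') • W (dd (am K (X 0))) (dd (am K (X 1))) = W (dd m₁) (dd m₂) := by
    rw [ea, eb, W_comb]
  have hf' : φ (a * b' - b * a') • W (dd (φ (am K (X 0)))) (dd (φ (am K (X 1)))) =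
      W (dd (φ m₁)) (dd (φ m₂)) := by
    rw [dd_map_comb φ ea, dd_map_comb φ eb, W_comb]; simp
  have hf0 : a * b' - b * a' ≠ 0 := by
    intro h0
    rw [h0, zero_smul] at hf
    have hK : ∀ k : K, ∃ α ∈ (⊤ : Subalgebra ℂ K), ∃ β ∈ (⊤ : Subalgebra ℂ K),
        dd k = α • dd m₁ + β • dd m₂ := fun k =>
      dd_comb_of_isLocOf (isLocOf_top _ hS) (fun r hr => by
        obtain ⟨α, hα, β, hβ, e⟩ := hcomb r hr
        exact ⟨α, trivial, β, trivial, e⟩) k trivial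
    obtain ⟨α, -, β, -, ex⟩ := hK (am K (X 0))
    obtain ⟨γ, -, δ, -, ey⟩ := hK (am K (X 1))
    apply W_xy_ne_zero (K := K)
    rw [ex, ey, W_comb, ← hf, smul_zero]
  refine ⟨a * b' - b * a', hf0, ?_, ?_⟩
  · rw [hf]; exact generates_of_isLocOf hm
  rw [hf']
  -- the generation on the source
  obtain ⟨i, hi⟩ := P2_exists_pair hx0 hy0 hR
  obtain ⟨⟨k1, hk1⟩, ⟨k2, hk2⟩, ⟨k3, hk3⟩⟩ := pair_images hx0 hy0 φ e1 e2 i
  have hgi := p2Pairs_gen hx0 hy0 hg i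
  have hne : (p2Pairs (am K (X 0)) (am K (X 1)) i).1 ≠ 0 ∧
      (p2Pairs (am K (X 0)) (am K (X 1)) i).2 ≠ 0 := by
    fin_cases i <;> simp [p2Pairs, hx0, hy0]
  generalize (p2Pairs (am K (X 0)) (am K (X 1)) i).1 = u at *
  generalize (p2Pairs (am K (X 0)) (am K (X 1)) i).2 = v at *
  have huR : u ∈ R := hi.1 (Algebra.subset_adjoin (by simp))
  have hvR : v ∈ R := hi.1 (Algebra.subset_adjoin (by simp))
  have key : ∀ z ∈ R, (∃ k, z = φ (chars (am K (X 0)) (am K (X 1)) k) ∨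
      z = φ (chars (am K (X 0)) (am K (X 1)) k)⁻¹) →
      ∃ α ∈ R, ∃ β ∈ R, dd z = α • dd (φ m₁) + β • dd (φ m₂) := by
    rintro z hz ⟨k, hk⟩
    obtain ⟨w, hw, hwS⟩ : ∃ w, z = φ w ∧ (w ∈ S ∨ w⁻¹ ∈ S) := by
      rcases hk with hk | hk
      · exact ⟨_, hk, prodVar_mem_or hS k⟩
      · exact ⟨_, hk, by rw [inv_inv]; exact (prodVar_mem_or hS k).symm⟩
    have hwS' : w ∈ S := by
      rcases hwS with h | h
      · exact h
      · have := hd.2 _ h (by rw [map_inv₀, inv_inv, ← hw]; exact hz)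
        rwa [inv_inv] at this
    obtain ⟨α, hα, β, hβ, e⟩ := hcomb w hwS'
    rw [hw]
    exact ⟨φ α, hd.1 _ hα, φ β, hd.1 _ hβ, dd_map_comb φ e⟩
  have c1 := key _ (R.mul_mem huR hvR) ⟨k1, hk1⟩
  have c2 := key _ (R.pow_mem huR 3) ⟨k2, hk2⟩
  have c3 := key _ (R.pow_mem hvR 3) ⟨k3, hk3⟩
  obtain ⟨⟨α, hα, β, hβ, eu⟩, ⟨γ, hγ, δ, hδ, ev⟩⟩ :
      (∃ α ∈ R, ∃ β ∈ R, dd u = α • dd (φ m₁) + β • dd (φ m₂)) ∧
      (∃ α ∈ R, ∃ β ∈ R, dd v = α • dd (φ m₁) + β • dd (φ m₂)) := by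
    rcases unit_or' hgi hne.1 hne.2 hlR hi hval with h | h
    · rw [mul_comm] at c1
      exact (comb_xy (by norm_num) hvR hne.1 h c1 c2).symm
    · exact comb_xy (by norm_num) huR hne.2 h c1 c3
  refine generates_of (hd.1 _ hm1) (hd.1 _ hm2) fun r hr => ?_
  obtain ⟨p, hp, q, hq, e⟩ := dd_comb hi r hr
  refine ⟨p * α + q * γ, R.add_mem (R.mul_mem hp hα) (R.mul_mem hq hγ),
    p * β + q * δ, R.add_mem (R.mul_mem hp hβ) (R.mul_mem hq hδ), ?_⟩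
  rw [e, eu, ev]
  module

end

end Pool.Agent.Helper449.ZM
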