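import Pool.Agent.Helper449.ZM.Alg

open scoped KaehlerDifferential

namespace Pool.Agent.Helper449.ZM

variable {K L : Type} [Field K] [Algebra ℂ K] [Field L] [Algebra ℂ L]

/-- the universal derivation of `K/ℂ` -/
noncomputable abbrev dd (f : K) : Ω[K⁄ℂ] := KaehlerDifferential.D ℂ K f

theorem Form.smul_apply {n : ℕ} (c : K) (ω : Form n K) (D : Fin n → Derivation ℂ K K) :
    (c • ω) D = c * ω D := rfl

theorem Form.add_apply {n : ℕ} (ω ω' : Form n K) (D : Fin n → Derivation ℂ K K) :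
    (ω + ω') D = ω D + ω' D := rfl

theorem Form.neg_apply {n : ℕ} (ω : Form n K) (D : Fin n → Derivation ℂ K K) :
    (-ω) D = - ω D := rfl

theorem Form.zero_apply {n : ℕ} (D : Fin n → Derivation ℂ K K) :
    (0 : Form n K) D = 0 := rfl

/-- the exterior product of two rational `1`-forms -/
noncomputable def W (α β : Ω[K⁄ℂ]) : Form 2 K := fun D =>
  (D 0).liftKaehlerDifferential α * (D 1).liftKaehlerDifferential β -
    (D 1).liftKaehlerDifferential α * (D 0).liftKaehlerDifferential β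

theorem W_apply (α β : Ω[K⁄ℂ]) (D : Fin 2 → Derivation ℂ K K) :
    W α β D = (D 0).liftKaehlerDifferential α * (D 1).liftKaehlerDifferential β -
      (D 1).liftKaehlerDifferential α * (D 0).liftKaehlerDifferential β := rfl

theorem wedge_eq_W (r : Fin 2 → K) : wedge r = W (dd (r 0)) (dd (r 1)) := by
  funext D
  rw [W_apply, dd, dd, Derivation.liftKaehlerDifferential_comp_D,
    Derivation.liftKaehlerDifferential_comp_D, Derivation.liftKaehlerDifferential_comp_D,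
    Derivation.liftKaehlerDifferential_comp_D]
  change Matrix.det (Matrix.of fun i j => D j (r i)) = _
  rw [Matrix.det_fin_two]
  simp only [Matrix.of_apply]

theorem W_add_left (α α' β : Ω[K⁄ℂ]) : W (α + α') β = W α β + W α' β := by
  funext D
  rw [Form.add_apply]
  simp only [W_apply, map_add]
  ring

theorem W_smul_left (c : K) (α β : Ω[K⁄ℂ]) : W (c • α) β = c • W α β := by
  funext D
  rw [Form.smul_apply]
  simp only [W_apply, map_smul, smul_eq_mul]
  ring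

theorem W_self (α : Ω[K⁄ℂ]) : W α α = 0 := by
  funext D
  rw [Form.zero_apply, W_apply]
  ring

theorem W_swap (α β : Ω[K⁄ℂ]) : W β α = - W α β := by
  funext D
  rw [Form.neg_apply]
  simp only [W_apply]
  ring

theorem W_add_right (α β β' : Ω[K⁄ℂ]) : W α (β + β') = W α β + W α β' := by
  rw [W_swap, W_add_left, W_swap α β, W_swap α β']; simp [neg_add]; abel

theorem W_smul_right (c : K) (α β : Ω[K⁄ℂ]) : W α (c • β) = c • W α β := by
  rw [W_swap, W_smul_left, W_swap α β]; simp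

theorem W_comb (a b c d : K) (α β : Ω[K⁄ℂ]) :
    W (a • α + b • β) (c • α + d • β) = (a * d - b * c) • W α β := by
  simp only [W_add_left, W_add_right, W_smul_left, W_smul_right, W_self, smul_zero, zero_add,
    add_zero]
  rw [W_swap α β]
  module

theorem generates_of {m₁ m₂ : K} {R : Subalgebra ℂ K} (h1 : m₁ ∈ R) (h2 : m₂ ∈ R)
    (hD : ∀ r ∈ R, ∃ α ∈ R, ∃ β ∈ R, dd r = α • dd m₁ + β • dd m₂) :
    Generates R (W (dd m₁) (dd m₂)) := by
  apply le_antisymm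
  · refine Submodule.span_le.2 ?_
    rintro _ rfl
    refine Submodule.subset_span ⟨![m₁, m₂], ?_, ?_⟩
    · intro i; fin_cases i
      · exact h1
      · exact h2
    · rw [wedge_eq_W]; rfl
  · refine Submodule.span_le.2 ?_
    rintro _ ⟨r, hr, rfl⟩
    obtain ⟨a, ha, b, hb, e1⟩ := hD _ (hr 0)
    obtain ⟨c, hc, d, hd, e2⟩ := hD _ (hr 1)
    rw [wedge_eq_W, e1, e2, W_comb]
    have : (a * d - b * c) • W (dd m₁) (dd m₂) =
        (⟨a * d - b * c, R.sub_mem (R.mul_mem ha hd) (R.mul_mem hb hc)⟩ : R) •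
          W (dd m₁) (dd m₂) := rfl
    rw [this]
    exact Submodule.smul_mem _ _ (Submodule.subset_span rfl)

theorem dd_mul (a b : K) : dd (a * b) = a • dd b + b • dd a :=
  (KaehlerDifferential.D ℂ K).leibniz a b

theorem dd_div {a s : K} (hs : s ≠ 0) : dd (a / s) = s⁻¹ • dd a - (a / s * s⁻¹) • dd s := by
  have h : dd a = (a / s) • dd s + s • dd (a / s) := by
    rw [← dd_mul]; congr 1; field_simp
  rw [h, smul_add, smul_smul, smul_smul, inv_mul_cancel₀ hs, one_smul, mul_comm s⁻¹]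
  abel

theorem dd_const (c : ℂ) : dd (algebraMap ℂ K c) = 0 :=
  (KaehlerDifferential.D ℂ K).map_algebraMap c

theorem dd_comb_of_isLocOf {m₁ m₂ : K} {B R : Subalgebra ℂ K} (h : IsLocOf B R)
    (hD : ∀ r ∈ B, ∃ α ∈ R, ∃ β ∈ R, dd r = α • dd m₁ + β • dd m₂) :
    ∀ r ∈ R, ∃ α ∈ R, ∃ β ∈ R, dd r = α • dd m₁ + β • dd m₂ := by
  intro r hr
  obtain ⟨a, ha, s, hs, hs0, hsR, rfl⟩ := h.2 r hr
  obtain ⟨a1, ha1, a2, ha2, e1⟩ := hD a ha
  obtain ⟨s1, hs1, s2, hs2, e2⟩ := hD s hs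
  have has : a / s * s⁻¹ ∈ R := R.mul_mem hr hsR
  refine ⟨s⁻¹ * a1 - a / s * s⁻¹ * s1, R.sub_mem (R.mul_mem hsR ha1) (R.mul_mem has hs1),
    s⁻¹ * a2 - a / s * s⁻¹ * s2, R.sub_mem (R.mul_mem hsR ha2) (R.mul_mem has hs2), ?_⟩
  rw [dd_div hs0, e1, e2]
  simp only [smul_add, smul_smul, sub_smul]
  abel

theorem dd_comb_adjoin (m₁ m₂ : K) : ∀ r ∈ Algebra.adjoin ℂ {m₁, m₂},
    ∃ α ∈ Algebra.adjoin ℂ {m₁, m₂}, ∃ β ∈ Algebra.adjoin ℂ {m₁, m₂},
      dd r = α • dd m₁ + β • dd m₂ := by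
  intro r hr
  induction hr using Algebra.adjoin_induction with
  | mem x hx =>
    rcases hx with rfl | rfl
    · exact ⟨1, one_mem _, 0, zero_mem _, by simp⟩
    · exact ⟨0, zero_mem _, 1, one_mem _, by simp⟩
  | algebraMap c => exact ⟨0, zero_mem _, 0, zero_mem _, by simp [dd_const]⟩
  | add x y hx hy h1 h2 =>
    obtain ⟨a, ha, b, hb, e1⟩ := h1
    obtain ⟨c, hc, d, hd, e2⟩ := h2
    refine ⟨a + c, add_mem ha hc, b + d, add_mem hb hd, ?_⟩
    have : dd (x + y) = dd x + dd y := map_add _ _ _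
    rw [this, e1, e2]; simp only [add_smul]; abel
  | mul x y hx hy h1 h2 =>
    obtain ⟨a, ha, b, hb, e1⟩ := h1
    obtain ⟨c, hc, d, hd, e2⟩ := h2
    refine ⟨x * c + y * a, add_mem (mul_mem hx hc) (mul_mem hy ha), x * d + y * b,
      add_mem (mul_mem hx hd) (mul_mem hy hb), ?_⟩
    rw [dd_mul, e1, e2]; simp only [smul_add, add_smul, smul_smul]; abel

theorem dd_comb {m₁ m₂ : K} {R : Subalgebra ℂ K}
    (h : IsLocOf (Algebra.adjoin ℂ {m₁, m₂}) R) :
    ∀ r ∈ R, ∃ α ∈ R, ∃ β ∈ R, dd r = α • dd m₁ + β • dd m₂ :=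
  dd_comb_of_isLocOf h fun r hr => by
    obtain ⟨α, hα, β, hβ, e⟩ := dd_comb_adjoin m₁ m₂ r hr
    exact ⟨α, h.1 hα, β, h.1 hβ, e⟩

theorem generates_of_isLocOf {m₁ m₂ : K} {R : Subalgebra ℂ K}
    (h : IsLocOf (Algebra.adjoin ℂ {m₁, m₂}) R) : Generates R (W (dd m₁) (dd m₂)) :=
  generates_of (h.1 (Algebra.subset_adjoin (by simp))) (h.1 (Algebra.subset_adjoin (by simp)))
    (dd_comb h)

/-- if `ω` generates and `ω' = c ω` with a unit `c`, then `ω'` generates -/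
theorem Generates.smul {n : ℕ} {R : Subalgebra ℂ K} {ω₀ : Form n K} (h : Generates R ω₀)
    {c : K} (hc : c ∈ R) (hc' : c⁻¹ ∈ R) (hc0 : c ≠ 0) : Generates R (c • ω₀) := by
  rw [Generates, ← h]
  apply le_antisymm
  · refine Submodule.span_le.2 ?_
    rintro _ rfl
    exact Submodule.smul_mem _ (⟨c, hc⟩ : R) (Submodule.subset_span rfl)
  · refine Submodule.span_le.2 ?_
    rintro z hz
    rw [Set.mem_singleton_iff] at hz
    have e : ω₀ = (⟨c⁻¹, hc'⟩ : R) • (c • ω₀) := by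
      change ω₀ = c⁻¹ • (c • ω₀)
      rw [smul_smul, inv_mul_cancel₀ hc0, one_smul]
    have h2 : ω₀ ∈ Submodule.span R {c • ω₀} := by
      rw [e]
      have e3 : c • (⟨c⁻¹, hc'⟩ : R) • (c • ω₀) = c • ω₀ := by rw [← e]
      rw [e3]
      exact Submodule.smul_mem _ _ (Submodule.subset_span rfl)
    rw [hz]; exact h2

/-- logarithmic derivative of a monomial -/
def LogD (ξ υ : Ω[K⁄ℂ]) (u : K) (a b : ℤ) : Prop := dd u = u • ((a : K) • ξ + (b : K) • υ)

theorem LogD.mul {ξ υ : Ω[K⁄ℂ]} {u v : K} {a b c d : ℤ} (h1 : LogD ξ υ u a b)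
    (h2 : LogD ξ υ v c d) : LogD ξ υ (u * v) (a + c) (b + d) := by
  rw [LogD] at *
  rw [dd_mul, h1, h2]
  push_cast
  module

theorem LogD.inv {ξ υ : Ω[K⁄ℂ]} {u : K} {a b : ℤ} (h1 : LogD ξ υ u a b) (hu : u ≠ 0) :
    LogD ξ υ u⁻¹ (-a) (-b) := by
  rw [LogD] at *
  have : dd (u⁻¹) = - (u⁻¹ * u⁻¹) • dd u := by
    have := dd_div (a := 1) hu
    rw [one_div] at this
    rw [this]
    have h0 : dd (1 : K) = 0 := (KaehlerDifferential.D ℂ K).map_one_eq_zero
    rw [h0]; simp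
  rw [this, h1, smul_smul]
  have e : -(u⁻¹ * u⁻¹) * u = -u⁻¹ := by field_simp
  rw [e]
  push_cast
  module

theorem LogD.W {ξ υ : Ω[K⁄ℂ]} {u v : K} {a b c d : ℤ} (h1 : LogD ξ υ u a b)
    (h2 : LogD ξ υ v c d) :
    W (dd u) (dd v) = (u * v * ((a * d - b * c : ℤ) : K)) • ZM.W ξ υ := by
  rw [LogD] at *
  rw [h1, h2, W_smul_left, W_smul_right, W_comb, smul_smul, smul_smul]
  congr 1
  push_cast
  ring

end Pool.Agent.Helper449.ZM
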