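import Pool.Agent.Helper449.ZM.Defs

namespace Pool.Agent.Helper449.ZM

variable {K L M : Type} [Field K] [Algebra ℂ K] [Field L] [Algebra ℂ L] [Field M] [Algebra ℂ M]

/-- `R` is the localisation of its subalgebra `B` at the elements of `B` invertible in `R`. -/
def IsLocOf (B R : Subalgebra ℂ K) : Prop :=
  B ≤ R ∧ ∀ f ∈ R, ∃ a ∈ B, ∃ s ∈ B, s ≠ 0 ∧ s⁻¹ ∈ R ∧ f = a / s

/-- `R` is a local ring. -/
def LocalSub (R : Subalgebra ℂ K) : Prop :=
  ∀ f ∈ R, ∀ g ∈ R, f + g = 1 → (f ≠ 0 ∧ f⁻¹ ∈ R) ∨ (g ≠ 0 ∧ g⁻¹ ∈ R)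

/-- the localisation of `B` at the elements of `B` invertible in `R` -/
def locAt (B R : Subalgebra ℂ K) : Subalgebra ℂ K where
  carrier := {f | ∃ a ∈ B, ∃ s ∈ B, s ≠ 0 ∧ s⁻¹ ∈ R ∧ f = a / s}
  mul_mem' := by
    rintro _ _ ⟨a, ha, s, hs, hs0, hsR, rfl⟩ ⟨b, hb, t, ht, ht0, htR, rfl⟩
    refine ⟨a * b, B.mul_mem ha hb, s * t, B.mul_mem hs ht, mul_ne_zero hs0 ht0, ?_, ?_⟩
    · rw [mul_inv]; exact R.mul_mem hsR htR
    · field_simp
  add_mem' := by
    rintro _ _ ⟨a, ha, s, hs, hs0, hsR, rfl⟩ ⟨b, hb, t, ht, ht0, htR, rfl⟩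
    refine ⟨a * t + b * s, B.add_mem (B.mul_mem ha ht) (B.mul_mem hb hs), s * t,
      B.mul_mem hs ht, mul_ne_zero hs0 ht0, ?_, ?_⟩
    · rw [mul_inv]; exact R.mul_mem hsR htR
    · field_simp
  algebraMap_mem' c := ⟨algebraMap ℂ K c, B.algebraMap_mem c, 1, B.one_mem, one_ne_zero,
    by simp [R.one_mem], by simp⟩

theorem mem_locAt {B R : Subalgebra ℂ K} {f : K} :
    f ∈ locAt B R ↔ ∃ a ∈ B, ∃ s ∈ B, s ≠ 0 ∧ s⁻¹ ∈ R ∧ f = a / s := Iff.rfl

theorem le_locAt (B R : Subalgebra ℂ K) : B ≤ locAt B R := fun f hf =>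
  ⟨f, hf, 1, B.one_mem, one_ne_zero, by simp [R.one_mem], by simp⟩

theorem locAt_le {B R : Subalgebra ℂ K} (h : B ≤ R) : locAt B R ≤ R := by
  rintro _ ⟨a, ha, s, hs, hs0, hsR, rfl⟩
  rw [div_eq_mul_inv]
  exact R.mul_mem (h ha) hsR

theorem inv_mem_locAt {B R : Subalgebra ℂ K} {f : K} (hf : f ∈ locAt B R)
    (hfR : f⁻¹ ∈ R) : f⁻¹ ∈ locAt B R := by
  by_cases hf0 : f = 0
  · simp [hf0, (locAt B R).zero_mem]
  obtain ⟨a, ha, s, hs, hs0, hsR, rfl⟩ := hf
  have ha0 : a ≠ 0 := by rintro rfl; simp at hf0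
  refine ⟨s, hs, a, ha, ha0, ?_, by simp⟩
  have : a⁻¹ = (a / s)⁻¹ * s⁻¹ := by field_simp
  rw [this]; exact R.mul_mem hfR hsR

theorem isLocOf_locAt (B R : Subalgebra ℂ K) : IsLocOf B (locAt B R) := by
  refine ⟨le_locAt B R, ?_⟩
  rintro _ ⟨a, ha, s, hs, hs0, hsR, rfl⟩
  exact ⟨a, ha, s, hs, hs0, ⟨1, B.one_mem, s, hs, hs0, hsR, by simp⟩, rfl⟩

theorem localSub_locAt {B R : Subalgebra ℂ K} (h : B ≤ R) (hR : LocalSub R) :
    LocalSub (locAt B R) := by
  intro f hf g hg hfg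
  rcases hR f (locAt_le h hf) g (locAt_le h hg) hfg with h1 | h1
  · exact Or.inl ⟨h1.1, inv_mem_locAt hf h1.2⟩
  · exact Or.inr ⟨h1.1, inv_mem_locAt hg h1.2⟩

theorem IsLocOf.eq_locAt {B R : Subalgebra ℂ K} (h : IsLocOf B R) : R = locAt B R :=
  le_antisymm (fun f hf => h.2 f hf) (locAt_le h.1)

theorem IsLocOf.of_le {B C R : Subalgebra ℂ K} (h : IsLocOf C R) (hB : B ≤ R)
    (hC : C ≤ locAt B R) : IsLocOf B R := by
  refine ⟨hB, fun f hf => ?_⟩
  obtain ⟨a, ha, s, hs, hs0, hsR, rfl⟩ := h.2 f hf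
  change _ ∈ locAt B R
  rw [div_eq_mul_inv]
  exact (locAt B R).mul_mem (hC ha) (inv_mem_locAt (hC hs) hsR)

theorem isLocal_of (X : ProjVar K) {i : X.ι} (hi : X.x i ≠ 0) {R : Subalgebra ℂ K}
    (h : IsLocOf (X.chart i) R) (hR : LocalSub R) : X.IsLocal R := by
  classical
  let P : Ideal (X.chart i) :=
    { carrier := {f | ¬ ((f : K) ≠ 0 ∧ (f : K)⁻¹ ∈ R)}
      zero_mem' := by simp
      add_mem' := by
        intro a b ha hb hab
        obtain ⟨h0, h1⟩ := hab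
        have e : (a : K) * ((a : K) + b)⁻¹ + (b : K) * ((a : K) + b)⁻¹ = 1 := by
          rw [← add_mul]; exact mul_inv_cancel₀ (by simpa using h0)
        have h1' : ((a : K) + b)⁻¹ ∈ R := by simpa using h1
        rcases hR _ (R.mul_mem (h.1 a.2) h1') _ (R.mul_mem (h.1 b.2) h1') e with h2 | h2
        · apply ha
          have ha0 : (a : K) ≠ 0 := left_ne_zero_of_mul h2.1
          refine ⟨ha0, ?_⟩
          have : (a : K)⁻¹ = ((a : K) * ((a : K) + b)⁻¹)⁻¹ * ((a : K) + b)⁻¹ := by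
            have : (a : K) + b ≠ 0 := by simpa using h0
            field_simp
          rw [this]; exact R.mul_mem h2.2 h1'
        · apply hb
          have hb0 : (b : K) ≠ 0 := left_ne_zero_of_mul h2.1
          refine ⟨hb0, ?_⟩
          have : (b : K)⁻¹ = ((b : K) * ((a : K) + b)⁻¹)⁻¹ * ((a : K) + b)⁻¹ := by
            have : (a : K) + b ≠ 0 := by simpa using h0
            field_simp
          rw [this]; exact R.mul_mem h2.2 h1'
      smul_mem' := by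
        intro c a ha hca
        obtain ⟨h0, h1⟩ := hca
        apply ha
        have h0' : (c : K) * a ≠ 0 := by simpa using h0
        have h1' : ((c : K) * a)⁻¹ ∈ R := by simpa using h1
        have ha0 : (a : K) ≠ 0 := right_ne_zero_of_mul h0'
        have hc0 : (c : K) ≠ 0 := left_ne_zero_of_mul h0'
        refine ⟨ha0, ?_⟩
        have : (a : K)⁻¹ = c * ((c : K) * a)⁻¹ := by field_simp
        rw [this]; exact R.mul_mem (h.1 c.2) h1' }
  have hmem : ∀ f : X.chart i, f ∉ P ↔ ((f : K) ≠ 0 ∧ (f : K)⁻¹ ∈ R) := fun f => not_not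
  refine ⟨i, hi, P, ?_, ?_⟩
  · refine ⟨?_, ?_⟩
    · rw [Ideal.ne_top_iff_one, hmem]
      simp [R.one_mem]
    · intro a b hab
      by_contra hcon
      push Not at hcon
      obtain ⟨ha, hb⟩ := hcon
      rw [hmem] at ha hb
      refine (hmem (a * b)).2 ⟨?_, ?_⟩ hab
      · simpa using ⟨by simpa using ha.1, by simpa using hb.1⟩
      · simp only [MulMemClass.coe_mul, mul_inv]
        exact R.mul_mem ha.2 hb.2
  · intro f
    constructor
    · intro hf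
      obtain ⟨a, ha, s, hs, hs0, hsR, rfl⟩ := h.2 f hf
      exact ⟨⟨a, ha⟩, ⟨s, hs⟩, (hmem _).2 ⟨hs0, hsR⟩, rfl⟩
    · rintro ⟨a, s, hs, rfl⟩
      rw [div_eq_mul_inv]
      exact R.mul_mem (h.1 a.2) ((hmem s).1 hs).2

theorem exists_of_isLocal (X : ProjVar K) {R : Subalgebra ℂ K} (h : X.IsLocal R) :
    LocalSub R ∧ ∃ i, X.x i ≠ 0 ∧ IsLocOf (X.chart i) R := by
  obtain ⟨i, hi, P, hP, hR⟩ := h
  have h1 : (1 : X.chart i) ∉ P := fun h => hP.ne_top ((Ideal.eq_top_iff_one P).2 h)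
  have hle : X.chart i ≤ R := fun f hf => (hR f).2 ⟨⟨f, hf⟩, 1, h1, by simp⟩
  have hu : ∀ s : X.chart i, s ∉ P → (s : K) ≠ 0 ∧ (s : K)⁻¹ ∈ R := by
    intro s hs
    refine ⟨?_, (hR _).2 ⟨1, s, hs, by simp⟩⟩
    intro h0
    apply hs
    have : s = 0 := Subtype.ext h0
    rw [this]; exact P.zero_mem
  refine ⟨?_, i, hi, hle, ?_⟩
  · intro f hf g hg hfg
    obtain ⟨a, s, hs, rfl⟩ := (hR f).1 hf
    obtain ⟨b, t, ht, rfl⟩ := (hR g).1 hg
    have hs0 := (hu s hs).1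
    have ht0 := (hu t ht).1
    have e : a * t + b * s = s * t := by
      apply Subtype.ext
      simp only [AddMemClass.coe_add, MulMemClass.coe_mul]
      field_simp at hfg
      linear_combination hfg
    have hst : s * t ∉ P := fun h => (hP.mem_or_mem h).elim hs ht
    have hor : a ∉ P ∨ b ∉ P := by
      by_contra hcon
      push Not at hcon
      apply hst
      rw [← e]
      exact P.add_mem (P.mul_mem_right _ hcon.1) (P.mul_mem_right _ hcon.2)
    rcases hor with ha | hb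
    · left
      refine ⟨div_ne_zero (hu a ha).1 hs0, ?_⟩
      rw [inv_div]; exact (hR _).2 ⟨s, a, ha, rfl⟩
    · right
      refine ⟨div_ne_zero (hu b hb).1 ht0, ?_⟩
      rw [inv_div]; exact (hR _).2 ⟨t, b, hb, rfl⟩
  · intro f hf
    obtain ⟨a, s, hs, rfl⟩ := (hR f).1 hf
    exact ⟨a, a.2, s, s.2, (hu s hs).1, (hu s hs).2, rfl⟩

/-- the centre of a local subalgebra on a projective variety -/
theorem isLocal_locAt (X : ProjVar K) {i : X.ι} (hi : X.x i ≠ 0) {R : Subalgebra ℂ K}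
    (h : X.chart i ≤ R) (hR : LocalSub R) : X.IsLocal (locAt (X.chart i) R) :=
  isLocal_of X hi (isLocOf_locAt _ _) (localSub_locAt h hR)

theorem localSub_comap (φ : L →ₐ[ℂ] K) {R : Subalgebra ℂ K} (hR : LocalSub R) :
    LocalSub (R.comap φ) := by
  intro f hf g hg hfg
  have e : φ f + φ g = 1 := by rw [← map_add, hfg, map_one]
  rcases hR _ hf _ hg e with h | h
  · refine Or.inl ⟨fun h0 => h.1 (by simp [h0]), ?_⟩
    change φ f⁻¹ ∈ R
    rw [map_inv₀]; exact h.2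
  · refine Or.inr ⟨fun h0 => h.1 (by simp [h0]), ?_⟩
    change φ g⁻¹ ∈ R
    rw [map_inv₀]; exact h.2

theorem dominates_locAt (φ : L →ₐ[ℂ] K) {R : Subalgebra ℂ K} {B : Subalgebra ℂ L}
    (h : B ≤ R.comap φ) : Dominates φ R (locAt B (R.comap φ)) := by
  refine ⟨fun f hf => locAt_le h hf, fun f hf hfR => inv_mem_locAt hf ?_⟩
  change φ f⁻¹ ∈ R
  rw [map_inv₀]; exact hfR

theorem exists_dominates (Y : ProjVar L) (φ : L →ₐ[ℂ] K) {R : Subalgebra ℂ K} (hR : LocalSub R)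
    {i : Y.ι} (hi : Y.x i ≠ 0) (h : Y.chart i ≤ R.comap φ) :
    ∃ S, Y.IsLocal S ∧ Dominates φ R S :=
  ⟨_, isLocal_locAt Y hi h (localSub_comap φ hR), dominates_locAt φ h⟩

theorem isMorphism_of (X : ProjVar K) (Y : ProjVar L) (φ : L →ₐ[ℂ] K)
    (h : ∀ R, X.IsLocal R → ∃ i, Y.x i ≠ 0 ∧ Y.chart i ≤ R.comap φ) : IsMorphism X Y φ := by
  intro R hR
  obtain ⟨i, hi, hle⟩ := h R hR
  exact exists_dominates Y φ (exists_of_isLocal X hR).1 hi hle

/-- a valuation ring containing `ℂ`, as a subalgebra -/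
def valSub (W : ValuationSubring K) (hW : ∀ c : ℂ, algebraMap ℂ K c ∈ W) : Subalgebra ℂ K where
  carrier := {f | f ∈ W}
  mul_mem' := fun h1 h2 => W.mul_mem _ _ h1 h2
  add_mem' := fun h1 h2 => W.add_mem _ _ h1 h2
  algebraMap_mem' := hW

theorem mem_valSub {W : ValuationSubring K} {hW : ∀ c : ℂ, algebraMap ℂ K c ∈ W} {f : K} :
    f ∈ valSub W hW ↔ f ∈ W := Iff.rfl

theorem localSub_of_val {R : Subalgebra ℂ K} (h : ∀ f : K, f ∈ R ∨ f⁻¹ ∈ R) : LocalSub R := by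
  intro f hf g hg hfg
  by_cases hf0 : f = 0
  · right
    subst hf0
    have : g = 1 := by simpa using hfg
    subst this
    exact ⟨one_ne_zero, by simp [R.one_mem]⟩
  by_cases hg0 : g = 0
  · left
    subst hg0
    have : f = 1 := by simpa using hfg
    subst this
    exact ⟨one_ne_zero, by simp [R.one_mem]⟩
  rcases h (g / f) with h1 | h1
  · left
    refine ⟨hf0, ?_⟩
    have : f⁻¹ = 1 + g / f := by field_simp; exact hfg.symm
    rw [this]; exact R.add_mem R.one_mem h1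
  · right
    refine ⟨hg0, ?_⟩
    have : g⁻¹ = 1 + (g / f)⁻¹ := by field_simp; linear_combination -hfg
    rw [this]; exact R.add_mem R.one_mem h1

theorem localSub_valSub (W : ValuationSubring K) (hW : ∀ c : ℂ, algebraMap ℂ K c ∈ W) :
    LocalSub (valSub W hW) :=
  localSub_of_val fun f => W.mem_or_inv_mem f

end Pool.Agent.Helper449.ZM
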