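import Pool.Agent.Helper449.ZM.Forms

open scoped KaehlerDifferential

namespace Pool.Agent.Helper449.ZM

variable {K L : Type} [Field K] [Algebra ℂ K] [Field L] [Algebra ℂ L]

/-- the alternating map `(ω_i) ↦ det (D_j ω_i)` -/
noncomputable def altD {n : ℕ} (D : Fin n → Derivation ℂ K K) :
    Ω[K⁄ℂ] [⋀^Fin n]→ₗ[K] K :=
  (Matrix.detRowAlternating (R := K) (n := Fin n)).compLinearMap
    (LinearMap.pi fun j => (D j).liftKaehlerDifferential)

theorem altD_apply {n : ℕ} (D : Fin n → Derivation ℂ K K) (v : Fin n → Ω[K⁄ℂ]) :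
    altD D v = Matrix.det (Matrix.of fun i j => (D j).liftKaehlerDifferential (v i)) := rfl

theorem exists_transfer (K : Type) [Field K] [Algebra ℂ K] (n : ℕ) :
    ∃ T : (⋀[K]^n Ω[K⁄ℂ]) →ₗ[K] Form n K, ∀ r : Fin n → K,
      T (exteriorPower.ιMulti K n fun i => KaehlerDifferential.D ℂ K (r i)) = wedge r := by
  refine ⟨{ toFun := fun ω D => exteriorPower.alternatingMapLinearEquiv (altD D) ω
            map_add' := fun a b => ?_, map_smul' := fun c a => ?_ }, fun r => ?_⟩
  · funext D; rw [Form.add_apply, map_add]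
  · funext D; rw [RingHom.id_apply, Form.smul_apply, map_smul, smul_eq_mul]
  · funext D
    change exteriorPower.alternatingMapLinearEquiv (altD D) _ = _
    rw [exteriorPower.alternatingMapLinearEquiv_apply_ιMulti, altD_apply]
    simp only [Derivation.liftKaehlerDifferential_comp_D]
    rfl

/-- from generation in the exterior power to `Generates` -/
theorem generates_transfer {n : ℕ} (T : (⋀[K]^n Ω[K⁄ℂ]) →ₗ[K] Form n K)
    (hT : ∀ r : Fin n → K,
      T (exteriorPower.ιMulti K n fun i => KaehlerDifferential.D ℂ K (r i)) = wedge r)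
    {R : Subalgebra ℂ K} {η : ⋀[K]^n Ω[K⁄ℂ]}
    (h : Submodule.span R {η} = Submodule.span R {η | ∃ r : Fin n → K, (∀ i, r i ∈ R) ∧
      η = exteriorPower.ιMulti K n fun i => KaehlerDifferential.D ℂ K (r i)}) :
    Generates R (T η) := by
  have h2 := congrArg (Submodule.map (T.restrictScalars R)) h
  rw [Submodule.map_span, Submodule.map_span] at h2
  rw [Generates, canonicalModule]
  have e1 : (T.restrictScalars R) '' {η} = {T η} := by simp
  have e2 : (T.restrictScalars R) '' {η | ∃ r : Fin n → K, (∀ i, r i ∈ R) ∧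
      η = exteriorPower.ιMulti K n fun i => KaehlerDifferential.D ℂ K (r i)} =
      {ω | ∃ r : Fin n → K, (∀ i, r i ∈ R) ∧ ω = wedge r} := by
    ext ω
    constructor
    · rintro ⟨_, ⟨r, hr, rfl⟩, rfl⟩
      exact ⟨r, hr, hT r⟩
    · rintro ⟨r, hr, rfl⟩
      exact ⟨_, ⟨r, hr, rfl⟩, hT r⟩
  rw [e1, e2] at h2
  exact h2

/-- nonvanishing -/
theorem wedge_ne_zero_of {n : ℕ} (r : Fin n → K)
    (h : (exteriorPower.ιMulti K n fun i => KaehlerDifferential.D ℂ K (r i)) ≠ 0) :
    wedge r ≠ 0 := by
  have hli : LinearIndependent K fun i => KaehlerDifferential.D ℂ K (r i) := by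
    by_contra hcon
    exact h ((exteriorPower.ιMulti K n).map_linearDependent _ hcon)
  obtain ⟨g, hg⟩ := LinearMap.exists_leftInverse_of_injective
    (Finsupp.linearCombination K fun i => KaehlerDifferential.D ℂ K (r i))
    (LinearMap.ker_eq_bot.2 hli)
  have hg' : ∀ i, g (KaehlerDifferential.D ℂ K (r i)) = Finsupp.single i 1 := by
    intro i
    have := LinearMap.congr_fun hg (Finsupp.single i 1)
    rw [LinearMap.comp_apply, Finsupp.linearCombination_single, one_smul] at this
    exact this
  intro h0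
  have h1 := congrFun h0 fun j => ((Finsupp.lapply j).comp g).compDer (KaehlerDifferential.D ℂ K)
  rw [Form.zero_apply] at h1
  change Matrix.det (Matrix.of fun i j => g (KaehlerDifferential.D ℂ K (r i)) j) = 0 at h1
  have h2 : (Matrix.of fun i j => g (KaehlerDifferential.D ℂ K (r i)) j) =
      (1 : Matrix (Fin n) (Fin n) K) := by
    ext i j
    rw [Matrix.of_apply, hg', Matrix.one_apply, Finsupp.single_apply]
  rw [h2, Matrix.det_one] at h1
  exact one_ne_zero h1

end Pool.Agent.Helper449.ZM
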